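import Pool.Agent.R969.AL.Oct
set_option autoImplicit false
set_option linter.unusedSimpArgs false
set_option linter.flexible false

/-! The Albert algebra `H₃(𝕆)` over a field: entries `(a1, a2, a3; x1, x2, x3)` stand for the Hermitian matrix
`[[a1, x3, x̄2], [x̄3, a2, x1], [x2, x̄1, a3]]`. -/

namespace Pool.Agent.R969.AL

section
variable {K : Type*} [Field K]

theorem jm_mk (a1 a2 a3 b1 b2 b3 : K) (x1 x2 x3 y1 y2 y3 : Oct K) :
    jm (a1, a2, a3, x1, x2, x3) (b1, b2, b3, y1, y2, y3) =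
    (a1 * b1 + dt x2 y2 + dt x3 y3, a2 * b2 + dt x3 y3 + dt x1 y1, a3 * b3 + dt x1 y1 + dt x2 y2,
     (2⁻¹ : K) • ((a2 + a3) • y1 + (b2 + b3) • x1 + cj (omul x2 y3) + cj (omul y2 x3)),
     (2⁻¹ : K) • ((a3 + a1) • y2 + (b3 + b1) • x2 + cj (omul x3 y1) + cj (omul y3 x1)),
     (2⁻¹ : K) • ((a1 + a2) • y3 + (b1 + b2) • x3 + cj (omul x1 y2) + cj (omul y1 x2))) := rfl

omit [Field K] in
theorem aext {a1 a2 a3 b1 b2 b3 : K} {x1 x2 x3 y1 y2 y3 : Oct K} (h1 : a1 = b1) (h2 : a2 = b2) (h3 : a3 = b3)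
    (k1 : x1 = y1) (k2 : x2 = y2) (k3 : x3 = y3) :
    ((a1, a2, a3, x1, x2, x3) : Alb K) = (b1, b2, b3, y1, y2, y3) := by
  subst h1 h2 h3 k1 k2 k3; rfl

/-- the trace -/
def tr (x : Alb K) : K := x.1 + x.2.1 + x.2.2.1

/-- the trace form -/
def B (x y : Alb K) : K := x.1 * y.1 + x.2.1 * y.2.1 + x.2.2.1 * y.2.2.1 +
  2 * (dt x.2.2.2.1 y.2.2.2.1 + dt x.2.2.2.2.1 y.2.2.2.2.1 + dt x.2.2.2.2.2 y.2.2.2.2.2)

theorem B_mk (a1 a2 a3 b1 b2 b3 : K) (x1 x2 x3 y1 y2 y3 : Oct K) :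
    B (a1, a2, a3, x1, x2, x3) (b1, b2, b3, y1, y2, y3) =
    a1 * b1 + a2 * b2 + a3 * b3 + 2 * (dt x1 y1 + dt x2 y2 + dt x3 y3) := rfl

theorem tr_jm (x y : Alb K) : tr (jm x y) = B x y := by
  obtain ⟨a1, a2, a3, x1, x2, x3⟩ := x
  obtain ⟨b1, b2, b3, y1, y2, y3⟩ := y
  simp only [jm_mk, B_mk, tr]; ring

/-- `x^#` -/
def sharp (x : Alb K) : Alb K :=
  (x.2.1 * x.2.2.1 - dt x.2.2.2.1 x.2.2.2.1, x.2.2.1 * x.1 - dt x.2.2.2.2.1 x.2.2.2.2.1,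
   x.1 * x.2.1 - dt x.2.2.2.2.2 x.2.2.2.2.2,
   cj (omul x.2.2.2.2.1 x.2.2.2.2.2) - x.1 • x.2.2.2.1,
   cj (omul x.2.2.2.2.2 x.2.2.2.1) - x.2.1 • x.2.2.2.2.1,
   cj (omul x.2.2.2.1 x.2.2.2.2.1) - x.2.2.1 • x.2.2.2.2.2)

theorem sharp_mk (a1 a2 a3 : K) (x1 x2 x3 : Oct K) : sharp (a1, a2, a3, x1, x2, x3) =
  (a2 * a3 - dt x1 x1, a3 * a1 - dt x2 x2, a1 * a2 - dt x3 x3, cj (omul x2 x3) - a1 • x1,
    cj (omul x3 x1) - a2 • x2, cj (omul x1 x2) - a3 • x3) := rfl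

/-- the determinant -/
def det (x : Alb K) : K := x.1 * x.2.1 * x.2.2.1 - x.1 * dt x.2.2.2.1 x.2.2.2.1 -
  x.2.1 * dt x.2.2.2.2.1 x.2.2.2.2.1 - x.2.2.1 * dt x.2.2.2.2.2 x.2.2.2.2.2 +
  2 * dt (cj (omul x.2.2.2.2.1 x.2.2.2.2.2)) x.2.2.2.1

theorem det_mk (a1 a2 a3 : K) (x1 x2 x3 : Oct K) : det (a1, a2, a3, x1, x2, x3) =
  a1 * a2 * a3 - a1 * dt x1 x1 - a2 * dt x2 x2 - a3 * dt x3 x3 + 2 * dt (cj (omul x2 x3)) x1 := rfl

/-- cyclic shift of the indices -/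
def sh (x : Alb K) : Alb K := (x.2.1, x.2.2.1, x.1, x.2.2.2.2.1, x.2.2.2.2.2, x.2.2.2.1)

omit [Field K] in
theorem sh_mk (a1 a2 a3 : K) (x1 x2 x3 : Oct K) : sh (a1, a2, a3, x1, x2, x3) =
  (a2, a3, a1, x2, x3, x1) := rfl

theorem sh_jm (x y : Alb K) : sh (jm x y) = jm (sh x) (sh y) := by
  obtain ⟨a1, a2, a3, x1, x2, x3⟩ := x
  obtain ⟨b1, b2, b3, y1, y2, y3⟩ := y
  rfl
omit [Field K] in
theorem sh_sh_sh (x : Alb K) : sh (sh (sh x)) = x := rfl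
theorem sh_one : sh (one : Alb K) = one := rfl
theorem sh_add (x y : Alb K) : sh (x + y) = sh x + sh y := rfl
theorem sh_smul (c : K) (x : Alb K) : sh (c • x) = c • sh x := rfl
theorem sh_sharp (x : Alb K) : sh (sharp x) = sharp (sh x) := rfl
theorem tr_sh (x : Alb K) : tr (sh x) = tr x := by simp only [tr, sh]; ring
theorem B_sh (x y : Alb K) : B (sh x) (sh y) = B x y := by
  obtain ⟨a1, a2, a3, x1, x2, x3⟩ := x
  obtain ⟨b1, b2, b3, y1, y2, y3⟩ := y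
  simp only [sh_mk, B_mk]; ring
theorem det_sh (x : Alb K) : det (sh x) = det x := by
  obtain ⟨a1, a2, a3, x1, x2, x3⟩ := x
  simp only [sh_mk, det_mk]
  rw [tri x2 x3 x1]; ring

theorem jm_comm (x y : Alb K) : jm x y = jm y x := by
  obtain ⟨a1, a2, a3, x1, x2, x3⟩ := x
  obtain ⟨b1, b2, b3, y1, y2, y3⟩ := y
  simp only [jm_mk]
  refine aext ?_ ?_ ?_ ?_ ?_ ?_
  · rw [dt_comm x2, dt_comm x3, mul_comm]
  · rw [dt_comm x1, dt_comm x3, mul_comm]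
  · rw [dt_comm x2, dt_comm x1, mul_comm]
  all_goals (congr 1; abel)

theorem B_comm (x y : Alb K) : B x y = B y x := by rw [← tr_jm, jm_comm, tr_jm]

theorem jm_add (x y z : Alb K) : jm x (y + z) = jm x y + jm x z := by
  obtain ⟨a1, a2, a3, x1, x2, x3⟩ := x
  obtain ⟨b1, b2, b3, y1, y2, y3⟩ := y
  obtain ⟨c1, c2, c3, z1, z2, z3⟩ := z
  simp only [jm_mk, Prod.mk_add_mk]
  refine aext ?_ ?_ ?_ ?_ ?_ ?_ <;>
  simp only [dt_add, omul_add, add_omul, cj_add, smul_add, add_smul, mul_add] <;> module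

theorem jm_smul (c : K) (x y : Alb K) : jm x (c • y) = c • jm x y := by
  obtain ⟨a1, a2, a3, x1, x2, x3⟩ := x
  obtain ⟨b1, b2, b3, y1, y2, y3⟩ := y
  simp only [jm_mk, Prod.smul_mk]
  refine aext ?_ ?_ ?_ ?_ ?_ ?_
  · simp only [dt_smul, smul_eq_mul]; ring
  · simp only [dt_smul, smul_eq_mul]; ring
  · simp only [dt_smul, smul_eq_mul]; ring
  all_goals (
    simp only [omul_smul, smul_omul, cj_smul]
    funext i
    simp only [Pi.smul_apply, Pi.add_apply, smul_eq_mul]; ring)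

theorem add_jm (x y z : Alb K) : jm (x + y) z = jm x z + jm y z := by
  rw [jm_comm, jm_add, jm_comm z, jm_comm z]
theorem smul_jm (c : K) (x y : Alb K) : jm (c • x) y = c • jm x y := by
  rw [jm_comm, jm_smul, jm_comm]

/-- multiplication operators -/
def Lm : Alb K →ₗ[K] Alb K →ₗ[K] Alb K :=
  LinearMap.mk₂ K jm add_jm smul_jm (fun x y z => jm_add x y z) (fun c x y => jm_smul c x y)

theorem Lm_apply (x y : Alb K) : Lm x y = jm x y := rfl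

/-- the trace form as a bilinear map -/
def Bm : Alb K →ₗ[K] Alb K →ₗ[K] K :=
  LinearMap.mk₂ K B
    (by
      intro x y z
      obtain ⟨a1, a2, a3, x1, x2, x3⟩ := x
      obtain ⟨b1, b2, b3, y1, y2, y3⟩ := y
      obtain ⟨c1, c2, c3, z1, z2, z3⟩ := z
      simp only [B_mk, Prod.mk_add_mk, add_dt]; ring)
    (by
      intro c x y
      obtain ⟨a1, a2, a3, x1, x2, x3⟩ := x
      obtain ⟨b1, b2, b3, y1, y2, y3⟩ := y
      simp only [B_mk, Prod.smul_mk, smul_dt, smul_eq_mul]; ring)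
    (by
      intro x y z
      obtain ⟨a1, a2, a3, x1, x2, x3⟩ := x
      obtain ⟨b1, b2, b3, y1, y2, y3⟩ := y
      obtain ⟨c1, c2, c3, z1, z2, z3⟩ := z
      simp only [B_mk, Prod.mk_add_mk, dt_add]; ring)
    (by
      intro c x y
      obtain ⟨a1, a2, a3, x1, x2, x3⟩ := x
      obtain ⟨b1, b2, b3, y1, y2, y3⟩ := y
      simp only [B_mk, Prod.smul_mk, dt_smul, smul_eq_mul]; ring)

theorem Bm_apply (x y : Alb K) : Bm x y = B x y := rfl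
theorem B_add (x y z : Alb K) : B x (y + z) = B x y + B x z := (Bm x).map_add y z
theorem add_B (x y z : Alb K) : B (x + y) z = B x z + B y z := by rw [B_comm, B_add, B_comm z, B_comm z]
theorem B_smul (c : K) (x y : Alb K) : B x (c • y) = c * B x y := (Bm x).map_smul c y
theorem smul_B (c : K) (x y : Alb K) : B (c • x) y = c * B x y := by rw [B_comm, B_smul, B_comm]

theorem jm_one [NeZero (2 : K)] (x : Alb K) : jm x one = x := by
  have h2 : (2 : K) ≠ 0 := NeZero.ne 2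
  obtain ⟨a1, a2, a3, x1, x2, x3⟩ := x
  simp only [jm_mk, one]
  refine aext ?_ ?_ ?_ ?_ ?_ ?_ <;>
  simp only [dt_zero, omul_zero, zero_omul, cj_zero, smul_zero, add_zero, zero_add, mul_one, smul_smul]
  all_goals (rw [show (2⁻¹ : K) * (1 + 1) = 1 by rw [one_add_one_eq_two]; exact inv_mul_cancel₀ h2, one_smul])

theorem B_one (x : Alb K) : B x one = tr x := by
  obtain ⟨a1, a2, a3, x1, x2, x3⟩ := x
  simp only [B_mk, one, tr, dt_zero]; ring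

/-- associativity of the trace form -/
theorem B_assoc [NeZero (2 : K)] (x y z : Alb K) : B (jm x y) z = B x (jm y z) := by
  have h2 : (2 : K) ≠ 0 := NeZero.ne 2
  obtain ⟨a1, a2, a3, x1, x2, x3⟩ := x
  obtain ⟨b1, b2, b3, y1, y2, y3⟩ := y
  obtain ⟨c1, c2, c3, z1, z2, z3⟩ := z
  simp only [B_mk, jm_mk, smul_dt, dt_smul, add_dt, dt_add]
  have c1 (x y z : Oct K) : dt x (cj (omul y z)) = dt (cj (omul x y)) z := by rw [dt_comm, tri x y z]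
  have c2 (x y z : Oct K) : dt x (cj (omul z y)) = dt (cj (omul y x)) z := by
    rw [dt_comm, tri y x z, tri x z y]
  rw [c1 x1 y2 z3, c2 x1 y3 z2, c1 x2 y3 z1, c2 x2 y1 z3, c1 x3 y1 z2, c2 x3 y2 z1]
  have e (u : K) : 2 * (2⁻¹ * u) = u := by rw [← mul_assoc, mul_inv_cancel₀ h2, one_mul]
  simp only [mul_add, e]
  ring

end

end Pool.Agent.R969.AL
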