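import Pool.Agent.R969.AL.Norm2
set_option autoImplicit false

/-! Continuity of the functional calculus in the Albert algebra. -/

namespace Pool.Agent.R969.AL

open Finset Filter Topology Polynomial

/-- the Jordan product as a continuous bilinear map -/
noncomputable def LmC (K : Type) [RCLike K] : Alb K →L[K] Alb K →L[K] Alb K :=
  (Lm : Alb K →ₗ[K] Alb K →ₗ[K] Alb K).toContinuousBilinearMap

theorem LmC_apply {K : Type} [RCLike K] (x y : Alb K) : LmC K x y = jm x y := rfl

theorem Continuous.jm' {K : Type} [RCLike K] {X : Type*} [TopologicalSpace X] {f g : X → Alb K}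
    (hf : Continuous f) (hg : Continuous g) : Continuous (fun x => jm (f x) (g x)) :=
  ((LmC K).continuous.comp hf).clm_apply hg

theorem norm_jm_le {K : Type} [RCLike K] (x y : Alb K) : ‖jm x y‖ ≤ ‖LmC K‖ * ‖x‖ * ‖y‖ := by
  rw [← LmC_apply]; exact ContinuousLinearMap.le_opNorm₂ _ _ _

theorem coord_le (x : Oct ℝ) (i : Fin 8) : x i ^ 2 ≤ dt x x := by
  simp only [dt]
  fin_cases i <;> simp only [Fin.reduceFinMk, Fin.zero_eta, Fin.mk_one] <;>
  nlinarith [mul_self_nonneg (x 0), mul_self_nonneg (x 1), mul_self_nonneg (x 2), mul_self_nonneg (x 3),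
    mul_self_nonneg (x 4), mul_self_nonneg (x 5), mul_self_nonneg (x 6), mul_self_nonneg (x 7)]

theorem norm_le_B {x : Alb ℝ} {r : ℝ} (hr : 0 ≤ r) (h : B x x ≤ r ^ 2) : ‖x‖ ≤ r := by
  obtain ⟨a1, a2, a3, x1, x2, x3⟩ := x
  rw [B_mk] at h
  have h1 := dt_self_nonneg x1
  have h2 := dt_self_nonneg x2
  have h3 := dt_self_nonneg x3
  have g1 := mul_self_nonneg a1
  have g2 := mul_self_nonneg a2
  have g3 := mul_self_nonneg a3
  have ka (a : ℝ) (ha : a ^ 2 ≤ r ^ 2) : ‖a‖ ≤ r := by
    rw [Real.norm_eq_abs]; exact abs_le_of_sq_le_sq ha hr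
  have ko (y : Oct ℝ) (hy : dt y y ≤ r ^ 2) : ‖y‖ ≤ r := by
    rw [pi_norm_le_iff_of_nonneg hr]
    intro i; exact ka _ ((coord_le y i).trans hy)
  simp only [Prod.norm_def]
  refine max_le (ka _ (by nlinarith)) (max_le (ka _ (by nlinarith)) (max_le (ka _ (by nlinarith))
    (max_le (ko _ (by nlinarith)) (max_le (ko _ (by nlinarith)) (ko _ (by nlinarith))))))

theorem eig_le {S : Alb ℝ} {ι : Type} [DecidableEq ι] {F : Finset ι} {l : ι → ℝ} {e : ι → Alb ℝ}
    (h : IsRes S F l e) {i : ι} (hi : i ∈ F) (h0 : e i ≠ 0) : |l i| ≤ ‖LmC ℝ‖ * ‖S‖ := by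
  have h1 := norm_jm_le S (e i)
  rw [h.jm_e hi, norm_smul, Real.norm_eq_abs] at h1
  exact le_of_mul_le_mul_right h1 (norm_pos_iff.mpr h0)

theorem continuous_pol (P : ℝ[X]) : Continuous (fun S : Alb ℝ => pol P S) := by
  have hp : ∀ n : ℕ, Continuous (fun S : Alb ℝ => ((Lm S) ^ n) one) := by
    intro n
    induction n with
    | zero =>
      have : (fun S : Alb ℝ => ((Lm S) ^ 0) one) = fun _ => one := by funext S; simp
      rw [this]; exact continuous_const
    | succ n ih =>
      have : (fun S : Alb ℝ => ((Lm S) ^ (n + 1)) one) = fun S => jm S (((Lm S) ^ n) one) := by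
        funext S; rw [pow_succ', Module.End.mul_apply, Lm_apply]
      rw [this]; exact Continuous.jm' continuous_id ih
  induction P using Polynomial.induction_on' with
  | add p q hp hq =>
    have : (fun S : Alb ℝ => pol (p + q) S) = fun S => pol p S + pol q S := by
      funext S; simp [pol]
    rw [this]; exact hp.add hq
  | monomial n r =>
    have : (fun S : Alb ℝ => pol (monomial n r) S) = fun S => r • ((Lm S) ^ n) one := by
      funext S
      simp [pol, aeval_monomial, Module.End.mul_apply, Module.algebraMap_end_apply]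
    rw [this]; exact (hp n).const_smul r

theorem continuous_fc {f : ℝ → ℝ} (hf : Continuous f) : Continuous (fc f) := by
  apply continuous_of_locally_uniform_approx_of_continuousAt
  intro S0 u hu
  obtain ⟨ε, hε, hεu⟩ := Metric.mem_uniformity_dist.mp hu
  set R := ‖LmC ℝ‖ * (‖S0‖ + 1) with hR
  obtain ⟨P, hP⟩ := exists_polynomial_near_of_continuousOn (-R) R f hf.continuousOn (ε / 3) (by positivity)
  refine ⟨Metric.ball S0 1, Metric.ball_mem_nhds _ one_pos, fun S => pol P S, (continuous_pol P).continuousAt, ?_⟩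
  intro S hS
  apply hεu
  obtain ⟨F, l, e, h, h0⟩ := exists_res' S
  have hSn : ‖S‖ ≤ ‖S0‖ + 1 := by
    have : ‖S - S0‖ < 1 := by rw [← dist_eq_norm]; exact hS
    calc ‖S‖ = ‖S0 + (S - S0)‖ := by congr 1; abel
      _ ≤ ‖S0‖ + ‖S - S0‖ := norm_add_le _ _
      _ ≤ _ := by linarith
  have hl (i : ℝ) (hi : i ∈ F) : l i ∈ Set.Icc (-R) R := by
    have h1 := eig_le h hi (h0 i hi)
    have h2 : ‖LmC ℝ‖ * ‖S‖ ≤ R := mul_le_mul_of_nonneg_left hSn (ContinuousLinearMap.opNorm_nonneg _)
    exact abs_le.mp (h1.trans h2)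
  have e1 : fc f S - pol P S = ∑ i ∈ F, (f (l i) - P.eval (l i)) • e i := by
    rw [fc_eq h, h.pol_eq, ← sum_sub_distrib]
    exact sum_congr rfl fun i _ => (sub_smul _ _ _).symm
  have hb : B (fc f S - pol P S) (fc f S - pol P S) ≤ (2 * (ε / 3)) ^ 2 := by
    rw [e1, B_fun_self h]
    calc ∑ i ∈ F, (f (l i) - P.eval (l i)) * (f (l i) - P.eval (l i)) * tr (e i)
        ≤ ∑ i ∈ F, (ε / 3) ^ 2 * tr (e i) := by
          refine sum_le_sum fun i hi => mul_le_mul_of_nonneg_right ?_ (h.tr_nonneg hi)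
          have h3 := hP (l i) (hl i hi)
          rw [abs_lt] at h3
          nlinarith [h3.1, h3.2]
      _ = (ε / 3) ^ 2 * 3 := by
          rw [← mul_sum, ← tr_one, ← h.sum_one]
          congr 1
          have := tr_fun (F := F) (e := e) (fun _ => (1:ℝ))
          simpa using this.symm
      _ ≤ _ := by nlinarith [sq_nonneg (ε / 3)]
  rw [dist_eq_norm]
  calc ‖fc f S - pol P S‖ ≤ 2 * (ε / 3) := norm_le_B (by positivity) hb
    _ < ε := by linarith

/-- square root of `c - k` when `c` dominates the spectrum of `k` -/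
theorem sqrt_sq (k : Alb ℝ) {c : ℝ} (hc : ‖LmC ℝ‖ * ‖k‖ ≤ c) :
    jm (fc Real.sqrt (c • one - k)) (fc Real.sqrt (c • one - k)) = c • one - k := by
  obtain ⟨F, l, e, h, h0⟩ := exists_res' k
  have hr : IsRes (c • one - k) F (fun i => c - l i) e := by
    refine ⟨h.orth, h.sum_one, ?_⟩
    simp only [sub_smul]
    rw [sum_sub_distrib, h.sum_eq, ← smul_sum, h.sum_one]
  rw [fc_eq hr, hr.jm_fun]
  conv_rhs => rw [← hr.sum_eq]
  refine sum_congr rfl fun i hi => ?_
  congr 1
  apply Real.mul_self_sqrt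
  have := eig_le h hi (h0 i hi)
  have := le_abs_self (l i)
  linarith

/-- `(a² + b²)^{p/2}` as a function of `(a, b)` -/
noncomputable def pw (s : ℝ) (x : Alb ℝ × Alb ℝ) : Alb ℝ := fc (fun t => t ^ s) (msq x.1 x.2)

theorem continuous_pw {s : ℝ} (hs : 0 < s) : Continuous (pw s) := by
  have h1 : Continuous (fun t : ℝ => t ^ s) := Real.continuous_rpow_const hs.le
  have h2 : Continuous (fun x : Alb ℝ × Alb ℝ => msq x.1 x.2) :=
    (Continuous.jm' continuous_fst continuous_fst).add (Continuous.jm' continuous_snd continuous_snd)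
  exact (continuous_fc h1).comp h2

end Pool.Agent.R969.AL
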