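import Pool.Agent.R969.AL.Pos
set_option autoImplicit false

/-! Joint convexity of `(a, w) ↦ ⟨a², w⁻¹⟩` on the Albert algebra. -/

namespace Pool.Agent.R969.AL

/-- the `𝕆`-valued pairing of `v = (r, a, b)` and `η = (x, y, s)` -/
def bil (r : ℝ) (a b x y : Oct ℝ) (s : ℝ) : Oct ℝ := r • x + omul (cj a) y + s • cj b

section
variable (a1 a2 a3 : ℝ) (x1 x2 x3 : Oct ℝ) (r s : ℝ) (a b x y : Oct ℝ)

theorem Q_eq : B (a1, a2, a3, x1, x2, x3) (sh (R1 s x y)) =
    a1 * dt x x + a2 * dt y y + a3 * s ^ 2 + 2 * (s * dt x1 y + s * dt x2 (cj x) + dt x3 (omul x (cj y))) := by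
  simp only [R1, sh_mk, B_mk, dt_smul]; ring

theorem I1 : a1 * (a1 * a2 - dt x3 x3) * B (a1, a2, a3, x1, x2, x3) (sh (R1 s x y)) =
    (a1 * a2 - dt x3 x3) * dt (a1 • x + omul x3 y + s • cj x2) (a1 • x + omul x3 y + s • cj x2) +
    dt ((a1 * a2 - dt x3 x3) • y - s • (cj (omul x2 x3) - a1 • x1))
      ((a1 * a2 - dt x3 x3) • y - s • (cj (omul x2 x3) - a1 • x1)) +
    a1 * det (a1, a2, a3, x1, x2, x3) * s ^ 2 := by
  have e1 : dt x (omul x3 y) = dt x3 (omul x (cj y)) := by rw [dt_comm x, dt_mul_left]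
  have e2 : dt (omul x3 y) (cj x2) = dt y (cj (omul x2 x3)) := by rw [dt_mul_right, cj_mul]
  have e3 : dt x2 (cj x) = dt x (cj x2) := by rw [← dt_cj, cj_cj, dt_comm]
  rw [Q_eq]
  simp only [det_mk, dt_add, add_dt, dt_sub, sub_dt, dt_smul, smul_dt, dt_mul_mul, dt_cj]
  rw [dt_comm (omul x3 y) x, dt_comm (cj x2) x, dt_comm (cj x2) (omul x3 y), e1, e2, e3,
    dt_comm (cj (omul x2 x3)) y, dt_comm (cj (omul x2 x3)) x1, dt_comm x1 y]
  ring

theorem I2 : (a1 * (a1 * a2 - dt x3 x3)) • bil r a b x y s =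
    ((a1 * a2 - dt x3 x3) * r) • (a1 • x + omul x3 y + s • cj x2) +
    omul (cj (a1 • a - r • cj x3)) ((a1 * a2 - dt x3 x3) • y - s • (cj (omul x2 x3) - a1 • x1)) +
    s • cj (omul (cj (cj (omul x2 x3) - a1 • x1)) (a1 • a - r • cj x3) +
      (a1 * a2 - dt x3 x3) • (a1 • b - r • x2)) := by
  simp only [bil, cj_add, cj_sub, cj_smul, cj_cj, cj_mul, omul_sub, sub_omul, omul_smul, smul_omul]
  funext i
  simp only [Pi.smul_apply, Pi.add_apply, Pi.sub_apply, smul_eq_mul]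
  ring

theorem I3 : a1 ^ 2 * (a1 * a2 - dt x3 x3) * B (R1 r a b) (sharp (a1, a2, a3, x1, x2, x3)) =
    det (a1, a2, a3, x1, x2, x3) * (a1 * (a1 * a2 - dt x3 x3) * r ^ 2 +
      a1 * dt (a1 • a - r • cj x3) (a1 • a - r • cj x3)) +
    dt (omul (cj (cj (omul x2 x3) - a1 • x1)) (a1 • a - r • cj x3) +
      (a1 * a2 - dt x3 x3) • (a1 • b - r • x2))
      (omul (cj (cj (omul x2 x3) - a1 • x1)) (a1 • a - r • cj x3) +
      (a1 * a2 - dt x3 x3) • (a1 • b - r • x2)) := by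
  set ν := cj (omul x2 x3) - a1 • x1 with hν
  have hνc : cj ν = omul x2 x3 - a1 • cj x1 := by rw [hν, cj_sub, cj_cj, cj_smul]
  have hνν : dt ν ν = dt x2 x2 * dt x3 x3 - 2 * a1 * dt (cj (omul x2 x3)) x1 + a1 ^ 2 * dt x1 x1 := by
    rw [hν]
    simp only [sub_dt, dt_sub, smul_dt, dt_smul]
    rw [dt_cj, dt_mul_mul, dt_comm x1 (cj _)]; ring
  have e0' (u v w : Oct ℝ) : dt (omul w u) (omul w v) = dt w w * dt u v := by
    rw [dt_mul_right, alt2, dt_smul]
  have t1 : dt (omul a (cj b)) ν = dt (omul (cj ν) a) b := by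
    rw [dt_mul_left, dt_mul_right, cj_cj, cj_cj]
  have t2 : dt (omul (cj ν) a) x2 = dt x2 x2 * dt x3 (cj a) - a1 * dt (omul (cj x1) a) x2 := by
    rw [hνc, sub_omul, smul_omul, sub_dt, smul_dt, dt_mul_left (omul x2 x3), e0']
  have t3 : dt (omul (cj ν) (cj x3)) b = dt x3 x3 * dt x2 b - a1 * dt (cj (omul x3 x1)) b := by
    rw [hνc, sub_omul, smul_omul, sub_dt, smul_dt, alt3, smul_dt, ← cj_mul]
  have t4 : dt (omul (cj ν) (cj x3)) x2 = dt x3 x3 * dt x2 x2 - a1 * dt (cj (omul x2 x3)) x1 := by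
    rw [hνc, sub_omul, smul_omul, sub_dt, smul_dt, alt3, smul_dt, ← cj_mul, tri x3 x1 x2, tri x1 x2 x3]
  have t5 : dt (cj a) (cj (omul x1 x2)) = dt (omul (cj x1) a) x2 := by
    rw [dt_cj, dt_comm a, dt_mul_right, dt_comm]
  have t6 : dt (cj a) x3 = dt x3 (cj a) := dt_comm _ _
  have t7 : dt a (cj x3) = dt x3 (cj a) := by rw [← dt_cj, cj_cj, dt_comm]
  have hL : B (R1 r a b) (sharp (a1, a2, a3, x1, x2, x3)) =
      r ^ 2 * (a2 * a3 - dt x1 x1) + dt a a * (a3 * a1 - dt x2 x2) + dt b b * (a1 * a2 - dt x3 x3) +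
      2 * (dt (omul (cj ν) a) b + r * (dt (cj (omul x3 x1)) b - a2 * dt x2 b) +
        r * (dt (omul (cj x1) a) x2 - a3 * dt x3 (cj a))) := by
    simp only [R1, sharp_mk, B_mk, ← hν, t1, smul_dt, dt_sub, dt_smul, t5, t6]
    rw [dt_comm b (cj _), dt_comm b x2]; ring
  have hA : dt (a1 • a - r • cj x3) (a1 • a - r • cj x3) =
      a1 ^ 2 * dt a a - 2 * a1 * r * dt x3 (cj a) + r ^ 2 * dt x3 x3 := by
    simp only [sub_dt, dt_sub, smul_dt, dt_smul, dt_comm (cj x3) a, t7, dt_cj]; ring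
  have hB : dt (a1 • b - r • x2) (a1 • b - r • x2) =
      a1 ^ 2 * dt b b - 2 * a1 * r * dt x2 b + r ^ 2 * dt x2 x2 := by
    simp only [sub_dt, dt_sub, smul_dt, dt_smul, dt_comm b x2]; ring
  have hAB : dt (omul (cj ν) (a1 • a - r • cj x3)) (a1 • b - r • x2) =
      a1 ^ 2 * dt (omul (cj ν) a) b - a1 * r * (dt x2 x2 * dt x3 (cj a) - a1 * dt (omul (cj x1) a) x2) -
      a1 * r * (dt x3 x3 * dt x2 b - a1 * dt (cj (omul x3 x1)) b) +
      r ^ 2 * (dt x3 x3 * dt x2 x2 - a1 * dt (cj (omul x2 x3)) x1) := by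
    simp only [omul_sub, omul_smul, sub_dt, dt_sub, smul_dt, dt_smul, t2, t3, t4]; ring
  set C1 := a1 • a - r • cj x3 with hC1
  set C2 := a1 • b - r • x2 with hC2
  have hC : dt (omul (cj ν) C1 + (a1 * a2 - dt x3 x3) • C2) (omul (cj ν) C1 + (a1 * a2 - dt x3 x3) • C2) =
      dt ν ν * dt C1 C1 + 2 * (a1 * a2 - dt x3 x3) * dt (omul (cj ν) C1) C2 +
      (a1 * a2 - dt x3 x3) ^ 2 * dt C2 C2 := by
    simp only [add_dt, dt_add, smul_dt, dt_smul]
    rw [dt_mul_mul, dt_cj, dt_comm C2 (omul (cj ν) C1)]; ring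
  rw [hL, hC, hA, hB, hAB, hνν, det_mk]
  ring

end

theorem cs3 {u1 u2 u3 : Oct ℝ} {p1 p2 p3 q1 q2 q3 : ℝ} (hp1 : 0 ≤ p1) (hp2 : 0 ≤ p2) (hp3 : 0 ≤ p3)
    (hq1 : 0 ≤ q1) (hq2 : 0 ≤ q2) (hq3 : 0 ≤ q3) (h1 : dt u1 u1 = p1 * q1) (h2 : dt u2 u2 = p2 * q2)
    (h3 : dt u3 u3 = p3 * q3) :
    dt (u1 + u2 + u3) (u1 + u2 + u3) ≤ (p1 + p2 + p3) * (q1 + q2 + q3) := by
  have key : ∀ (u v : Oct ℝ) (p q p' q' : ℝ), 0 ≤ p → 0 ≤ q → 0 ≤ p' → 0 ≤ q' → dt u u = p * q →
      dt v v = p' * q' → 2 * dt u v ≤ p * q' + p' * q := by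
    intro u v p q p' q' hp hq hp' hq' hu hv
    have h := cs_dt u v
    rw [hu, hv] at h
    have h4 : (2 * dt u v) ^ 2 ≤ (p * q' + p' * q) ^ 2 := by nlinarith [sq_nonneg (p * q' - p' * q)]
    exact (abs_le.mp (abs_le_of_sq_le_sq' h4 (by positivity) |> fun h => abs_le.mpr h)).2
  have k12 := key u1 u2 p1 q1 p2 q2 hp1 hq1 hp2 hq2 h1 h2
  have k13 := key u1 u3 p1 q1 p3 q3 hp1 hq1 hp3 hq3 h1 h3
  have k23 := key u2 u3 p2 q2 p3 q3 hp2 hq2 hp3 hq3 h2 h3
  have : dt (u1 + u2 + u3) (u1 + u2 + u3) = dt u1 u1 + dt u2 u2 + dt u3 u3 +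
      (2 * dt u1 u2 + 2 * dt u1 u3 + 2 * dt u2 u3) := by
    simp only [add_dt, dt_add]
    rw [dt_comm u2 u1, dt_comm u3 u1, dt_comm u3 u2]; ring
  rw [this, h1, h2, h3]
  nlinarith [k12, k13, k23]

/-- the minors that matter -/
structure Minors (w : Alb ℝ) : Prop where
  m1 : 0 < w.1
  m2 : 0 < w.1 * w.2.1 - dt w.2.2.2.2.2 w.2.2.2.2.2
  m3 : 0 < det w

theorem cs_upper (w : Alb ℝ) (hw : Minors w) (r s : ℝ) (a b x y : Oct ℝ) :
    dt (bil r a b x y s) (bil r a b x y s) * det w ≤ B (R1 r a b) (sharp w) * B w (sh (R1 s x y)) := by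
  obtain ⟨a1, a2, a3, x1, x2, x3⟩ := w
  obtain ⟨h1, h2, h3⟩ := hw
  dsimp only at h1 h2
  have i1 := I1 a1 a2 a3 x1 x2 x3 s x y
  have i2 := I2 a1 a2 x1 x2 x3 r s a b x y
  have i3 := I3 a1 a2 a3 x1 x2 x3 r a b
  set n := a1 * a2 - dt x3 x3 with hn
  set d := det (a1, a2, a3, x1, x2, x3) with hd
  set X := a1 • x + omul x3 y + s • cj x2 with hX
  set Y := n • y - s • (cj (omul x2 x3) - a1 • x1) with hY
  set A := a1 • a - r • cj x3 with hA
  set C := omul (cj (cj (omul x2 x3) - a1 • x1)) A + n • (a1 • b - r • x2) with hC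
  set q := B (a1, a2, a3, x1, x2, x3) (sh (R1 s x y)) with hq
  set g := B (R1 r a b) (sharp (a1, a2, a3, x1, x2, x3)) with hg
  have had : 0 < a1 * d := mul_pos h1 h3
  have hb : dt ((a1 * n) • bil r a b x y s) ((a1 * n) • bil r a b x y s) ≤
      (n * r ^ 2 + dt A A + dt C C / (a1 * d)) * (n * dt X X + dt Y Y + a1 * d * s ^ 2) := by
    rw [i2]
    apply cs3
    · positivity
    · exact dt_self_nonneg _
    · exact div_nonneg (dt_self_nonneg _) had.le
    · exact mul_nonneg h2.le (dt_self_nonneg _)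
    · exact dt_self_nonneg _
    · positivity
    · rw [dt_smul, smul_dt]; ring
    · rw [dt_mul_mul, dt_cj]
    · rw [dt_smul, smul_dt, dt_cj]; field_simp
  rw [← i1, dt_smul, smul_dt] at hb
  have e1 : n * r ^ 2 + dt A A + dt C C / (a1 * d) = a1 * n * g / d := by
    field_simp
    linear_combination -i3
  rw [e1] at hb
  have hpos : 0 < a1 * n := mul_pos h1 h2
  have hb2 : (a1 * n) ^ 2 * (dt (bil r a b x y s) (bil r a b x y s) * d) ≤ (a1 * n) ^ 2 * (g * q) := by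
    have : a1 * n * g / d * (a1 * n * q) = (a1 * n) ^ 2 * (g * q) / d := by ring
    rw [this, le_div_iff₀ h3] at hb
    nlinarith [hb]
  exact le_of_mul_le_mul_left hb2 (by positivity)

/-- the supremum is attained -/
theorem cs_attained (w : Alb ℝ) (hw : Minors w) (r : ℝ) (a b : Oct ℝ) (hne : B (R1 r a b) (sharp w) ≠ 0) :
    ∃ (x y : Oct ℝ) (s : ℝ), 0 < B w (sh (R1 s x y)) ∧
      dt (bil r a b x y s) (bil r a b x y s) * det w = B (R1 r a b) (sharp w) * B w (sh (R1 s x y)) := by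
  obtain ⟨a1, a2, a3, x1, x2, x3⟩ := w
  obtain ⟨h1, h2, h3⟩ := hw
  dsimp only at h1 h2
  have i3 := I3 a1 a2 a3 x1 x2 x3 r a b
  set n := a1 * a2 - dt x3 x3 with hn
  set d := det (a1, a2, a3, x1, x2, x3) with hd
  set A := a1 • a - r • cj x3 with hA
  set ν := cj (omul x2 x3) - a1 • x1 with hν
  set C := omul (cj ν) A + n • (a1 • b - r • x2) with hC
  set g := B (R1 r a b) (sharp (a1, a2, a3, x1, x2, x3)) with hg
  have had : 0 < a1 * d := mul_pos h1 h3
  set G := n * r ^ 2 + dt A A + dt C C / (a1 * d) with hG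
  have e1 : G = a1 * n * g / d := by
    rw [hG]; field_simp; linear_combination -i3
  have hG0 : 0 ≤ G := by
    rw [hG]
    have := dt_self_nonneg A
    have := div_nonneg (dt_self_nonneg C) had.le
    positivity
  have hGne : G ≠ 0 := by
    rw [e1]; exact div_ne_zero (mul_ne_zero (mul_pos h1 h2).ne' hne) h3.ne'
  have hGp : 0 < G := lt_of_le_of_ne hG0 (Ne.symm hGne)
  -- choose θ, s
  obtain ⟨θ, s, hθ, hs1, hs2⟩ : ∃ (θ : Oct ℝ) (s : ℝ), 0 < dt θ θ ∧ s • cj C = (dt C C / (a1 * d)) • θ ∧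
      a1 * d * s ^ 2 = dt C C / (a1 * d) * dt θ θ := by
    by_cases hc : dt C C = 0
    · refine ⟨o1, 0, by simp [dt, o1], ?_, ?_⟩
      · rw [hc]; simp
      · rw [hc]; simp
    · have hcp : 0 < dt C C := lt_of_le_of_ne (dt_self_nonneg C) (Ne.symm hc)
      refine ⟨(a1 * d) • cj C, dt C C, ?_, ?_, ?_⟩
      · rw [dt_smul, smul_dt, dt_cj]; positivity
      · rw [smul_smul]; congr 1; field_simp
      · rw [dt_smul, smul_dt, dt_cj]; field_simp
  set Y := omul A θ with hY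
  set y : Oct ℝ := n⁻¹ • (Y + s • ν) with hy
  set X := r • θ with hX
  set x : Oct ℝ := a1⁻¹ • (X - omul x3 y - s • cj x2) with hx
  have hX' : a1 • x + omul x3 y + s • cj x2 = X := by
    rw [hx, smul_smul, mul_inv_cancel₀ h1.ne', one_smul]; abel
  have hY' : n • y - s • ν = Y := by
    rw [hy, smul_smul, mul_inv_cancel₀ h2.ne', one_smul]; abel
  have i1 := I1 a1 a2 a3 x1 x2 x3 s x y
  have i2 := I2 a1 a2 x1 x2 x3 r s a b x y
  rw [← hν, ← hn, hX', hY'] at i1 i2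
  rw [← hA, ← hC, hs1] at i2
  have hq : a1 * n * B (a1, a2, a3, x1, x2, x3) (sh (R1 s x y)) = G * dt θ θ := by
    rw [i1, hX, hY, dt_smul, smul_dt, dt_mul_mul, ← hd, hs2, hG]; ring
  have hb : (a1 * n) • bil r a b x y s = G • θ := by
    rw [i2, hX, hY, alt2, hG]
    module
  have hb2 : (a1 * n) ^ 2 * dt (bil r a b x y s) (bil r a b x y s) = G ^ 2 * dt θ θ := by
    have : dt ((a1 * n) • bil r a b x y s) ((a1 * n) • bil r a b x y s) = dt (G • θ) (G • θ) := by rw [hb]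
    rw [dt_smul, smul_dt, dt_smul, smul_dt] at this
    linear_combination this
  have hpos : 0 < a1 * n := mul_pos h1 h2
  refine ⟨x, y, s, ?_, ?_⟩
  · have : 0 < a1 * n * B (a1, a2, a3, x1, x2, x3) (sh (R1 s x y)) := by rw [hq]; positivity
    exact (mul_pos_iff_of_pos_left hpos).mp this
  · have hGd : G * d = a1 * n * g := by rw [e1]; field_simp
    apply mul_left_cancel₀ (pow_ne_zero 2 hpos.ne')
    calc (a1 * n) ^ 2 * (dt (bil r a b x y s) (bil r a b x y s) * d)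
        = (G * d) * (G * dt θ θ) := by rw [← mul_assoc, hb2]; ring
      _ = _ := by rw [hGd, ← hq]; ring

theorem bil_add (r r' : ℝ) (a b a' b' x y : Oct ℝ) (s : ℝ) :
    bil (r + r') (a + a') (b + b') x y s = bil r a b x y s + bil r' a' b' x y s := by
  simp only [bil, cj_add, add_omul]; module

theorem nn_g (v : Alb ℝ) (hv : Minors v) (r : ℝ) (a b : Oct ℝ) : 0 ≤ B (R1 r a b) (sharp v) := by
  obtain ⟨a1, a2, a3, x1, x2, x3⟩ := v
  obtain ⟨h1, h2, h3⟩ := hv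
  dsimp only at h1 h2
  have i3 := I3 a1 a2 a3 x1 x2 x3 r a b
  have hpos : 0 < a1 ^ 2 * (a1 * a2 - dt x3 x3) := by positivity
  refine (mul_nonneg_iff_of_pos_left hpos).mp ?_
  rw [i3]
  have q1 := dt_self_nonneg (a1 • a - r • cj x3)
  have q2 := dt_self_nonneg (omul (cj (cj (omul x2 x3) - a1 • x1)) (a1 • a - r • cj x3) +
    (a1 * a2 - dt x3 x3) • (a1 • b - r • x2))
  positivity

theorem nn_q (v : Alb ℝ) (hv : Minors v) (s : ℝ) (x y : Oct ℝ) : 0 ≤ B v (sh (R1 s x y)) := by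
  obtain ⟨a1, a2, a3, x1, x2, x3⟩ := v
  obtain ⟨h1, h2, h3⟩ := hv
  dsimp only at h1 h2
  have i1 := I1 a1 a2 a3 x1 x2 x3 s x y
  have hpos : 0 < a1 * (a1 * a2 - dt x3 x3) := by positivity
  refine (mul_nonneg_iff_of_pos_left hpos).mp ?_
  rw [i1]
  have q1 := dt_self_nonneg (a1 • x + omul x3 y + s • cj x2)
  have q2 := dt_self_nonneg ((a1 * a2 - dt x3 x3) • y - s • (cj (omul x2 x3) - a1 • x1))
  positivity

/-- joint convexity for rank one elements -/
theorem conv1 (w w' : Alb ℝ) (hw : Minors w) (hw' : Minors w') (hs : Minors (w + w')) (r r' : ℝ)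
    (a b a' b' : Oct ℝ) :
    B (R1 (r + r') (a + a') (b + b')) (sharp (w + w')) / det (w + w') ≤
    B (R1 r a b) (sharp w) / det w + B (R1 r' a' b') (sharp w') / det w' := by
  have hd := hw.m3
  have hd' := hw'.m3
  have hds := hs.m3
  have ng := nn_g w hw r a b
  have ng' := nn_g w' hw' r' a' b'
  by_cases h0 : B (R1 (r + r') (a + a') (b + b')) (sharp (w + w')) = 0
  · rw [h0, zero_div]
    exact add_nonneg (div_nonneg ng hd.le) (div_nonneg ng' hd'.le)
  obtain ⟨x, y, s, hq, he⟩ := cs_attained (w + w') hs (r + r') (a + a') (b + b') h0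
  have u1 := cs_upper w hw r s a b x y
  have u2 := cs_upper w' hw' r' s a' b' x y
  have nq := nn_q w hw s x y
  have nq' := nn_q w' hw' s x y
  rw [bil_add] at he
  have hQ : B (w + w') (sh (R1 s x y)) = B w (sh (R1 s x y)) + B w' (sh (R1 s x y)) := add_B _ _ _
  rw [hQ] at he hq
  set g := B (R1 r a b) (sharp w) with hg
  set g' := B (R1 r' a' b') (sharp w') with hg'
  set q := B w (sh (R1 s x y)) with hqd
  set q' := B w' (sh (R1 s x y)) with hqd'
  set u := bil r a b x y s with hu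
  set v := bil r' a' b' x y s with hv
  set G := B (R1 (r + r') (a + a') (b + b')) (sharp (w + w')) with hG
  have hu0 := dt_self_nonneg u
  have hv0 := dt_self_nonneg v
  set α := g / det w with hα
  set β := g' / det w' with hβ
  have hα0 : 0 ≤ α := div_nonneg ng hd.le
  have hβ0 : 0 ≤ β := div_nonneg ng' hd'.le
  have k1 : dt u u ≤ α * q := by
    rw [hα, div_mul_eq_mul_div, le_div_iff₀ hd]; exact u1
  have k2 : dt v v ≤ β * q' := by
    rw [hβ, div_mul_eq_mul_div, le_div_iff₀ hd']; exact u2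
  have k3 : 2 * dt u v ≤ α * q' + β * q := by
    have h := cs_dt u v
    have h5 : dt u u * dt v v ≤ (α * q) * (β * q') := mul_le_mul k1 k2 hv0 (by positivity)
    have h4 : (2 * dt u v) ^ 2 ≤ (α * q' + β * q) ^ 2 := by nlinarith [sq_nonneg (α * q' - β * q)]
    exact (abs_le.mp (abs_le_of_sq_le_sq' h4 (by positivity) |> fun h => abs_le.mpr h)).2
  have k4 : dt (u + v) (u + v) = dt u u + dt v v + 2 * dt u v := by
    simp only [add_dt, dt_add]
    rw [dt_comm v u]; ring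
  have k5 : dt (u + v) (u + v) ≤ (α + β) * (q + q') := by rw [k4]; nlinarith [k1, k2, k3]
  rw [div_le_iff₀ hds]
  have k6 : G * (q + q') ≤ (α + β) * det (w + w') * (q + q') := by
    rw [← he]
    calc dt (u + v) (u + v) * det (w + w') ≤ ((α + β) * (q + q')) * det (w + w') :=
          mul_le_mul_of_nonneg_right k5 hds.le
      _ = _ := by ring
  exact le_of_mul_le_mul_right k6 hq

theorem omul_o1 (x : Oct ℝ) : omul x (cj o1) = x := by
  apply oext <;> simp only [omul_0, omul_1, omul_2, omul_3, omul_4, omul_5, omul_6, omul_7, cj_0, cj_1, cj_2, cj_3,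
    cj_4, cj_5, cj_6, cj_7] <;> simp [o1]

theorem minors_of_pd (w : Alb ℝ) (h : ∀ (x y : Oct ℝ) (s : ℝ), (0 < dt x x + dt y y + s ^ 2) →
    0 < B w (sh (R1 s x y))) : Minors w := by
  obtain ⟨a1, a2, a3, x1, x2, x3⟩ := w
  have ho : dt (o1 : Oct ℝ) o1 = 1 := by simp [dt, o1]
  have h1 : 0 < a1 := by
    have := h o1 0 0 (by rw [ho, dt_zero]; norm_num)
    rw [Q_eq, ho] at this
    simpa [dt_zero, cj_zero, omul_zero] using this
  have h2 : 0 < a1 * a2 - dt x3 x3 := by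
    have := h (-(a1⁻¹ • x3)) o1 0 (by
      rw [ho]; have := dt_self_nonneg (-(a1⁻¹ • x3)); linarith [sq_nonneg (0:ℝ)])
    rw [Q_eq, ho, omul_o1] at this
    simp only [dt_neg, neg_dt, dt_smul, smul_dt] at this
    have e : a1 * -(a1⁻¹ * -(a1⁻¹ * dt x3 x3)) + a2 * 1 + a3 * 0 ^ 2 +
        2 * (0 * dt x1 o1 + 0 * dt x2 (cj (-(a1⁻¹ • x3))) + -(a1⁻¹ * dt x3 x3)) = (a1 * a2 - dt x3 x3) / a1 := by
      field_simp; ring
    rw [e] at this
    exact (div_pos_iff_of_pos_right h1).mp this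
  refine ⟨h1, h2, ?_⟩
  set n := a1 * a2 - dt x3 x3 with hn
  set ν := cj (omul x2 x3) - a1 • x1 with hν
  set y : Oct ℝ := n⁻¹ • ν with hy
  set x : Oct ℝ := a1⁻¹ • (-(omul x3 y) - cj x2) with hx
  have h3 := h x y 1 (by have := dt_self_nonneg x; have := dt_self_nonneg y; linarith)
  have i1 := I1 a1 a2 a3 x1 x2 x3 1 x y
  rw [← hν, ← hn] at i1
  have e1 : a1 • x + omul x3 y + (1 : ℝ) • cj x2 = 0 := by
    rw [hx, smul_smul, mul_inv_cancel₀ h1.ne']; module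
  have e2 : n • y - (1 : ℝ) • ν = 0 := by
    rw [hy, smul_smul, mul_inv_cancel₀ h2.ne']; module
  rw [e1, e2, dt_zero] at i1
  have : 0 < a1 * n * B (a1, a2, a3, x1, x2, x3) (sh (R1 1 x y)) := by positivity
  rw [i1] at this
  have h5 : 0 < a1 * det (a1, a2, a3, x1, x2, x3) := by linarith
  exact (mul_pos_iff_of_pos_left h1).mp h5

/-- `sh` as a linear map -/
def shL : Alb ℝ →ₗ[ℝ] Alb ℝ where
  toFun := sh
  map_add' _ _ := rfl
  map_smul' _ _ := rfl

section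
variable {ι : Type} [DecidableEq ι] {w : Alb ℝ} {F : Finset ι} {l : ι → ℝ} {e : ι → Alb ℝ}

theorem IsRes.idem (h : IsRes w F l e) {i : ι} (hi : i ∈ F) : jm (e i) (e i) = e i := by
  rw [h.orth i hi i hi, if_pos rfl]

theorem IsRes.shift (h : IsRes w F l e) : IsRes (sh w) F l (fun i => sh (e i)) := by
  refine ⟨fun i hi j hj => ?_, ?_, ?_⟩
  · rw [← sh_jm, h.orth i hi j hj]; split_ifs <;> rfl
  · have := congrArg shL h.sum_one
    rw [map_sum] at this; exact this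
  · have := congrArg shL h.sum_eq
    rw [map_sum] at this
    simp only [map_smul] at this; exact this

theorem IsRes.minors (h : IsRes w F l e) (hl : ∀ i ∈ F, 0 < l i) : Minors w := by
  apply minors_of_pd
  intro x y s hxy
  have hnn (i : ι) (hi : i ∈ F) : 0 ≤ B (e i) (sh (R1 s x y)) := by
    have hid := h.idem hi
    rw [B_comm, ← B_sh, ← B_sh, sh_sh_sh]
    apply B_R1_idem
    rw [← sh_jm, ← sh_jm, hid]
  rw [← h.sum_eq, sum_B]
  have hsum : 0 < ∑ i ∈ F, B (e i) (sh (R1 s x y)) := by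
    rw [← sum_B, h.sum_one, B_comm, B_one]
    simp only [R1, sh_mk, tr]
    linarith
  obtain ⟨i, hi, hpos⟩ : ∃ i ∈ F, 0 < B (e i) (sh (R1 s x y)) := by
    by_contra hcon
    push Not at hcon
    exact absurd hsum (not_lt.mpr (Finset.sum_nonpos hcon))
  refine Finset.sum_pos' (fun i hi => ?_) ⟨i, hi, ?_⟩
  · rw [smul_B]; exact mul_nonneg (hl i hi).le (hnn i hi)
  · rw [smul_B]; exact mul_pos (hl i hi) hpos

theorem IsRes.inv_eq (h : IsRes w F l e) (hl : ∀ i ∈ F, l i ≠ 0) :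
    det w • ∑ i ∈ F, (l i)⁻¹ • e i = sharp w := by
  have h1 : sharp w = ∑ i ∈ F, (l i * l i - tr w * l i + tr (sharp w)) • e i := by
    have := sharp_eq w
    have e0 : sharp w = jm w w - tr w • w + tr (sharp w) • one := by rw [this]; abel
    conv_lhs => rw [e0]
    have hww : jm w w = ∑ i ∈ F, (l i * l i) • e i := by
      conv_lhs => rw [← h.sum_eq]
      exact h.jm_fun l l
    rw [hww]
    conv_lhs => rw [← h.sum_one]
    conv_lhs => enter [1, 2, 2]; rw [← h.sum_eq]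
    rw [Finset.smul_sum, Finset.smul_sum, ← Finset.sum_sub_distrib, ← Finset.sum_add_distrib]
    refine Finset.sum_congr rfl fun i _ => ?_
    module
  have h2 := jm_sharp w
  have h3 (j : ι) (hj : j ∈ F) : (l j * (l j * l j - tr w * l j + tr (sharp w))) • e j = det w • e j := by
    have e1 : jm (jm w (sharp w)) (e j) = (l j * (l j * l j - tr w * l j + tr (sharp w))) • e j := by
      conv_lhs => rw [h1]
      conv_lhs => enter [1, 1]; rw [← h.sum_eq]
      rw [h.jm_fun l, sum_jm, Finset.sum_eq_single j]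
      · rw [smul_jm, h.idem hj]
      · intro i hi hij
        rw [smul_jm, h.orth i hi j hj, if_neg hij, smul_zero]
      · intro hn; exact absurd hj hn
    rw [← e1, h2, smul_jm, jm_comm, jm_one]
  rw [h1, Finset.smul_sum]
  refine Finset.sum_congr rfl fun j hj => ?_
  have h4 := congrArg (fun v => (l j)⁻¹ • v) (h3 j hj)
  simp only [smul_smul] at h4
  rw [smul_smul, mul_comm (det w), ← h4]
  congr 1
  field_simp [hl j hj]

end

theorem conv (w w' a a' : Alb ℝ) (h1 : Minors w) (h2 : Minors (sh w)) (h3 : Minors (sh (sh w)))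
    (h1' : Minors w') (h2' : Minors (sh w')) (h3' : Minors (sh (sh w')))
    (k1 : Minors (w + w')) (k2 : Minors (sh (w + w'))) (k3 : Minors (sh (sh (w + w')))) :
    B (jm (a + a') (a + a')) (sharp (w + w')) / det (w + w') ≤
    B (jm a a) (sharp w) / det w + B (jm a' a') (sharp w') / det w' := by
  obtain ⟨a1, a2, a3, x1, x2, x3⟩ := a
  obtain ⟨b1, b2, b3, y1, y2, y3⟩ := a'
  have g2 (R W : Alb ℝ) : B (sh (sh R)) (sharp W) = B R (sharp (sh W)) := by
    rw [← B_sh R, ← B_sh (sh R), ← sh_sharp, sh_sh_sh]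
  have g3 (R W : Alb ℝ) : B (sh R) (sharp W) = B R (sharp (sh (sh W))) := by
    rw [← B_sh R, ← sh_sharp, ← sh_sharp, sh_sh_sh]
  simp only [Prod.mk_add_mk]
  rw [sq_decomp, sq_decomp, sq_decomp]
  simp only [add_B, g2, g3, cj_add, add_div]
  have c1 := conv1 w w' h1 h1' k1 a1 b1 (cj x3) x2 (cj y3) y2
  have c2 := conv1 (sh w) (sh w') h2 h2' k2 a2 b2 (cj x1) x3 (cj y1) y3
  have c3 := conv1 (sh (sh w)) (sh (sh w')) h3 h3' k3 a3 b3 (cj x2) x1 (cj y2) y1
  rw [← sh_add, det_sh, det_sh, det_sh] at c2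
  rw [← sh_add, ← sh_add, det_sh, det_sh, det_sh, det_sh, det_sh, det_sh] at c3
  linarith

/-- joint convexity of `(a, w) ↦ ⟨a², w⁻¹⟩`, in terms of resolutions -/
theorem conv_inv {ι κ τ : Type} [DecidableEq ι] [DecidableEq κ] [DecidableEq τ] {w w' : Alb ℝ}
    {F : Finset ι} {l : ι → ℝ} {e : ι → Alb ℝ} {F' : Finset κ} {l' : κ → ℝ} {e' : κ → Alb ℝ}
    {G : Finset τ} {m : τ → ℝ} {c : τ → Alb ℝ} (h : IsRes w F l e) (h' : IsRes w' F' l' e')
    (hs : IsRes (w + w') G m c) (hl : ∀ i ∈ F, 0 < l i) (hl' : ∀ i ∈ F', 0 < l' i) (hm : ∀ i ∈ G, 0 < m i)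
    (a a' : Alb ℝ) :
    B (jm (a + a') (a + a')) (∑ i ∈ G, (m i)⁻¹ • c i) ≤
    B (jm a a) (∑ i ∈ F, (l i)⁻¹ • e i) + B (jm a' a') (∑ i ∈ F', (l' i)⁻¹ • e' i) := by
  have q1 := h.inv_eq (fun i hi => (hl i hi).ne')
  have q2 := h'.inv_eq (fun i hi => (hl' i hi).ne')
  have q3 := hs.inv_eq (fun i hi => (hm i hi).ne')
  have p1 := h.minors hl
  have p2 := h'.minors hl'
  have p3 := hs.minors hm
  have hc := conv w w' a a' p1 (h.shift.minors hl) (h.shift.shift.minors hl) p2 (h'.shift.minors hl')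
    (h'.shift.shift.minors hl') p3 (hs.shift.minors hm) (hs.shift.shift.minors hm)
  rw [← q1, ← q2, ← q3, B_smul, B_smul, B_smul, mul_div_cancel_left₀ _ p1.m3.ne',
    mul_div_cancel_left₀ _ p2.m3.ne', mul_div_cancel_left₀ _ p3.m3.ne'] at hc
  exact hc

end Pool.Agent.R969.AL
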