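import Pool.Agent.R969.AL.Cont
set_option autoImplicit false

/-! The complex Albert algebra `H₃(𝕆_ℂ) = H₃(𝕆) + i H₃(𝕆)`. -/

namespace Pool.Agent.R969.AL

open Finset

/-- embedding `H₃(𝕆) → H₃(𝕆_ℂ)` -/
def ofR (x : Alb ℝ) : Alb ℂ :=
  ((x.1 : ℂ), (x.2.1 : ℂ), (x.2.2.1 : ℂ), fun i => ((x.2.2.2.1 i : ℝ) : ℂ), fun i => ((x.2.2.2.2.1 i : ℝ) : ℂ),
    fun i => ((x.2.2.2.2.2 i : ℝ) : ℂ))

/-- real part -/
def reA (x : Alb ℂ) : Alb ℝ :=
  (x.1.re, x.2.1.re, x.2.2.1.re, fun i => (x.2.2.2.1 i).re, fun i => (x.2.2.2.2.1 i).re,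
    fun i => (x.2.2.2.2.2 i).re)

/-- imaginary part -/
def imA (x : Alb ℂ) : Alb ℝ :=
  (x.1.im, x.2.1.im, x.2.2.1.im, fun i => (x.2.2.2.1 i).im, fun i => (x.2.2.2.2.1 i).im,
    fun i => (x.2.2.2.2.2 i).im)

theorem cast_omul (x y : Oct ℝ) : omul (fun i => ((x i : ℝ) : ℂ)) (fun i => ((y i : ℝ) : ℂ)) =
    fun i => ((omul x y i : ℝ) : ℂ) := by
  apply oext <;>
  simp only [omul_0, omul_1, omul_2, omul_3, omul_4, omul_5, omul_6, omul_7] <;> push_cast <;> ring

theorem cast_cj (x : Oct ℝ) : cj (fun i => ((x i : ℝ) : ℂ)) = fun i => ((cj x i : ℝ) : ℂ) := by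
  apply oext <;> simp only [cj_0, cj_1, cj_2, cj_3, cj_4, cj_5, cj_6, cj_7] <;> push_cast <;> rfl

theorem cast_dt (x y : Oct ℝ) : dt (fun i => ((x i : ℝ) : ℂ)) (fun i => ((y i : ℝ) : ℂ)) = ((dt x y : ℝ) : ℂ) := by
  simp only [dt]; push_cast; ring

theorem jm_ofR (x y : Alb ℝ) : jm (ofR x) (ofR y) = ofR (jm x y) := by
  obtain ⟨a1, a2, a3, x1, x2, x3⟩ := x
  obtain ⟨b1, b2, b3, y1, y2, y3⟩ := y
  simp only [ofR, jm_mk, cast_dt, cast_omul, cast_cj]
  refine aext ?_ ?_ ?_ ?_ ?_ ?_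
  · push_cast; ring
  · push_cast; ring
  · push_cast; ring
  all_goals (
    funext i
    simp only [Pi.smul_apply, Pi.add_apply, smul_eq_mul]
    push_cast; ring)

theorem ofR_add (x y : Alb ℝ) : ofR (x + y) = ofR x + ofR y := by
  obtain ⟨a1, a2, a3, x1, x2, x3⟩ := x
  obtain ⟨b1, b2, b3, y1, y2, y3⟩ := y
  simp only [ofR, Prod.mk_add_mk, Pi.add_apply]
  refine aext ?_ ?_ ?_ ?_ ?_ ?_
  · push_cast; ring
  · push_cast; ring
  · push_cast; ring
  all_goals (funext i; simp only [Pi.add_apply]; push_cast; ring)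

theorem ofR_smul (c : ℝ) (x : Alb ℝ) : ofR (c • x) = (c : ℂ) • ofR x := by
  obtain ⟨a1, a2, a3, x1, x2, x3⟩ := x
  simp only [ofR, Prod.smul_mk, Pi.smul_apply, smul_eq_mul]
  refine aext ?_ ?_ ?_ ?_ ?_ ?_
  · push_cast; ring
  · push_cast; ring
  · push_cast; ring
  all_goals (funext i; simp only [Pi.smul_apply, smul_eq_mul]; push_cast; ring)

theorem ofR_one : ofR one = one := by
  simp only [ofR, one, Pi.zero_apply, Complex.ofReal_one, Complex.ofReal_zero]; rfl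

theorem reA_ofR (x : Alb ℝ) : reA (ofR x) = x := rfl
theorem imA_ofR (x : Alb ℝ) : imA (ofR x) = 0 := rfl
theorem reA_add (x y : Alb ℂ) : reA (x + y) = reA x + reA y := rfl
theorem imA_add (x y : Alb ℂ) : imA (x + y) = imA x + imA y := rfl

theorem eq_re_im (x : Alb ℂ) : x = ofR (reA x) + Complex.I • ofR (imA x) := by
  obtain ⟨a1, a2, a3, x1, x2, x3⟩ := x
  simp only [ofR, reA, imA, Prod.smul_mk, Prod.mk_add_mk, smul_eq_mul]
  refine aext ?_ ?_ ?_ ?_ ?_ ?_
  · rw [mul_comm]; exact (Complex.re_add_im _).symm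
  · rw [mul_comm]; exact (Complex.re_add_im _).symm
  · rw [mul_comm]; exact (Complex.re_add_im _).symm
  all_goals (
    funext i
    simp only [Pi.smul_apply, Pi.add_apply, smul_eq_mul]
    rw [mul_comm]; exact (Complex.re_add_im _).symm)

theorem starA_eq (x : Alb ℂ) : starA x = ofR (reA x) - Complex.I • ofR (imA x) := by
  obtain ⟨a1, a2, a3, x1, x2, x3⟩ := x
  have key (z : ℂ) : star z = (z.re : ℂ) - Complex.I * (z.im : ℂ) := by
    apply Complex.ext <;> simp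
  simp only [ofR, reA, imA, starA, Prod.smul_mk, Prod.mk_sub_mk, smul_eq_mul]
  refine aext (key _) (key _) (key _) ?_ ?_ ?_
  all_goals (
    funext i
    simp only [Pi.smul_apply, Pi.sub_apply, smul_eq_mul]
    exact key _)

theorem star_jm_self (x : Alb ℂ) : jm (starA x) x = ofR (msq (reA x) (imA x)) := by
  have hs (x y z : Alb ℂ) : jm (x - y) z = jm x z - jm y z := by
    rw [jm_comm, show jm z (x - y) = jm z x - jm z y from (Lm z).map_sub x y, jm_comm z, jm_comm z]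
  rw [starA_eq]
  conv_lhs => rw [eq_re_im x]
  rw [show reA (ofR (reA x) + Complex.I • ofR (imA x)) = reA x by rw [← eq_re_im],
    show imA (ofR (reA x) + Complex.I • ofR (imA x)) = imA x by rw [← eq_re_im]]
  simp only [hs, jm_add, smul_jm, jm_smul, jm_ofR, smul_smul, Complex.I_mul_I, msq, ofR_add]
  rw [jm_comm (imA x) (reA x)]
  module

theorem norm_ofR (x : Alb ℝ) : ‖ofR x‖ = ‖x‖ := by
  obtain ⟨a1, a2, a3, x1, x2, x3⟩ := x
  have h (x : Oct ℝ) : ‖(fun i => ((x i : ℝ) : ℂ))‖ = ‖x‖ := by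
    simp only [Pi.norm_def, Complex.nnnorm_real]
  simp only [ofR, Prod.norm_def, h, Complex.norm_real]

theorem norm_reA_le (x : Alb ℂ) : ‖reA x‖ ≤ ‖x‖ := by
  obtain ⟨a1, a2, a3, x1, x2, x3⟩ := x
  have ho (x : Oct ℂ) : ‖(fun i => (x i).re)‖ ≤ ‖x‖ := by
    rw [pi_norm_le_iff_of_nonneg (norm_nonneg _)]
    intro i
    exact (Complex.abs_re_le_norm _).trans (norm_le_pi_norm x i)
  simp only [reA, Prod.norm_def]
  exact max_le_max (Complex.abs_re_le_norm _) (max_le_max (Complex.abs_re_le_norm _)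
    (max_le_max (Complex.abs_re_le_norm _) (max_le_max (ho _) (max_le_max (ho _) (ho _)))))

theorem continuous_ofR : Continuous ofR := by
  unfold ofR; fun_prop

theorem continuous_reA : Continuous reA := by
  unfold reA; fun_prop

theorem continuous_imA : Continuous imA := by
  unfold imA; fun_prop

theorem continuous_starA : Continuous starA := by
  unfold starA; fun_prop

end Pool.Agent.R969.AL
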