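import Mathlib
set_option autoImplicit false

/-! Definitions: octonions over a commutative ring (Cayley–Dickson double of the quaternions), as `Fin 8 → K`;
Hermitian `3 × 3` octonion matrices and their Jordan product; the involution. -/

namespace Pool.Agent.R969.AL

/-- The octonions over `K`, as the free module of rank `8`. -/
abbrev Oct (K : Type*) := Fin 8 → K

section
variable {K : Type*} [CommRing K]

/-- octonion multiplication: writing `x = (a, b)`, `y = (c, d)` with quaternions `a, b, c, d`,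
`x y = (a c - d̄ b, d a + b c̄)`. -/
def omul (x y : Oct K) : Oct K :=
  ![x 0*y 0 - x 1*y 1 - x 2*y 2 - x 3*y 3 - x 4*y 4 - x 5*y 5 - x 6*y 6 - x 7*y 7,
   x 0*y 1 + x 1*y 0 + x 2*y 3 - x 3*y 2 - (y 4*x 5 - y 5*x 4 - y 6*x 7 + y 7*x 6),
   x 0*y 2 - x 1*y 3 + x 2*y 0 + x 3*y 1 - (y 4*x 6 + y 5*x 7 - y 6*x 4 - y 7*x 5),
   x 0*y 3 + x 1*y 2 - x 2*y 1 + x 3*y 0 - (y 4*x 7 - y 5*x 6 + y 6*x 5 - y 7*x 4),
   y 4*x 0 - y 5*x 1 - y 6*x 2 - y 7*x 3 + (x 4*y 0 + x 5*y 1 + x 6*y 2 + x 7*y 3),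
   y 4*x 1 + y 5*x 0 + y 6*x 3 - y 7*x 2 + (-x 4*y 1 + x 5*y 0 - x 6*y 3 + x 7*y 2),
   y 4*x 2 - y 5*x 3 + y 6*x 0 + y 7*x 1 + (-x 4*y 2 + x 5*y 3 + x 6*y 0 - x 7*y 1),
   y 4*x 3 + y 5*x 2 - y 6*x 1 + y 7*x 0 + (-x 4*y 3 - x 5*y 2 + x 6*y 1 + x 7*y 0)]

/-- octonion conjugation -/
def cj (x : Oct K) : Oct K := ![x 0, -x 1, -x 2, -x 3, -x 4, -x 5, -x 6, -x 7]

/-- the standard bilinear form `⟨x, y⟩ = ∑ x_i y_i` (the real part of `x̄ y`) -/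
def dt (x y : Oct K) : K :=
  x 0*y 0 + x 1*y 1 + x 2*y 2 + x 3*y 3 + x 4*y 4 + x 5*y 5 + x 6*y 6 + x 7*y 7

/-- the unit octonion -/
def o1 : Oct K := ![1, 0, 0, 0, 0, 0, 0, 0]

end

/-- Hermitian `3 × 3` octonion matrices: `(a1, a2, a3, x1, x2, x3)` stands for
`[[a1, x3, x̄2], [x̄3, a2, x1], [x2, x̄1, a3]]`. -/
abbrev Alb (K : Type*) := K × K × K × Oct K × Oct K × Oct K

section
variable {K : Type*} [Field K]

/-- the Hermitian matrix with octonion entries -/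
def toMat (x : Alb K) : Matrix (Fin 3) (Fin 3) (Oct K) :=
  !![x.1 • o1, x.2.2.2.2.2, cj x.2.2.2.2.1;
     cj x.2.2.2.2.2, x.2.1 • o1, x.2.2.2.1;
     x.2.2.2.2.1, cj x.2.2.2.1, x.2.2.1 • o1]

/-- the product of two octonion matrices -/
def matMul (M N : Matrix (Fin 3) (Fin 3) (Oct K)) : Matrix (Fin 3) (Fin 3) (Oct K) :=
  fun i j => omul (M i 0) (N 0 j) + omul (M i 1) (N 1 j) + omul (M i 2) (N 2 j)

/-- the Jordan product `x ∘ y = (x y + y x) / 2` of Hermitian octonion matrices, written in the entries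
(see `toMat_jm` below: `2 (x ∘ y) = x y + y x` as matrices) -/
def jm (x y : Alb K) : Alb K :=
  (x.1 * y.1 + dt x.2.2.2.2.1 y.2.2.2.2.1 + dt x.2.2.2.2.2 y.2.2.2.2.2,
   x.2.1 * y.2.1 + dt x.2.2.2.2.2 y.2.2.2.2.2 + dt x.2.2.2.1 y.2.2.2.1,
   x.2.2.1 * y.2.2.1 + dt x.2.2.2.1 y.2.2.2.1 + dt x.2.2.2.2.1 y.2.2.2.2.1,
   (2⁻¹ : K) • ((x.2.1 + x.2.2.1) • y.2.2.2.1 + (y.2.1 + y.2.2.1) • x.2.2.2.1 +
      cj (omul x.2.2.2.2.1 y.2.2.2.2.2) + cj (omul y.2.2.2.2.1 x.2.2.2.2.2)),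
   (2⁻¹ : K) • ((x.2.2.1 + x.1) • y.2.2.2.2.1 + (y.2.2.1 + y.1) • x.2.2.2.2.1 +
      cj (omul x.2.2.2.2.2 y.2.2.2.1) + cj (omul y.2.2.2.2.2 x.2.2.2.1)),
   (2⁻¹ : K) • ((x.1 + x.2.1) • y.2.2.2.2.2 + (y.1 + y.2.1) • x.2.2.2.2.2 +
      cj (omul x.2.2.2.1 y.2.2.2.2.1) + cj (omul y.2.2.2.1 x.2.2.2.2.1)))

/-- the unit -/
def one : Alb K := (1, 1, 1, 0, 0, 0)

end

/-- the involution `(a + i b)* = a - i b` -/
def starA (x : Alb ℂ) : Alb ℂ :=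
  (star x.1, star x.2.1, star x.2.2.1, fun i => star (x.2.2.2.1 i), fun i => star (x.2.2.2.2.1 i),
    fun i => star (x.2.2.2.2.2 i))

end Pool.Agent.R969.AL
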