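import Pool.Agent.R969.AL.Alb
set_option autoImplicit false

/-! Cubic identities in the Albert algebra. -/

namespace Pool.Agent.R969.AL

section
variable {K : Type*} [Field K]

theorem dt_c1 (x y z : Oct K) : dt x (cj (omul y z)) = dt (cj (omul x y)) z := by rw [dt_comm, tri x y z]
theorem dt_c2 (x y z : Oct K) : dt x (cj (omul z y)) = dt (cj (omul y x)) z := by
  rw [dt_comm, tri y x z, tri x z y]

theorem sharp_eq [NeZero (2 : K)] (x : Alb K) : jm x x = sharp x + tr x • x - tr (sharp x) • one := by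
  have h2 : (2 : K) ≠ 0 := NeZero.ne 2
  obtain ⟨a1, a2, a3, x1, x2, x3⟩ := x
  simp only [jm_mk, sharp_mk, tr, one, Prod.smul_mk, Prod.mk_add_mk, Prod.mk_sub_mk, smul_eq_mul]
  refine aext ?_ ?_ ?_ ?_ ?_ ?_
  · ring
  · ring
  · ring
  all_goals (
    funext i
    simp only [Pi.smul_apply, Pi.add_apply, Pi.sub_apply, smul_eq_mul, Pi.zero_apply]
    field_simp; ring)

theorem jm_sharp [NeZero (2 : K)] (x : Alb K) : jm x (sharp x) = det x • one := by
  have h2 : (2 : K) ≠ 0 := NeZero.ne 2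
  obtain ⟨a1, a2, a3, x1, x2, x3⟩ := x
  have g1 : omul x2 (cj (omul x1 x2)) = dt x2 x2 • cj x1 := by rw [cj_mul, alt1]
  have g2 : omul (cj (omul x3 x1)) x3 = dt x3 x3 • cj x1 := by rw [cj_mul, alt4]
  have g3 : omul x3 (cj (omul x2 x3)) = dt x3 x3 • cj x2 := by rw [cj_mul, alt1]
  have g4 : omul (cj (omul x1 x2)) x1 = dt x1 x1 • cj x2 := by rw [cj_mul, alt4]
  have g5 : omul x1 (cj (omul x3 x1)) = dt x1 x1 • cj x3 := by rw [cj_mul, alt1]
  have g6 : omul (cj (omul x2 x3)) x2 = dt x2 x2 • cj x3 := by rw [cj_mul, alt4]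
  simp only [jm_mk, sharp_mk, one, Prod.smul_mk, det_mk, smul_eq_mul]
  refine aext ?_ ?_ ?_ ?_ ?_ ?_
  · simp only [dt_sub, dt_smul]
    rw [dt_c1 x2 x3 x1, dt_comm x3 (cj _), ← tri x3 x1 x2, ← tri x2 x3 x1]; ring
  · simp only [dt_sub, dt_smul]
    rw [dt_comm x1 (cj _), dt_comm x3 (cj _), ← tri x3 x1 x2, ← tri x2 x3 x1]; ring
  · simp only [dt_sub, dt_smul]
    rw [dt_comm x1 (cj _), dt_comm x2 (cj _), ← tri x2 x3 x1]; ring
  all_goals (
    simp only [omul_sub, sub_omul, omul_smul, smul_omul, g1, g2, g3, g4, g5, g6, cj_sub, cj_smul, cj_cj]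
    funext i
    simp only [Pi.smul_apply, Pi.add_apply, Pi.sub_apply, smul_eq_mul, Pi.zero_apply]
    ring)

theorem sharp_sharp (x : Alb K) : sharp (sharp x) = det x • x := by
  obtain ⟨a1, a2, a3, x1, x2, x3⟩ := x
  have g1 : omul x2 (cj (omul x1 x2)) = dt x2 x2 • cj x1 := by rw [cj_mul, alt1]
  have g2 : omul (cj (omul x3 x1)) x3 = dt x3 x3 • cj x1 := by rw [cj_mul, alt4]
  have g3 : omul x3 (cj (omul x2 x3)) = dt x3 x3 • cj x2 := by rw [cj_mul, alt1]
  have g4 : omul (cj (omul x1 x2)) x1 = dt x1 x1 • cj x2 := by rw [cj_mul, alt4]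
  have g5 : omul x1 (cj (omul x3 x1)) = dt x1 x1 • cj x3 := by rw [cj_mul, alt1]
  have g6 : omul (cj (omul x2 x3)) x2 = dt x2 x2 • cj x3 := by rw [cj_mul, alt4]
  have m (x y z : Oct K) : omul (cj (omul z x)) (cj (omul x y)) =
      (2 * dt (cj (omul y z)) x) • cj x - dt x x • omul y z := by
    rw [cj_mul, cj_mul, mouf, ← cj_mul, cj_cj, cj_cj, dt_cj]
  have n (x y z : Oct K) (a : K) : dt (cj (omul y z) - a • x) (cj (omul y z) - a • x) =
      dt y y * dt z z - 2 * a * dt (cj (omul y z)) x + a ^ 2 * dt x x := by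
    simp only [sub_dt, dt_sub, smul_dt, dt_smul]
    rw [dt_cj, dt_mul_mul, dt_comm x (cj _)]; ring
  simp only [sharp_mk, det_mk, Prod.smul_mk, smul_eq_mul, n]
  refine aext ?_ ?_ ?_ ?_ ?_ ?_
  · ring
  · rw [← tri x2 x3 x1]; ring
  · rw [tri x1 x2 x3]; ring
  all_goals (
    simp only [omul_sub, sub_omul, omul_smul, smul_omul, g1, g2, g3, g4, g5, g6, cj_sub, cj_smul, cj_cj, m])
  · funext i
    simp only [Pi.smul_apply, Pi.add_apply, Pi.sub_apply, smul_eq_mul, Pi.zero_apply]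
    ring
  · rw [← tri x2 x3 x1]
    funext i
    simp only [Pi.smul_apply, Pi.add_apply, Pi.sub_apply, smul_eq_mul, Pi.zero_apply]
    ring
  · rw [tri x1 x2 x3]
    funext i
    simp only [Pi.smul_apply, Pi.add_apply, Pi.sub_apply, smul_eq_mul, Pi.zero_apply]
    ring

theorem tr_smul (c : K) (x : Alb K) : tr (c • x) = c * tr x := by
  rw [← B_one, smul_B, B_one]

theorem tr_add (x y : Alb K) : tr (x + y) = tr x + tr y := by
  rw [← B_one, add_B, B_one, B_one]

/-- power associativity in degree four -/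
theorem pow4 [NeZero (2 : K)] (S : Alb K) : jm (jm S S) (jm S S) = jm S (jm S (jm S S)) := by
  set N := sharp S with hN
  have h1 : jm S S = N + tr S • S - tr N • one := sharp_eq S
  have h2 : jm S N = det S • one := jm_sharp S
  have h2' : jm N S = det S • one := by rw [jm_comm, h2]
  have h3 : jm N N = det S • S + tr N • N - (det S * tr S) • one := by
    rw [sharp_eq N, hN, sharp_sharp, tr_smul]
  have hs (x y z : Alb K) : jm x (y - z) = jm x y - jm x z := (Lm x).map_sub y z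
  have hs' (x y z : Alb K) : jm (x - y) z = jm x z - jm y z := by rw [jm_comm, hs, jm_comm z, jm_comm z]
  have ho' (x : Alb K) : jm one x = x := by rw [jm_comm, jm_one]
  rw [h1]
  simp only [jm_add, add_jm, hs, hs', jm_smul, smul_jm, h2, h2', h3, jm_one, ho', h1]
  module

end

end Pool.Agent.R969.AL
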