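import Pool.Agent.R969.AL.Cplx
set_option autoImplicit false
set_option linter.unusedSimpArgs false

/-! `L^∞(Ω, H₃(𝕆_ℂ))`, traces on it, and the spectral `L^p` formula. -/

namespace Pool.Agent.R969.AL

open MeasureTheory Filter Topology

section
variable {Ω : Type*} [MeasurableSpace Ω] {μ : Measure Ω}

/-- `L^∞(Ω, H₃(𝕆_ℂ))`: essentially bounded (strongly) measurable functions modulo null functions. -/
noncomputable abbrev LI {Ω : Type*} [MeasurableSpace Ω] (μ : Measure Ω) := Lp (Alb ℂ) ⊤ μ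

theorem bdd_of_top {E : Type*} [NormedAddCommGroup E] {f : Ω → E} (hf : MemLp f ⊤ μ) :
    ∃ C : ℝ, ∀ᵐ ω ∂μ, ‖f ω‖ ≤ C := by
  refine ⟨(eLpNormEssSup f μ).toReal, ?_⟩
  have h := hf.2
  rw [eLpNorm_exponent_top] at h
  filter_upwards [ae_le_eLpNormEssSup (f := f) (μ := μ)] with ω hω
  rw [← toReal_enorm]
  exact ENNReal.toReal_mono h.ne hω

theorem memLp_comp {E F : Type*} [NormedAddCommGroup E] [ProperSpace E] [NormedAddCommGroup F] {f : Ω → E}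
    (hf : MemLp f ⊤ μ) {Φ : E → F} (hΦ : Continuous Φ) : MemLp (fun ω => Φ (f ω)) ⊤ μ := by
  obtain ⟨C, hC⟩ := bdd_of_top hf
  obtain ⟨D, hD⟩ := (isCompact_closedBall (0:E) C).exists_bound_of_continuousOn hΦ.continuousOn
  refine memLp_top_of_bound (hΦ.comp_aestronglyMeasurable hf.1) D ?_
  filter_upwards [hC] with ω hω
  exact hD _ (by simpa using hω)

theorem memLp_pair {E F : Type*} [NormedAddCommGroup E] [NormedAddCommGroup F] {f : Ω → E} {g : Ω → F}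
    (hf : MemLp f ⊤ μ) (hg : MemLp g ⊤ μ) : MemLp (fun ω => (f ω, g ω)) ⊤ μ := by
  obtain ⟨C, hC⟩ := bdd_of_top hf
  obtain ⟨D, hD⟩ := bdd_of_top hg
  refine memLp_top_of_bound (hf.1.prodMk hg.1) (max C D) ?_
  filter_upwards [hC, hD] with ω h1 h2
  exact max_le_max h1 h2

theorem memLp_jm {f g : Ω → Alb ℂ} (hf : MemLp f ⊤ μ) (hg : MemLp g ⊤ μ) :
    MemLp (fun ω => jm (f ω) (g ω)) ⊤ μ :=
  memLp_comp (memLp_pair hf hg) (Continuous.jm' continuous_fst continuous_snd)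

theorem memLp_star {f : Ω → Alb ℂ} (hf : MemLp f ⊤ μ) : MemLp (fun ω => starA (f ω)) ⊤ μ :=
  memLp_comp hf continuous_starA

/-- the power `a^s`, `s > 0`, of a positive (in particular self-adjoint, that is, real) element `a` of
`H₃(𝕆_ℂ)`: if `a = ∑ λ_i e_i` with orthogonal idempotents `e_i` of `H₃(𝕆)` of sum `1`, then
`a^s = ∑ λ_i^s e_i`. -/
noncomputable def powA (s : ℝ) (a : Alb ℂ) : Alb ℂ := ofR (fc (fun t => t ^ s) (reA a))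

theorem continuous_powA {s : ℝ} (hs : 0 < s) : Continuous (powA s) :=
  continuous_ofR.comp ((continuous_fc (Real.continuous_rpow_const hs.le)).comp continuous_reA)

theorem memLp_pow {s : ℝ} (hs : 0 < s) {f : Ω → Alb ℂ} (hf : MemLp f ⊤ μ) :
    MemLp (fun ω => powA s (f ω)) ⊤ μ := memLp_comp hf (continuous_powA hs)

/-- the pointwise Jordan product -/
noncomputable def mulM (f g : LI μ) : LI μ := (memLp_jm (Lp.memLp f) (Lp.memLp g)).toLp _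

/-- the pointwise involution -/
noncomputable def starM (f : LI μ) : LI μ := (memLp_star (Lp.memLp f)).toLp _

/-- the power `f^s`, `s > 0`, of a positive element `f`, taken pointwise -/
noncomputable def powM (s : ℝ) (hs : 0 < s) (f : LI μ) : LI μ := (memLp_pow hs (Lp.memLp f)).toLp _

/-- A positive trace on `L^∞(Ω, H₃(𝕆_ℂ))`: a linear functional with `τ(a ∘ a) ≥ 0` for self-adjoint `a` and
`τ(x ∘ (y ∘ z)) = τ((x ∘ y) ∘ z)` for all `x, y, z`. -/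
structure IsTrace (τ : LI μ →ₗ[ℂ] ℂ) : Prop where
  pos : ∀ a : LI μ, starM a = a → 0 ≤ (τ (mulM a a)).re ∧ (τ (mulM a a)).im = 0
  assoc : ∀ x y z : LI μ, τ (mulM x (mulM y z)) = τ (mulM (mulM x y) z)

theorem half_pos' {p : ℝ} (hp : 1 ≤ p) : 0 < p / 2 := by linarith

/-- `‖x‖_p = (τ[(x* ∘ x)^{p/2}])^{1/p}` -/
noncomputable def normP (τ : LI μ →ₗ[ℂ] ℂ) (p : ℝ) (hp : 1 ≤ p) (x : LI μ) : ℝ :=
  ((τ (powM (p / 2) (half_pos' hp) (mulM (starM x) x))).re) ^ (1 / p)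

open Classical in
/-- the functional on functions -/
noncomputable def TT (τ : LI μ →ₗ[ℂ] ℂ) (f : Ω → Alb ℂ) : ℂ := if h : MemLp f ⊤ μ then τ (h.toLp f) else 0

variable {τ : LI μ →ₗ[ℂ] ℂ}

theorem TT_eq {f : Ω → Alb ℂ} (h : MemLp f ⊤ μ) : TT τ f = τ (h.toLp f) := by
  unfold TT; rw [dif_pos h]

theorem TT_coe (x : LI μ) : TT τ x = τ x := by
  rw [TT_eq (Lp.memLp x), Lp.toLp_coeFn]

theorem mAdd {f g : Ω → Alb ℂ} (hf : MemLp f ⊤ μ) (hg : MemLp g ⊤ μ) : MemLp (fun ω => f ω + g ω) ⊤ μ :=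
  hf.add hg

theorem mSmul (c : ℂ) {f : Ω → Alb ℂ} (hf : MemLp f ⊤ μ) : MemLp (fun ω => c • f ω) ⊤ μ :=
  hf.const_smul c

theorem TT_add {f g : Ω → Alb ℂ} (hf : MemLp f ⊤ μ) (hg : MemLp g ⊤ μ) :
    TT τ (fun ω => f ω + g ω) = TT τ f + TT τ g := by
  rw [TT_eq (mAdd hf hg), TT_eq hf, TT_eq hg, ← map_add, ← MemLp.toLp_add]
  rfl

theorem TT_smul (c : ℂ) {f : Ω → Alb ℂ} (hf : MemLp f ⊤ μ) : TT τ (fun ω => c • f ω) = c * TT τ f := by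
  rw [TT_eq (mSmul c hf), TT_eq hf, ← smul_eq_mul, ← map_smul, ← MemLp.toLp_const_smul]
  rfl

theorem TT_congr {f g : Ω → Alb ℂ} (hf : MemLp f ⊤ μ) (hg : MemLp g ⊤ μ) (h : f =ᵐ[μ] g) : TT τ f = TT τ g := by
  rw [TT_eq hf, TT_eq hg, (MemLp.toLp_eq_toLp_iff hf hg).mpr h]

theorem mulM_toLp {f g : Ω → Alb ℂ} (hf : MemLp f ⊤ μ) (hg : MemLp g ⊤ μ) :
    mulM (hf.toLp f) (hg.toLp g) = (memLp_jm hf hg).toLp _ := by
  unfold mulM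
  rw [MemLp.toLp_eq_toLp_iff]
  filter_upwards [hf.coeFn_toLp, hg.coeFn_toLp] with ω h1 h2
  rw [h1, h2]

theorem starM_toLp {f : Ω → Alb ℂ} (hf : MemLp f ⊤ μ) : starM (hf.toLp f) = (memLp_star hf).toLp _ := by
  unfold starM
  rw [MemLp.toLp_eq_toLp_iff]
  filter_upwards [hf.coeFn_toLp] with ω h1
  rw [h1]

theorem powM_toLp {s : ℝ} (hs : 0 < s) {f : Ω → Alb ℂ} (hf : MemLp f ⊤ μ) :
    powM s hs (hf.toLp f) = (memLp_pow hs hf).toLp _ := by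
  unfold powM
  rw [MemLp.toLp_eq_toLp_iff]
  filter_upwards [hf.coeFn_toLp] with ω h1
  rw [h1]

theorem TT_assoc (hτ : IsTrace τ) {f g h : Ω → Alb ℂ} (hf : MemLp f ⊤ μ) (hg : MemLp g ⊤ μ)
    (hh : MemLp h ⊤ μ) : TT τ (fun ω => jm (f ω) (jm (g ω) (h ω))) = TT τ (fun ω => jm (jm (f ω) (g ω)) (h ω)) := by
  have := hτ.assoc (hf.toLp f) (hg.toLp g) (hh.toLp h)
  rw [mulM_toLp hg hh, mulM_toLp hf hg, mulM_toLp hf (memLp_jm hg hh), mulM_toLp (memLp_jm hf hg) hh] at this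
  rw [TT_eq (memLp_jm hf (memLp_jm hg hh)), TT_eq (memLp_jm (memLp_jm hf hg) hh)]
  exact this

theorem TT_pos (hτ : IsTrace τ) {f : Ω → Alb ℂ} (hf : MemLp f ⊤ μ) (hs : ∀ ω, starA (f ω) = f ω) :
    0 ≤ (TT τ (fun ω => jm (f ω) (f ω))).re ∧ (TT τ (fun ω => jm (f ω) (f ω))).im = 0 := by
  have h1 : starM (hf.toLp f) = hf.toLp f := by
    rw [starM_toLp, MemLp.toLp_eq_toLp_iff]
    exact Eventually.of_forall hs
  have := hτ.pos _ h1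
  rw [mulM_toLp hf hf] at this
  rw [TT_eq (memLp_jm hf hf)]
  exact this

theorem memLp_cst (c : Alb ℂ) : MemLp (fun _ : Ω => c) ⊤ μ := memLp_top_const c

/-- idempotent matrix units and off-diagonal elements -/
theorem cc1 (x1 : Oct ℂ) : jm ((0, 1, 0, 0, 0, 0) : Alb ℂ) (0, 0, 0, x1, 0, 0) = (2⁻¹ : ℂ) • (0, 0, 0, x1, 0, 0) := by
  simp only [jm_mk, Prod.smul_mk]
  refine aext ?_ ?_ ?_ ?_ ?_ ?_ <;> simp [dt_zero, zero_dt, zero_omul, omul_zero, cj_zero]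
theorem cc2 (x1 : Oct ℂ) : jm ((0, 0, 1, 0, 0, 0) : Alb ℂ) (0, 0, 0, 0, x1, 0) = (2⁻¹ : ℂ) • (0, 0, 0, 0, x1, 0) := by
  simp only [jm_mk, Prod.smul_mk]
  refine aext ?_ ?_ ?_ ?_ ?_ ?_ <;> simp [dt_zero, zero_dt, zero_omul, omul_zero, cj_zero]
theorem cc3 (x1 : Oct ℂ) : jm ((1, 0, 0, 0, 0, 0) : Alb ℂ) (0, 0, 0, 0, 0, x1) = (2⁻¹ : ℂ) • (0, 0, 0, 0, 0, x1) := by
  simp only [jm_mk, Prod.smul_mk]
  refine aext ?_ ?_ ?_ ?_ ?_ ?_ <;> simp [dt_zero, zero_dt, zero_omul, omul_zero, cj_zero]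
theorem cd1 (c d : ℂ) : jm ((c, 0, 0, 0, 0, 0) : Alb ℂ) (d, 0, 0, 0, 0, 0) = (c * d, 0, 0, 0, 0, 0) := by
  simp only [jm_mk]
  refine aext ?_ ?_ ?_ ?_ ?_ ?_ <;> simp [dt_zero, zero_dt, zero_omul, omul_zero, cj_zero]
theorem cd2 (c d : ℂ) : jm ((0, c, 0, 0, 0, 0) : Alb ℂ) (0, d, 0, 0, 0, 0) = (0, c * d, 0, 0, 0, 0) := by
  simp only [jm_mk]
  refine aext ?_ ?_ ?_ ?_ ?_ ?_ <;> simp [dt_zero, zero_dt, zero_omul, omul_zero, cj_zero]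
theorem cd3 (c d : ℂ) : jm ((0, 0, c, 0, 0, 0) : Alb ℂ) (0, 0, d, 0, 0, 0) = (0, 0, c * d, 0, 0, 0) := by
  simp only [jm_mk]
  refine aext ?_ ?_ ?_ ?_ ?_ ?_ <;> simp [dt_zero, zero_dt, zero_omul, omul_zero, cj_zero]

theorem off_zero (hτ : IsTrace τ) {u : Ω → Alb ℂ} (hu : MemLp u ⊤ μ) (e : Alb ℂ) (he : jm e e = e)
    (h : ∀ ω, jm e (u ω) = (2⁻¹ : ℂ) • u ω) : TT τ u = 0 := by
  have h1 := TT_assoc hτ (memLp_cst e) (memLp_cst e) hu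
  simp only [he, h, jm_smul, smul_smul] at h1
  rw [TT_smul _ hu, TT_smul _ hu] at h1
  linear_combination (-4 : ℂ) * h1

theorem dt_o1 : dt (o1 : Oct ℂ) o1 = 1 := by
  simp [dt, o1]

theorem diag12 (hτ : IsTrace τ) {k : Ω → ℂ} (hk : MemLp k ⊤ μ) :
    TT τ (fun ω => (k ω, 0, 0, 0, 0, 0)) = TT τ (fun ω => (0, k ω, 0, 0, 0, 0)) := by
  have m1 : MemLp (fun ω => ((k ω, 0, 0, 0, 0, 0) : Alb ℂ)) ⊤ μ :=
    memLp_comp (Φ := fun c : ℂ => ((c, 0, 0, 0, 0, 0) : Alb ℂ)) hk (by fun_prop)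
  have m2 : MemLp (fun ω => ((0, k ω, 0, 0, 0, 0) : Alb ℂ)) ⊤ μ :=
    memLp_comp (Φ := fun c : ℂ => ((0, c, 0, 0, 0, 0) : Alb ℂ)) hk (by fun_prop)
  have h1 := TT_assoc hτ (memLp_cst ((0, 0, 0, 0, 0, o1) : Alb ℂ)) (memLp_cst ((0, 0, 0, 0, 0, o1) : Alb ℂ)) m1
  have e1 (c : ℂ) : jm ((0, 0, 0, 0, 0, o1) : Alb ℂ) (jm (0, 0, 0, 0, 0, o1) (c, 0, 0, 0, 0, 0)) =
      (2⁻¹ : ℂ) • ((c, 0, 0, 0, 0, 0) + (0, c, 0, 0, 0, 0)) := by
    simp only [jm_mk, Prod.smul_mk, Prod.mk_add_mk]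
    refine aext ?_ ?_ ?_ ?_ ?_ ?_ <;> simp [dt_zero, zero_dt, zero_omul, omul_zero, cj_zero, dt_smul, dt_o1]
  have e2 (c : ℂ) : jm (jm ((0, 0, 0, 0, 0, o1) : Alb ℂ) (0, 0, 0, 0, 0, o1)) (c, 0, 0, 0, 0, 0) =
      (c, 0, 0, 0, 0, 0) := by
    simp only [jm_mk]
    refine aext ?_ ?_ ?_ ?_ ?_ ?_ <;> simp [dt_zero, zero_dt, zero_omul, omul_zero, cj_zero, dt_smul, dt_o1]
  simp only [e1, e2] at h1
  rw [TT_smul _ (mAdd m1 m2), TT_add m1 m2] at h1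
  linear_combination (-2 : ℂ) * h1

theorem diag23 (hτ : IsTrace τ) {k : Ω → ℂ} (hk : MemLp k ⊤ μ) :
    TT τ (fun ω => (0, k ω, 0, 0, 0, 0)) = TT τ (fun ω => (0, 0, k ω, 0, 0, 0)) := by
  have m1 : MemLp (fun ω => ((0, k ω, 0, 0, 0, 0) : Alb ℂ)) ⊤ μ :=
    memLp_comp (Φ := fun c : ℂ => ((0, c, 0, 0, 0, 0) : Alb ℂ)) hk (by fun_prop)
  have m2 : MemLp (fun ω => ((0, 0, k ω, 0, 0, 0) : Alb ℂ)) ⊤ μ :=
    memLp_comp (Φ := fun c : ℂ => ((0, 0, c, 0, 0, 0) : Alb ℂ)) hk (by fun_prop)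
  have h1 := TT_assoc hτ (memLp_cst ((0, 0, 0, o1, 0, 0) : Alb ℂ)) (memLp_cst ((0, 0, 0, o1, 0, 0) : Alb ℂ)) m1
  have e1 (c : ℂ) : jm ((0, 0, 0, o1, 0, 0) : Alb ℂ) (jm (0, 0, 0, o1, 0, 0) (0, c, 0, 0, 0, 0)) =
      (2⁻¹ : ℂ) • ((0, c, 0, 0, 0, 0) + (0, 0, c, 0, 0, 0)) := by
    simp only [jm_mk, Prod.smul_mk, Prod.mk_add_mk]
    refine aext ?_ ?_ ?_ ?_ ?_ ?_ <;> simp [dt_zero, zero_dt, zero_omul, omul_zero, cj_zero, dt_smul, dt_o1]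
  have e2 (c : ℂ) : jm (jm ((0, 0, 0, o1, 0, 0) : Alb ℂ) (0, 0, 0, o1, 0, 0)) (0, c, 0, 0, 0, 0) =
      (0, c, 0, 0, 0, 0) := by
    simp only [jm_mk]
    refine aext ?_ ?_ ?_ ?_ ?_ ?_ <;> simp [dt_zero, zero_dt, zero_omul, omul_zero, cj_zero, dt_smul, dt_o1]
  simp only [e1, e2] at h1
  rw [TT_smul _ (mAdd m1 m2), TT_add m1 m2] at h1
  linear_combination (-2 : ℂ) * h1

/-- the trace only sees the pointwise trace -/
theorem TT_tr (hτ : IsTrace τ) {f : Ω → Alb ℂ} (hf : MemLp f ⊤ μ) :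
    TT τ f = TT τ (fun ω => (tr (f ω), 0, 0, 0, 0, 0)) := by
  have k1 : MemLp (fun ω => (f ω).1) ⊤ μ := memLp_comp (Φ := fun x : Alb ℂ => x.1) hf (by fun_prop)
  have k2 : MemLp (fun ω => (f ω).2.1) ⊤ μ := memLp_comp (Φ := fun x : Alb ℂ => x.2.1) hf (by fun_prop)
  have k3 : MemLp (fun ω => (f ω).2.2.1) ⊤ μ := memLp_comp (Φ := fun x : Alb ℂ => x.2.2.1) hf (by fun_prop)
  have m1 : MemLp (fun ω => (((f ω).1, 0, 0, 0, 0, 0) : Alb ℂ)) ⊤ μ :=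
    memLp_comp (Φ := fun x : Alb ℂ => ((x.1, 0, 0, 0, 0, 0) : Alb ℂ)) hf (by fun_prop)
  have m2 : MemLp (fun ω => ((0, (f ω).2.1, 0, 0, 0, 0) : Alb ℂ)) ⊤ μ :=
    memLp_comp (Φ := fun x : Alb ℂ => ((0, x.2.1, 0, 0, 0, 0) : Alb ℂ)) hf (by fun_prop)
  have m3 : MemLp (fun ω => ((0, 0, (f ω).2.2.1, 0, 0, 0) : Alb ℂ)) ⊤ μ :=
    memLp_comp (Φ := fun x : Alb ℂ => ((0, 0, x.2.2.1, 0, 0, 0) : Alb ℂ)) hf (by fun_prop)
  have m2' : MemLp (fun ω => (((f ω).2.1, 0, 0, 0, 0, 0) : Alb ℂ)) ⊤ μ :=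
    memLp_comp (Φ := fun x : Alb ℂ => ((x.2.1, 0, 0, 0, 0, 0) : Alb ℂ)) hf (by fun_prop)
  have m3' : MemLp (fun ω => (((f ω).2.2.1, 0, 0, 0, 0, 0) : Alb ℂ)) ⊤ μ :=
    memLp_comp (Φ := fun x : Alb ℂ => ((x.2.2.1, 0, 0, 0, 0, 0) : Alb ℂ)) hf (by fun_prop)
  have n1 : MemLp (fun ω => ((0, 0, 0, (f ω).2.2.2.1, 0, 0) : Alb ℂ)) ⊤ μ :=
    memLp_comp (Φ := fun x : Alb ℂ => ((0, 0, 0, x.2.2.2.1, 0, 0) : Alb ℂ)) hf (by fun_prop)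
  have n2 : MemLp (fun ω => ((0, 0, 0, 0, (f ω).2.2.2.2.1, 0) : Alb ℂ)) ⊤ μ :=
    memLp_comp (Φ := fun x : Alb ℂ => ((0, 0, 0, 0, x.2.2.2.2.1, 0) : Alb ℂ)) hf (by fun_prop)
  have n3 : MemLp (fun ω => ((0, 0, 0, 0, 0, (f ω).2.2.2.2.2) : Alb ℂ)) ⊤ μ :=
    memLp_comp (Φ := fun x : Alb ℂ => ((0, 0, 0, 0, 0, x.2.2.2.2.2) : Alb ℂ)) hf (by fun_prop)
  have z1 : TT τ (fun ω => ((0, 0, 0, (f ω).2.2.2.1, 0, 0) : Alb ℂ)) = 0 :=
    off_zero hτ n1 (0, 1, 0, 0, 0, 0) (by rw [cd2, mul_one]) (fun ω => cc1 _)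
  have z2 : TT τ (fun ω => ((0, 0, 0, 0, (f ω).2.2.2.2.1, 0) : Alb ℂ)) = 0 :=
    off_zero hτ n2 (0, 0, 1, 0, 0, 0) (by rw [cd3, mul_one]) (fun ω => cc2 _)
  have z3 : TT τ (fun ω => ((0, 0, 0, 0, 0, (f ω).2.2.2.2.2) : Alb ℂ)) = 0 :=
    off_zero hτ n3 (1, 0, 0, 0, 0, 0) (by rw [cd1, mul_one]) (fun ω => cc3 _)
  have hsum : f = fun ω => (((f ω).1, 0, 0, 0, 0, 0) : Alb ℂ) + ((0, (f ω).2.1, 0, 0, 0, 0) +
      ((0, 0, (f ω).2.2.1, 0, 0, 0) + ((0, 0, 0, (f ω).2.2.2.1, 0, 0) +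
      ((0, 0, 0, 0, (f ω).2.2.2.2.1, 0) + (0, 0, 0, 0, 0, (f ω).2.2.2.2.2))))) := by
    funext ω
    simp only [Prod.mk_add_mk, add_zero, zero_add]
  have hsum2 : (fun ω => ((tr (f ω), 0, 0, 0, 0, 0) : Alb ℂ)) = fun ω => (((f ω).1, 0, 0, 0, 0, 0) : Alb ℂ) +
      (((f ω).2.1, 0, 0, 0, 0, 0) + ((f ω).2.2.1, 0, 0, 0, 0, 0)) := by
    funext ω
    simp only [Prod.mk_add_mk, add_zero, tr, add_assoc]
  have L : TT τ f = TT τ (fun ω => (((f ω).1, 0, 0, 0, 0, 0) : Alb ℂ)) +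
      (TT τ (fun ω => ((0, (f ω).2.1, 0, 0, 0, 0) : Alb ℂ)) + TT τ (fun ω => ((0, 0, (f ω).2.2.1, 0, 0, 0) : Alb ℂ))) := by
    conv_lhs => rw [hsum]
    rw [TT_add m1 (mAdd m2 (mAdd m3 (mAdd n1 (mAdd n2 n3)))), TT_add m2 (mAdd m3 (mAdd n1 (mAdd n2 n3))),
      TT_add m3 (mAdd n1 (mAdd n2 n3)), TT_add n1 (mAdd n2 n3), TT_add n2 n3, z1, z2, z3]
    ring
  rw [L, hsum2, TT_add m1 (mAdd m2' m3'), TT_add m2' m3', ← diag12 hτ k2, ← diag23 hτ k3, ← diag12 hτ k3]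

theorem TT_nonneg (hτ : IsTrace τ) {k : Ω → Alb ℝ} (hk : MemLp (fun ω => ofR (k ω)) ⊤ μ) (h0 : ∀ ω, 0 ≤ tr (k ω)) :
    0 ≤ (TT τ (fun ω => ofR (k ω))).re ∧ (TT τ (fun ω => ofR (k ω))).im = 0 := by
  rw [TT_tr hτ hk]
  have m : MemLp (fun ω => ((((Real.sqrt (tr (k ω)) : ℝ) : ℂ), 0, 0, 0, 0, 0) : Alb ℂ)) ⊤ μ :=
    memLp_comp (Φ := fun x : Alb ℂ => ((((Real.sqrt (tr x).re : ℝ) : ℂ), 0, 0, 0, 0, 0) : Alb ℂ)) hk (by
      unfold tr; fun_prop) |> fun h => by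
        have e : (fun ω => ((((Real.sqrt (tr (k ω)) : ℝ) : ℂ), 0, 0, 0, 0, 0) : Alb ℂ)) =
          fun ω => ((((Real.sqrt (tr (ofR (k ω))).re : ℝ) : ℂ), 0, 0, 0, 0, 0) : Alb ℂ) := by
          funext ω
          congr 3
        rw [e]; exact h
  have h1 := TT_pos hτ m (by
    intro ω
    simp only [starA, Pi.zero_apply, star_zero]
    refine aext ?_ rfl rfl rfl rfl rfl
    exact Complex.conj_ofReal _)
  have e2 : (fun ω => jm ((((Real.sqrt (tr (k ω)) : ℝ) : ℂ), 0, 0, 0, 0, 0) : Alb ℂ)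
      (((Real.sqrt (tr (k ω)) : ℝ) : ℂ), 0, 0, 0, 0, 0)) = fun ω => ((tr (ofR (k ω)), 0, 0, 0, 0, 0) : Alb ℂ) := by
    funext ω
    rw [cd1, ← Complex.ofReal_mul, Real.mul_self_sqrt (h0 ω)]
    refine aext ?_ rfl rfl rfl rfl rfl
    simp only [tr, ofR]; push_cast; ring
  rw [e2] at h1
  exact h1

theorem conv_ineq {A B' l p : ℝ} (hp : 1 ≤ p) (hA : 0 ≤ A) (hB : 0 ≤ B') (h0 : 0 < l) (h1 : l < 1) :
    (A + B') ^ p ≤ l ^ (1 - p) * A ^ p + (1 - l) ^ (1 - p) * B' ^ p := by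
  have h1' : 0 < 1 - l := by linarith
  have h := (convexOn_rpow hp).2 (Set.mem_Ici.mpr (div_nonneg hA h0.le))
    (Set.mem_Ici.mpr (div_nonneg hB h1'.le)) h0.le h1'.le (by ring)
  simp only [smul_eq_mul] at h
  have e1 : l * (A / l) + (1 - l) * (B' / (1 - l)) = A + B' := by field_simp
  have e2 (t C : ℝ) (ht : 0 < t) (hC : 0 ≤ C) : t * (C / t) ^ p = t ^ (1 - p) * C ^ p := by
    rw [Real.div_rpow hC ht.le, Real.rpow_sub ht, Real.rpow_one]; ring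
  rw [e1, e2 l A h0 hA, e2 (1 - l) B' h1' hB] at h
  exact h

theorem mink_fin {X Y Z p : ℝ} (hp : 1 ≤ p) (hX : 0 ≤ X) (hY : 0 ≤ Y) (hZ : 0 ≤ Z)
    (h : ∀ l : ℝ, 0 < l → l < 1 → Z ≤ l ^ (1 - p) * X + (1 - l) ^ (1 - p) * Y) :
    Z ^ (1 / p) ≤ X ^ (1 / p) + Y ^ (1 / p) := by
  have hp0 : 0 < p := by linarith
  refine le_of_forall_pos_le_add fun ε hε => ?_
  set A := X ^ (1 / p) + ε / 2 with hA
  set B' := Y ^ (1 / p) + ε / 2 with hB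
  have hX' : 0 ≤ X ^ (1 / p) := Real.rpow_nonneg hX _
  have hY' : 0 ≤ Y ^ (1 / p) := Real.rpow_nonneg hY _
  have hA0 : 0 < A := by positivity
  have hB0 : 0 < B' := by positivity
  have hXA : X ≤ A ^ p := by
    calc X = (X ^ (1 / p)) ^ p := by rw [← Real.rpow_mul hX, one_div_mul_cancel hp0.ne', Real.rpow_one]
      _ ≤ A ^ p := Real.rpow_le_rpow hX' (by linarith) hp0.le
  have hYB : Y ≤ B' ^ p := by
    calc Y = (Y ^ (1 / p)) ^ p := by rw [← Real.rpow_mul hY, one_div_mul_cancel hp0.ne', Real.rpow_one]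
      _ ≤ B' ^ p := Real.rpow_le_rpow hY' (by linarith) hp0.le
  have hs : 0 < A + B' := by positivity
  have key := h (A / (A + B')) (by positivity) (by rw [div_lt_one hs]; linarith)
  have e1 : 1 - A / (A + B') = B' / (A + B') := by field_simp; ring
  rw [e1] at key
  have e2 (C : ℝ) (hC : 0 < C) : (C / (A + B')) ^ (1 - p) * C ^ p = C * (A + B') ^ (p - 1) := by
    rw [Real.div_rpow hC.le hs.le, Real.rpow_sub hC, Real.rpow_one, show (1 - p) = -(p - 1) by ring,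
      Real.rpow_neg hs.le]
    have : C ^ p ≠ 0 := (Real.rpow_pos_of_pos hC p).ne'
    field_simp
  have k2 : Z ≤ (A + B') ^ p := by
    calc Z ≤ (A / (A + B')) ^ (1 - p) * X + (B' / (A + B')) ^ (1 - p) * Y := key
      _ ≤ (A / (A + B')) ^ (1 - p) * A ^ p + (B' / (A + B')) ^ (1 - p) * B' ^ p := by gcongr
      _ = (A + B') * (A + B') ^ (p - 1) := by rw [e2 A hA0, e2 B' hB0]; ring
      _ = (A + B') ^ p := by
        rw [← Real.rpow_one_add' hs.le (by linarith)]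
        congr 1; ring
  calc Z ^ (1 / p) ≤ ((A + B') ^ p) ^ (1 / p) := Real.rpow_le_rpow hZ k2 (by positivity)
    _ = A + B' := by rw [← Real.rpow_mul hs.le, mul_one_div_cancel hp0.ne', Real.rpow_one]
    _ = _ := by rw [hA, hB]; ring

theorem Tp_split (p : ℝ) (hp : 1 ≤ p) (a b a' b' : Alb ℝ) {l : ℝ} (h0 : 0 < l) (h1 : l < 1) :
    Tp p (a + a') (b + b') ≤ l ^ (1 - p) * Tp p a b + (1 - l) ^ (1 - p) * Tp p a' b' := by
  have hp0 : 0 < p := by linarith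
  have h := tri_all p hp a b a' b'
  have e (X : ℝ) (hX : 0 ≤ X) : (X ^ (1 / p)) ^ p = X := by
    rw [← Real.rpow_mul hX, one_div_mul_cancel hp0.ne', Real.rpow_one]
  calc Tp p (a + a') (b + b') = (Tp p (a + a') (b + b') ^ (1 / p)) ^ p := (e _ (Tp_nonneg _ _ _)).symm
    _ ≤ (Tp p a b ^ (1 / p) + Tp p a' b' ^ (1 / p)) ^ p :=
      Real.rpow_le_rpow (Real.rpow_nonneg (Tp_nonneg _ _ _) _) h hp0.le
    _ ≤ l ^ (1 - p) * (Tp p a b ^ (1 / p)) ^ p + (1 - l) ^ (1 - p) * (Tp p a' b' ^ (1 / p)) ^ p :=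
      conv_ineq hp (Real.rpow_nonneg (Tp_nonneg _ _ _) _) (Real.rpow_nonneg (Tp_nonneg _ _ _) _) h0 h1
    _ = _ := by rw [e _ (Tp_nonneg _ _ _), e _ (Tp_nonneg _ _ _)]

/-- the density `(a² + b²)^{p/2}` -/
noncomputable def dens (s : ℝ) (x : Alb ℂ) : Alb ℝ := pw s (reA x, imA x)

theorem memLp_dens {s : ℝ} (hs : 0 < s) {f : Ω → Alb ℂ} (hf : MemLp f ⊤ μ) : MemLp (fun ω => ofR (dens s (f ω))) ⊤ μ :=
  memLp_comp hf (continuous_ofR.comp ((continuous_pw hs).comp (continuous_reA.prodMk continuous_imA)))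

theorem powM_eq {s : ℝ} (hs : 0 < s) (x : LI μ) : τ (powM s hs (mulM (starM x) x)) = TT τ (fun ω => ofR (dens s (x ω))) := by
  rw [TT_eq (memLp_dens hs (Lp.memLp x))]
  have h1 : mulM (starM x) x = (memLp_jm (memLp_star (Lp.memLp x)) (Lp.memLp x)).toLp _ := by
    unfold starM
    conv_lhs => rw [← Lp.toLp_coeFn x (Lp.memLp x)]
    rw [mulM_toLp]
    rw [MemLp.toLp_eq_toLp_iff]
    filter_upwards [(Lp.memLp x).coeFn_toLp] with ω h1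
    rw [h1]
  rw [h1, powM_toLp]
  congr 2
  funext ω
  rw [powA, star_jm_self, reA_ofR]
  rfl

theorem triangle (hτ : IsTrace τ) (p : ℝ) (hp : 1 ≤ p) (x y : LI μ) :
    normP τ p hp (x + y) ≤ normP τ p hp x + normP τ p hp y := by
  unfold normP
  rw [powM_eq, powM_eq, powM_eq]
  have hs := half_pos' hp
  have hx := memLp_dens hs (Lp.memLp x)
  have hy := memLp_dens hs (Lp.memLp y)
  have hxy : MemLp (fun ω => ofR (dens (p / 2) (x ω + y ω))) ⊤ μ := memLp_dens hs ((Lp.memLp x).add (Lp.memLp y))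
  have hT (z : Alb ℂ) : 0 ≤ tr (dens (p / 2) z) := Tp_nonneg p _ _
  have e : TT τ (fun ω => ofR (dens (p / 2) ((x + y : LI μ) ω))) = TT τ (fun ω => ofR (dens (p / 2) (x ω + y ω))) := by
    refine TT_congr (memLp_dens hs (Lp.memLp _)) hxy ?_
    filter_upwards [Lp.coeFn_add x y] with ω hω
    rw [hω]; rfl
  rw [e]
  refine mink_fin hp (TT_nonneg hτ hx fun ω => hT _).1 (TT_nonneg hτ hy fun ω => hT _).1
    (TT_nonneg hτ hxy fun ω => hT _).1 fun l h0 h1 => ?_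
  set c1 := l ^ (1 - p) with hc1
  set c2 := (1 - l) ^ (1 - p) with hc2
  have key := TT_nonneg (μ := μ) (k := fun ω => c1 • dens (p / 2) (x ω) + (c2 • dens (p / 2) (y ω) +
    (-1 : ℝ) • dens (p / 2) (x ω + y ω))) hτ (by
      simp only [ofR_add, ofR_smul]
      exact mAdd (mSmul (c1 : ℂ) hx) (mAdd (mSmul (c2 : ℂ) hy) (mSmul ((-1 : ℝ) : ℂ) hxy))) (by
      intro ω
      rw [tr_add, tr_add, tr_smul, tr_smul, tr_smul]
      have := Tp_split p hp (reA (x ω)) (imA (x ω)) (reA (y ω)) (imA (y ω)) h0 h1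
      have e1 (z : Alb ℂ) : tr (dens (p / 2) z) = Tp p (reA z) (imA z) := rfl
      rw [e1, e1, e1, reA_add, imA_add]
      linarith)
  replace key := key.1
  simp only [ofR_add, ofR_smul] at key
  rw [TT_add (mSmul (c1 : ℂ) hx) (mAdd (mSmul (c2 : ℂ) hy) (mSmul ((-1 : ℝ) : ℂ) hxy)),
    TT_add (mSmul (c2 : ℂ) hy) (mSmul ((-1 : ℝ) : ℂ) hxy), TT_smul (c1 : ℂ) hx, TT_smul (c2 : ℂ) hy,
    TT_smul ((-1 : ℝ) : ℂ) hxy] at key
  simp only [Complex.add_re, Complex.re_ofReal_mul] at key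
  linarith

end

end Pool.Agent.R969.AL
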