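import Pool.Agent.R969.AL.Stm
set_option autoImplicit false

/-! The main theorem. -/

namespace Pool.Agent.R969.AL

open MeasureTheory Filter Topology Polynomial

section
variable {Ω : Type*} [MeasurableSpace Ω] {μ : Measure Ω}

theorem br_mul (f g : LInf μ) : mul f g = (mulM (μ := μ) f g : LI μ) := rfl
theorem br_inv (f : LInf μ) : inv f = (starM (μ := μ) f : LI μ) := rfl
theorem br_unit : unit μ = (oneM μ : LI μ) := rfl

theorem br_npow (a : LInf μ) (n : ℕ) : npow a n = (npowM (μ := μ) a n : LI μ) := by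
  induction n with
  | zero => rfl
  | succ n ih =>
    show mul a (npow a n) = mulM (μ := μ) a (npowM (μ := μ) a n)
    rw [ih]; rfl

theorem br_pol (P : ℝ[X]) (a : LInf μ) : evalPol P a = (polM (μ := μ) P a : LI μ) := by
  unfold evalPol polM
  simp only [Polynomial.sum, br_npow]
  rfl

theorem br_pow {s : ℝ} {a c : LInf μ} : IsPower s a c ↔ IsPow (μ := μ) s a c := by
  unfold IsPower IsPow
  simp only [br_pol]
  rfl

theorem br_trace {τ : LInf μ →ₗ[ℂ] ℂ} (h : IsPosTrace τ) : IsTrace (μ := μ) τ :=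
  ⟨fun a ha => h.pos a ha, fun x y z => h.assoc x y z⟩

theorem br_power {s : ℝ} (hs : 0 < s) (x : LInf μ) :
    power s (mul (inv x) x) = (powM (μ := μ) s hs (mulM (starM (μ := μ) x) x) : LI μ) := by
  have h0 : IsPower s (mul (inv x) x) (powM (μ := μ) s hs (mulM (starM (μ := μ) x) x) : LI μ) :=
    br_pow.mpr (isPow_powM hs (μ := μ) x)
  have h : ∃ c, IsPower s (mul (inv x) x) c := ⟨_, h0⟩
  unfold power
  rw [dif_pos h]
  exact IsPow.unique (μ := μ) hs (br_pow.mp h.choose_spec) (br_pow.mp h0)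

theorem br_pnorm (τ : LInf μ →ₗ[ℂ] ℂ) (p : ℝ) (hp : 1 ≤ p) (x : LInf μ) :
    pnorm τ p x = normP (μ := μ) τ p hp x := by
  unfold pnorm normP
  rw [br_power (half_pos' hp)]; rfl

theorem main {μ : Measure Ω} (τ : LInf μ →ₗ[ℂ] ℂ) (hτ : IsPosTrace τ) (p : ℝ) (hp : 1 ≤ p) :
    (∀ x : LInf μ, (∃! c : LInf μ, IsPower (p / 2) (mul (inv x) x) c) ∧
      IsPower (p / 2) (mul (inv x) x) (power (p / 2) (mul (inv x) x)) ∧
      0 ≤ (τ (power (p / 2) (mul (inv x) x))).re ∧ (τ (power (p / 2) (mul (inv x) x))).im = 0) ∧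
    ∀ x y : LInf μ, pnorm τ p (x + y) ≤ pnorm τ p x + pnorm τ p y := by
  have hs : 0 < p / 2 := half_pos' hp
  have h0 (x : LInf μ) : IsPower (p / 2) (mul (inv x) x) (power (p / 2) (mul (inv x) x)) := by
    rw [br_power hs]; exact br_pow.mpr (isPow_powM hs (μ := μ) x)
  refine ⟨fun x => ⟨⟨_, h0 x, fun d hd => IsPow.unique (μ := μ) hs (br_pow.mp hd) (br_pow.mp (h0 x))⟩, h0 x, ?_⟩,
    fun x y => ?_⟩
  · rw [br_power hs]
    have e := powM_eq (μ := μ) (τ := τ) hs x
    have k := TT_nonneg (br_trace hτ) (memLp_dens (μ := μ) hs (Lp.memLp (E := Alb ℂ) (p := ⊤) x)) fun ω => Tp_nonneg p _ _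
    rw [← e] at k
    exact k
  · rw [br_pnorm τ p hp, br_pnorm τ p hp, br_pnorm τ p hp]
    exact triangle (br_trace hτ) p hp (μ := μ) x y

end

end Pool.Agent.R969.AL
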