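import Pool.Agent.R969.AL.Conv
set_option autoImplicit false

/-! The triangle inequality for `(tr (a² + b²)^{p/2})^{1/p}` on the Albert algebra. -/

namespace Pool.Agent.R969.AL

open Finset

theorem B_self_of_idem {x : Alb ℝ} (hx : jm x x = x) : B x x = tr x := by rw [← tr_jm, hx]

theorem tr_pos_of_idem {x : Alb ℝ} (hx : jm x x = x) (h0 : x ≠ 0) : 0 < tr x := by
  rw [← B_self_of_idem hx]
  exact lt_of_le_of_ne (B_self_nonneg x) (fun h => h0 (B_self_zero h.symm))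

/-- resolutions with nonzero idempotents -/
theorem exists_res' (S : Alb ℝ) : ∃ (F : Finset ℝ) (l : ℝ → ℝ) (e : ℝ → Alb ℝ), IsRes S F l e ∧ ∀ i ∈ F, e i ≠ 0 := by
  classical
  obtain ⟨F, e, h⟩ := exists_res S
  refine ⟨F.filter (fun i => e i ≠ 0), id, e, ⟨?_, ?_, ?_⟩, ?_⟩
  · intro i hi j hj
    exact h.orth i (mem_filter.mp hi).1 j (mem_filter.mp hj).1
  · rw [← h.sum_one, sum_filter]
    refine sum_congr rfl fun i _ => ?_
    split_ifs with h1
    · rfl
    · push Not at h1; exact h1.symm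
  · conv_rhs => rw [← h.sum_eq]
    rw [sum_filter]
    refine sum_congr rfl fun i _ => ?_
    split_ifs with h1
    · rfl
    · push Not at h1; rw [h1, smul_zero]
  · intro i hi; exact (mem_filter.mp hi).2

section
variable {ι κ : Type} [DecidableEq ι] [DecidableEq κ] {S W : Alb ℝ} {F : Finset ι} {l : ι → ℝ} {e : ι → Alb ℝ}
  {G : Finset κ} {m : κ → ℝ} {c : κ → Alb ℝ}

theorem IsRes.B_e (h : IsRes S F l e) {i : ι} (hi : i ∈ F) : B S (e i) = l i * tr (e i) := by
  rw [← tr_jm, h.jm_e hi, tr_smul]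

theorem IsRes.eig_nonneg (h : IsRes S F l e) (h0 : ∀ i ∈ F, e i ≠ 0) (hS : ∀ y, 0 ≤ B S (jm y y)) {i : ι}
    (hi : i ∈ F) : 0 ≤ l i := by
  have h1 := hS (e i)
  rw [h.idem hi, h.B_e hi] at h1
  exact nonneg_of_mul_nonneg_left h1 (tr_pos_of_idem (h.idem hi) (h0 i hi))

theorem IsRes.B_pos (h : IsRes S F l e) (hl : ∀ i ∈ F, 0 < l i) {x : Alb ℝ} (hx : jm x x = x) (h0 : x ≠ 0) :
    0 < B S x := by
  have hnn (i : ι) (hi : i ∈ F) : 0 ≤ B (e i) x := B_idem (h.idem hi) hx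
  rw [← h.sum_eq, sum_B]
  have hsum : 0 < ∑ i ∈ F, B (e i) x := by
    rw [← sum_B, h.sum_one, B_comm, B_one]; exact tr_pos_of_idem hx h0
  obtain ⟨i, hi, hpos⟩ : ∃ i ∈ F, 0 < B (e i) x := by
    by_contra hcon
    push Not at hcon
    exact absurd hsum (not_lt.mpr (Finset.sum_nonpos hcon))
  refine Finset.sum_pos' (fun i hi => ?_) ⟨i, hi, ?_⟩
  · rw [smul_B]; exact mul_nonneg (hl i hi).le (hnn i hi)
  · rw [smul_B]; exact mul_pos (hl i hi) hpos

omit [DecidableEq ι] in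
theorem IsRes.row (hc : IsRes W G m c) (x : Alb ℝ) : ∑ j ∈ G, B x (c j) = tr x := by
  rw [← B_sum, hc.sum_one, B_one]

omit [DecidableEq ι] in
/-- trace of a function as a double sum -/
theorem dbl_left (hc : IsRes W G m c) (f : ι → ℝ) :
    ∑ i ∈ F, f i * tr (e i) = ∑ x ∈ F ×ˢ G, B (e x.1) (c x.2) * f x.1 := by
  rw [sum_product]
  refine sum_congr rfl fun i _ => ?_
  rw [← hc.row (e i), mul_sum]
  exact sum_congr rfl fun j _ => by ring

omit [DecidableEq κ] in
theorem dbl_right (h : IsRes S F l e) (f : κ → ℝ) :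
    ∑ j ∈ G, f j * tr (c j) = ∑ x ∈ F ×ˢ G, B (e x.1) (c x.2) * f x.2 := by
  rw [sum_product_right]
  refine sum_congr rfl fun j _ => ?_
  rw [← h.row (c j), mul_sum]
  exact sum_congr rfl fun i _ => by rw [B_comm]; ring

omit [DecidableEq ι] [DecidableEq κ] in
theorem B_fun (f : ι → ℝ) (g : κ → ℝ) :
    B (∑ i ∈ F, f i • e i) (∑ j ∈ G, g j • c j) = ∑ x ∈ F ×ˢ G, B (e x.1) (c x.2) * (f x.1 * g x.2) := by
  rw [sum_product, sum_B]
  refine sum_congr rfl fun i _ => ?_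
  rw [B_sum]
  exact sum_congr rfl fun j _ => by rw [smul_B, B_smul]; ring

theorem B_fun_self (h : IsRes S F l e) (f g : ι → ℝ) :
    B (∑ i ∈ F, f i • e i) (∑ j ∈ F, g j • e j) = ∑ i ∈ F, f i * g i * tr (e i) := by
  rw [← tr_jm, h.jm_fun, tr_fun]

end

/-- weighted Hölder inequality -/
theorem wholder {ι : Type} (s : Finset ι) (D f g : ι → ℝ) (hD : ∀ i ∈ s, 0 ≤ D i) (hf : ∀ i ∈ s, 0 ≤ f i)
    (hg : ∀ i ∈ s, 0 ≤ g i) {p q : ℝ} (hpq : p.HolderConjugate q) :
    ∑ i ∈ s, D i * (f i * g i) ≤ (∑ i ∈ s, D i * f i ^ p) ^ (1 / p) * (∑ i ∈ s, D i * g i ^ q) ^ (1 / q) := by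
  have h := Real.inner_le_Lp_mul_Lq_of_nonneg s hpq (f := fun i => D i ^ (1 / p) * f i)
    (g := fun i => D i ^ (1 / q) * g i) (fun i hi => mul_nonneg (Real.rpow_nonneg (hD i hi) _) (hf i hi))
    (fun i hi => mul_nonneg (Real.rpow_nonneg (hD i hi) _) (hg i hi))
  have hp0 := hpq.pos
  have hq0 := hpq.symm.pos
  have e1 : ∑ i ∈ s, D i * (f i * g i) = ∑ i ∈ s, D i ^ (1 / p) * f i * (D i ^ (1 / q) * g i) := by
    refine sum_congr rfl fun i hi => ?_
    have : D i = D i ^ (1 / p) * D i ^ (1 / q) := by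
      rw [← Real.rpow_add' (hD i hi)]
      · have : 1 / p + 1 / q = 1 := by
          have := hpq.inv_add_inv_eq_one
          simpa [one_div] using this
        rw [this, Real.rpow_one]
      · have := hpq.inv_add_inv_eq_one
        simp only [one_div]; rw [this]; norm_num
    calc D i * (f i * g i) = (D i ^ (1 / p) * D i ^ (1 / q)) * (f i * g i) := by rw [← this]
      _ = _ := by ring
  have e2 : ∑ i ∈ s, D i * f i ^ p = ∑ i ∈ s, (D i ^ (1 / p) * f i) ^ p := by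
    refine sum_congr rfl fun i hi => ?_
    rw [Real.mul_rpow (Real.rpow_nonneg (hD i hi) _) (hf i hi), ← Real.rpow_mul (hD i hi),
      one_div_mul_cancel hp0.ne', Real.rpow_one]
  have e3 : ∑ i ∈ s, D i * g i ^ q = ∑ i ∈ s, (D i ^ (1 / q) * g i) ^ q := by
    refine sum_congr rfl fun i hi => ?_
    rw [Real.mul_rpow (Real.rpow_nonneg (hD i hi) _) (hg i hi), ← Real.rpow_mul (hD i hi),
      one_div_mul_cancel hq0.ne', Real.rpow_one]
  rw [e1, e2, e3]; exact h

section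
variable {ι κ τ : Type} [DecidableEq ι] [DecidableEq κ] [DecidableEq τ] {S W : Alb ℝ} {F : Finset ι} {l : ι → ℝ}
  {e : ι → Alb ℝ} {G : Finset κ} {m : κ → ℝ} {c : κ → Alb ℝ}

/-- Hölder's inequality for the trace form -/
theorem holder_tr (h : IsRes S F l e) (hc : IsRes W G m c) (hl : ∀ i ∈ F, 0 ≤ l i) (hm : ∀ i ∈ G, 0 ≤ m i)
    {p q : ℝ} (hpq : p.HolderConjugate q) :
    B S W ≤ (∑ i ∈ F, l i ^ p * tr (e i)) ^ (1 / p) * (∑ i ∈ G, m i ^ q * tr (c i)) ^ (1 / q) := by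
  rw [dbl_left hc, dbl_right h, ← h.sum_eq, ← hc.sum_eq, B_fun]
  refine wholder _ _ (fun x : ι × κ => l x.1) (fun x : ι × κ => m x.2) ?_ ?_ ?_ hpq
  · intro x hx
    rw [mem_product] at hx
    exact B_idem (h.idem hx.1) (hc.idem hx.2)
  · intro x hx; rw [mem_product] at hx; exact hl _ hx.1
  · intro x hx; rw [mem_product] at hx; exact hm _ hx.2

/-- the reverse type estimate used for `p < 2` -/
theorem holder_inv (h : IsRes S F l e) (hc : IsRes W G m c) (hl : ∀ i ∈ F, 0 ≤ l i) (hm : ∀ i ∈ G, 0 < m i)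
    {p : ℝ} (h1 : 1 ≤ p) (h2 : p < 2) :
    ∑ i ∈ F, l i ^ (p / 2) * tr (e i) ≤ (B S (∑ j ∈ G, (m j)⁻¹ • c j)) ^ (p / 2) *
      (∑ j ∈ G, m j ^ (p / (2 - p)) * tr (c j)) ^ ((2 - p) / 2) := by
  have hpq : (2 / p).HolderConjugate (2 / (2 - p)) := by
    rw [Real.holderConjugate_iff]
    refine ⟨by rw [lt_div_iff₀ (by linarith)]; linarith, ?_⟩
    have : (2:ℝ) - p ≠ 0 := by linarith
    have : p ≠ 0 := by linarith
    field_simp; ring
  rw [dbl_left hc, dbl_right h]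
  conv_rhs => rw [← h.sum_eq]
  rw [B_fun]
  have key := wholder (F ×ˢ G) (fun x => B (e x.1) (c x.2)) (fun x => (l x.1 * (m x.2)⁻¹) ^ (p / 2))
    (fun x => m x.2 ^ (p / 2)) (by
      intro x hx
      rw [mem_product] at hx
      exact B_idem (h.idem hx.1) (hc.idem hx.2)) (by
      intro x hx
      rw [mem_product] at hx
      exact Real.rpow_nonneg (mul_nonneg (hl _ hx.1) (inv_nonneg.mpr (hm _ hx.2).le)) _) (by
      intro x hx
      rw [mem_product] at hx
      exact Real.rpow_nonneg (hm _ hx.2).le _) hpq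
  have e1 : ∑ x ∈ F ×ˢ G, B (e x.1) (c x.2) * l x.1 ^ (p / 2) =
      ∑ x ∈ F ×ˢ G, B (e x.1) (c x.2) * ((l x.1 * (m x.2)⁻¹) ^ (p / 2) * m x.2 ^ (p / 2)) := by
    refine sum_congr rfl fun x hx => ?_
    rw [mem_product] at hx
    rw [← Real.mul_rpow (mul_nonneg (hl _ hx.1) (inv_nonneg.mpr (hm _ hx.2).le)) (hm _ hx.2).le,
      inv_mul_cancel_right₀ (hm _ hx.2).ne']
  have e2 : ∑ x ∈ F ×ˢ G, B (e x.1) (c x.2) * ((l x.1 * (m x.2)⁻¹) ^ (p / 2)) ^ (2 / p) =
      ∑ x ∈ F ×ˢ G, B (e x.1) (c x.2) * (l x.1 * (m x.2)⁻¹) := by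
    refine sum_congr rfl fun x hx => ?_
    rw [mem_product] at hx
    rw [← Real.rpow_mul (mul_nonneg (hl _ hx.1) (inv_nonneg.mpr (hm _ hx.2).le))]
    have : p / 2 * (2 / p) = 1 := by have : p ≠ 0 := by linarith
                                     field_simp
    rw [this, Real.rpow_one]
  have e3 : ∑ x ∈ F ×ˢ G, B (e x.1) (c x.2) * (m x.2 ^ (p / 2)) ^ (2 / (2 - p)) =
      ∑ x ∈ F ×ˢ G, B (e x.1) (c x.2) * m x.2 ^ (p / (2 - p)) := by
    refine sum_congr rfl fun x hx => ?_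
    rw [mem_product] at hx
    rw [← Real.rpow_mul (hm _ hx.2).le]
    have : p / 2 * (2 / (2 - p)) = p / (2 - p) := by
      have : (2:ℝ) - p ≠ 0 := by linarith
      field_simp
    rw [this]
  rw [e2, e3, ← e1, one_div_div, one_div_div] at key
  exact key

/-- triangle inequality for positive elements -/
theorem tri_pos {w w' : Alb ℝ} {F' : Finset τ} {l' : τ → ℝ} {e' : τ → Alb ℝ} (h : IsRes w F l e)
    (h' : IsRes w' F' l' e') (hc : IsRes (w + w') G m c) (hl : ∀ i ∈ F, 0 ≤ l i) (hl' : ∀ i ∈ F', 0 ≤ l' i)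
    (hm : ∀ i ∈ G, 0 ≤ m i) {q : ℝ} (hq : 1 ≤ q) :
    (∑ i ∈ G, m i ^ q * tr (c i)) ^ (1 / q) ≤
      (∑ i ∈ F, l i ^ q * tr (e i)) ^ (1 / q) + (∑ i ∈ F', l' i ^ q * tr (e' i)) ^ (1 / q) := by
  rcases eq_or_lt_of_le hq with hq1 | hq1
  · rw [← hq1]
    simp only [Real.rpow_one, div_one]
    rw [← tr_fun, ← tr_fun, ← tr_fun, h.sum_eq, h'.sum_eq, hc.sum_eq, tr_add]
  · set T := ∑ i ∈ G, m i ^ q * tr (c i) with hT
    set T1 := ∑ i ∈ F, l i ^ q * tr (e i) with hT1
    set T2 := ∑ i ∈ F', l' i ^ q * tr (e' i) with hT2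
    have hT0 : 0 ≤ T := sum_nonneg fun i hi => mul_nonneg (Real.rpow_nonneg (hm i hi) _) (hc.tr_nonneg hi)
    have hT10 : 0 ≤ T1 := sum_nonneg fun i hi => mul_nonneg (Real.rpow_nonneg (hl i hi) _) (h.tr_nonneg hi)
    have hT20 : 0 ≤ T2 := sum_nonneg fun i hi => mul_nonneg (Real.rpow_nonneg (hl' i hi) _) (h'.tr_nonneg hi)
    rcases eq_or_lt_of_le hT0 with h0 | h0
    · rw [← h0, Real.zero_rpow (by simp; linarith)]
      exact add_nonneg (Real.rpow_nonneg hT10 _) (Real.rpow_nonneg hT20 _)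
    have hpq : q.HolderConjugate (q / (q - 1)) := by
      rw [Real.holderConjugate_iff]
      refine ⟨hq1, ?_⟩
      have : q ≠ 0 := by linarith
      have : q - 1 ≠ 0 := by linarith
      field_simp; ring
    have hWr := hc.map (fun i => m i ^ (q - 1))
    set W' := ∑ i ∈ G, m i ^ (q - 1) • c i with hW'
    have hBW : B (w + w') W' = T := by
      conv_lhs => rw [← hc.sum_eq]
      rw [hW', B_fun_self hc, hT]
      refine sum_congr rfl fun i hi => ?_
      congr 1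
      rcases eq_or_lt_of_le (hm i hi) with hz | hz
      · rw [← hz, Real.zero_rpow (by linarith : q ≠ 0), zero_mul]
      · rw [Real.rpow_sub_one hz.ne']; field_simp
    have hconj : ∑ i ∈ G, (m i ^ (q - 1)) ^ (q / (q - 1)) * tr (c i) = T := by
      rw [hT]
      refine sum_congr rfl fun i hi => ?_
      rw [← Real.rpow_mul (hm i hi)]
      have : (q - 1) * (q / (q - 1)) = q := by
        have : q - 1 ≠ 0 := by linarith
        field_simp
      rw [this]
    have a1 := holder_tr h hWr hl (fun i hi => Real.rpow_nonneg (hm i hi) _) hpq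
    have a2 := holder_tr h' hWr hl' (fun i hi => Real.rpow_nonneg (hm i hi) _) hpq
    rw [hconj, ← hT1] at a1
    rw [hconj, ← hT2] at a2
    rw [add_B] at hBW
    have hTT : T ≤ (T1 ^ (1 / q) + T2 ^ (1 / q)) * T ^ (1 / (q / (q - 1))) := by
      rw [← hBW] at *
      rw [add_mul]; exact add_le_add a1 a2
    have hsplit : T = T ^ (1 / q) * T ^ (1 / (q / (q - 1))) := by
      rw [← Real.rpow_add h0]
      have : 1 / q + 1 / (q / (q - 1)) = 1 := by
        have : q ≠ 0 := by linarith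
        have : q - 1 ≠ 0 := by linarith
        field_simp; ring
      rw [this, Real.rpow_one]
    have hp : 0 < T ^ (1 / (q / (q - 1))) := Real.rpow_pos_of_pos h0 _
    refine le_of_mul_le_mul_right ?_ hp
    rw [← hsplit]; exact hTT

end

/-- `a² + b²` -/
noncomputable def msq (a b : Alb ℝ) : Alb ℝ := jm a a + jm b b

theorem msq_pos (a b y : Alb ℝ) : 0 ≤ B (msq a b) (jm y y) := by
  rw [msq, add_B]; exact add_nonneg (B_sq_sq a y) (B_sq_sq b y)

/-- `tr (a² + b²)^{p/2}` -/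
noncomputable def Tp (p : ℝ) (a b : Alb ℝ) : ℝ := tr (fc (fun t => t ^ (p / 2)) (msq a b))

theorem exists_res_msq (a b : Alb ℝ) : ∃ (F : Finset ℝ) (l : ℝ → ℝ) (e : ℝ → Alb ℝ), IsRes (msq a b) F l e ∧
    (∀ i ∈ F, e i ≠ 0) ∧ (∀ i ∈ F, 0 ≤ l i) := by
  obtain ⟨F, l, e, h, h0⟩ := exists_res' (msq a b)
  exact ⟨F, l, e, h, h0, fun i hi => h.eig_nonneg h0 (msq_pos a b) hi⟩

theorem Tp_eq {ι : Type} [DecidableEq ι] {F : Finset ι} {l : ι → ℝ} {e : ι → Alb ℝ} {a b : Alb ℝ}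
    (h : IsRes (msq a b) F l e) (p : ℝ) : Tp p a b = ∑ i ∈ F, l i ^ (p / 2) * tr (e i) := by
  rw [Tp, fc_eq h, tr_fun]

theorem Tp_nonneg (p : ℝ) (a b : Alb ℝ) : 0 ≤ Tp p a b := by
  obtain ⟨F, l, e, h, h0, hl⟩ := exists_res_msq a b
  rw [Tp_eq h]
  exact sum_nonneg fun i hi => mul_nonneg (Real.rpow_nonneg (hl i hi) _) (h.tr_nonneg hi)

/-- case `p ≥ 2` -/
theorem tri_ge (p : ℝ) (hp : 2 ≤ p) (a b a' b' : Alb ℝ) :
    Tp p (a + a') (b + b') ^ (1 / p) ≤ Tp p a b ^ (1 / p) + Tp p a' b' ^ (1 / p) := by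
  obtain ⟨F, l, e, h, h0, hl⟩ := exists_res_msq (a + a') (b + b')
  obtain ⟨F1, l1, e1, k1, k10, hl1⟩ := exists_res_msq a b
  obtain ⟨F2, l2, e2, k2, k20, hl2⟩ := exists_res_msq a' b'
  set T := Tp p (a + a') (b + b') with hT
  set T1 := Tp p a b with hT1
  set T2 := Tp p a' b' with hT2
  have nT := Tp_nonneg p (a + a') (b + b')
  have nT1 := Tp_nonneg p a b
  have nT2 := Tp_nonneg p a' b'
  rw [← hT] at nT
  rw [← hT1] at nT1
  rw [← hT2] at nT2
  rcases eq_or_lt_of_le nT with hz | hz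
  · rw [← hz, Real.zero_rpow (by simp; linarith)]
    exact add_nonneg (Real.rpow_nonneg nT1 _) (Real.rpow_nonneg nT2 _)
  -- the weight
  have hWr := h.map (fun i => l i ^ (p / 2 - 1))
  set W := ∑ i ∈ F, l i ^ (p / 2 - 1) • e i with hW
  have hWn (y : Alb ℝ) : 0 ≤ B (jm y y) W := by
    rw [hW, B_sum]
    refine sum_nonneg fun i hi => ?_
    rw [B_smul]
    refine mul_nonneg (Real.rpow_nonneg (hl i hi) _) ?_
    have := B_sq_sq y (e i)
    rwa [h.idem hi] at this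
  have hBW : B (msq (a + a') (b + b')) W = T := by
    conv_lhs => rw [← h.sum_eq]
    rw [hW, B_fun_self h, hT, Tp_eq h]
    refine sum_congr rfl fun i hi => ?_
    congr 1
    rcases eq_or_lt_of_le (hl i hi) with hz | hz
    · rw [← hz, Real.zero_rpow (by linarith : p / 2 ≠ 0), zero_mul]
    · rw [Real.rpow_sub_one hz.ne']; field_simp
  -- bound for each piece
  have piece (x y : Alb ℝ) {F' : Finset ℝ} {l' : ℝ → ℝ} {e' : ℝ → Alb ℝ} (k : IsRes (msq x y) F' l' e')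
      (hl' : ∀ i ∈ F', 0 ≤ l' i) : B (msq x y) W ≤ (Tp p x y ^ (1 / p)) ^ 2 * T ^ (1 - 2 / p) := by
    rcases eq_or_lt_of_le hp with h2 | h2
    · have hW1 : W = one := by
        rw [hW, ← h.sum_one]
        refine sum_congr rfl fun i hi => ?_
        rw [← h2]; norm_num
      rw [hW1, B_one, ← h2]
      have e3 : Tp 2 x y = tr (msq x y) := by
        rw [Tp_eq k]
        conv_rhs => rw [← k.sum_eq, tr_fun]
        norm_num
      rw [e3]
      have nn : 0 ≤ tr (msq x y) := by rw [← e3]; exact Tp_nonneg 2 x y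
      have e4 : (tr (msq x y) ^ ((1:ℝ) / 2)) ^ 2 = tr (msq x y) := by
        rw [← Real.sqrt_eq_rpow, Real.sq_sqrt nn]
      rw [e4]; norm_num
    · have hpq : (p / 2).HolderConjugate (p / (p - 2)) := by
        rw [Real.holderConjugate_iff]
        refine ⟨by linarith, ?_⟩
        have : p ≠ 0 := by linarith
        have : p - 2 ≠ 0 := by linarith
        field_simp; ring
      have key := holder_tr k hWr hl' (fun i hi => Real.rpow_nonneg (hl i hi) _) hpq
      rw [← Tp_eq k] at key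
      have hconj : ∑ i ∈ F, (l i ^ (p / 2 - 1)) ^ (p / (p - 2)) * tr (e i) = T := by
        rw [hT, Tp_eq h]
        refine sum_congr rfl fun i hi => ?_
        rw [← Real.rpow_mul (hl i hi)]
        have : (p / 2 - 1) * (p / (p - 2)) = p / 2 := by
          have : p - 2 ≠ 0 := by linarith
          field_simp
        rw [this]
      rw [hconj] at key
      have e5 : Tp p x y ^ (1 / (p / 2)) = (Tp p x y ^ (1 / p)) ^ 2 := by
        rw [← Real.rpow_natCast, ← Real.rpow_mul (Tp_nonneg p x y)]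
        congr 1; push_cast; field_simp
      have e6 : (1 : ℝ) / (p / (p - 2)) = 1 - 2 / p := by
        have : p ≠ 0 := by linarith
        have : p - 2 ≠ 0 := by linarith
        field_simp
      rw [e5, e6] at key
      exact key
  have b1 := piece a b k1 hl1
  have b2 := piece a' b' k2 hl2
  rw [← hT1] at b1
  rw [← hT2] at b2
  set A1 := B (msq a b) W with hA1
  set A2 := B (msq a' b') W with hA2
  set M := B (jm a a') W + B (jm b b') W with hM
  have hquad (t : ℝ) : 0 ≤ A1 * (t * t) + 2 * M * t + A2 := by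
    have q1 := hWn (t • a + a')
    have q2 := hWn (t • b + b')
    have : B (jm (t • a + a') (t • a + a')) W + B (jm (t • b + b') (t • b + b')) W =
        A1 * (t * t) + 2 * M * t + A2 := by
      rw [hA1, hA2, hM, msq, msq]
      simp only [add_jm, jm_add, smul_jm, jm_smul, add_B, smul_B, jm_comm a' a, jm_comm b' b]
      ring
    rw [← this]; exact add_nonneg q1 q2
  have hdisc := discrim_le_zero hquad
  rw [discrim] at hdisc
  have hA10 : 0 ≤ A1 := by rw [hA1, msq, add_B]; exact add_nonneg (hWn a) (hWn b)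
  have hA20 : 0 ≤ A2 := by rw [hA2, msq, add_B]; exact add_nonneg (hWn a') (hWn b')
  have hexp : T = A1 + 2 * M + A2 := by
    rw [← hBW, hA1, hA2, hM, msq, msq, msq]
    simp only [add_jm, jm_add, add_B, jm_comm a' a, jm_comm b' b]
    ring
  set u := T1 ^ (1 / p) with hu
  set v := T2 ^ (1 / p) with hv
  have hu0 : 0 ≤ u := Real.rpow_nonneg nT1 _
  have hv0 : 0 ≤ v := Real.rpow_nonneg nT2 _
  set R := T ^ (1 - 2 / p) with hR
  have hRp : 0 < R := Real.rpow_pos_of_pos hz _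
  have hMle : M ≤ u * v * R := by
    have h3 : M ^ 2 ≤ (u * v * R) ^ 2 := by
      have : M ^ 2 ≤ A1 * A2 := by nlinarith
      have h5 : A1 * A2 ≤ (u ^ 2 * R) * (v ^ 2 * R) := mul_le_mul b1 b2 hA20 (by positivity)
      nlinarith
    exact (abs_le.mp (abs_le_of_sq_le_sq' h3 (by positivity) |> fun h => abs_le.mpr h)).2
  have hfin : T ≤ (u + v) ^ 2 * R := by rw [hexp]; nlinarith
  have hTs : T = (T ^ (1 / p)) ^ 2 * R := by
    rw [hR, ← Real.rpow_natCast, ← Real.rpow_mul hz.le, ← Real.rpow_add hz]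
    have : 1 / p * ((2 : ℕ) : ℝ) + (1 - 2 / p) = 1 := by push_cast; ring
    rw [this, Real.rpow_one]
  have h7 : (T ^ (1 / p)) ^ 2 * R ≤ (u + v) ^ 2 * R := by rw [← hTs]; exact hfin
  have h8 := le_of_mul_le_mul_right h7 hRp
  exact le_of_sq_le_sq h8 (by positivity) |> fun h => h

end Pool.Agent.R969.AL
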