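import Pool.Agent.R969.AL.Norm
set_option autoImplicit false

/-! The triangle inequality for `1 ≤ p < 2`. -/

namespace Pool.Agent.R969.AL

open Finset Filter Topology

theorem tr_one : tr (one : Alb ℝ) = 3 := by simp only [tr, one]; norm_num

/-- data attached to one element: the perturbed norm `Θ` and the weight -/
theorem theta_data {F : Finset ℝ} {l : ℝ → ℝ} {e : ℝ → Alb ℝ} {S : Alb ℝ} (k : IsRes S F l e)
    (hl : ∀ i ∈ F, 0 ≤ l i) {p δ : ℝ} (h1 : 1 ≤ p) (h2 : p < 2) (hδ : 0 < δ) (Θ : ℝ)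
    (hΘ : Θ = (∑ i ∈ F, (l i + δ) ^ (p / 2) * tr (e i)) ^ (1 / p)) :
    0 < Θ ∧ (∀ i ∈ F, 0 < Θ ^ (p - 1) * (l i + δ) ^ (1 - p / 2)) ∧
    B S (∑ i ∈ F, (Θ ^ (p - 1) * (l i + δ) ^ (1 - p / 2))⁻¹ • e i) ≤ Θ ∧
    (∑ i ∈ F, (Θ ^ (p - 1) * (l i + δ) ^ (1 - p / 2)) ^ (p / (2 - p)) * tr (e i)) ^ (1 / (p / (2 - p))) = Θ := by
  set U := ∑ i ∈ F, (l i + δ) ^ (p / 2) * tr (e i) with hU
  have hpos (i : ℝ) (hi : i ∈ F) : 0 < l i + δ := by have := hl i hi; linarith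
  have hUpos : 0 < U := by
    have h3 : ∑ i ∈ F, δ ^ (p / 2) * tr (e i) ≤ U := by
      refine sum_le_sum fun i hi => mul_le_mul_of_nonneg_right ?_ (k.tr_nonneg hi)
      exact Real.rpow_le_rpow hδ.le (by have := hl i hi; linarith) (by linarith)
    have h4 : ∑ i ∈ F, δ ^ (p / 2) * tr (e i) = δ ^ (p / 2) * 3 := by
      rw [← mul_sum, ← tr_one, ← k.sum_one]
      congr 1
      have := tr_fun (F := F) (e := e) (fun _ => (1:ℝ))
      simpa using this.symm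
    have := Real.rpow_pos_of_pos hδ (p / 2)
    rw [h4] at h3; linarith
  have hΘpos : 0 < Θ := by rw [hΘ]; exact Real.rpow_pos_of_pos hUpos _
  have hΘp : Θ ^ p = U := by
    rw [hΘ, ← Real.rpow_mul hUpos.le, one_div_mul_cancel (by linarith), Real.rpow_one]
  refine ⟨hΘpos, fun i hi => mul_pos (Real.rpow_pos_of_pos hΘpos _) (Real.rpow_pos_of_pos (hpos i hi) _), ?_, ?_⟩
  · conv_lhs => rw [← k.sum_eq]
    rw [B_fun_self k]
    have h5 : ∀ i ∈ F, l i * (Θ ^ (p - 1) * (l i + δ) ^ (1 - p / 2))⁻¹ * tr (e i) ≤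
        (Θ ^ (p - 1))⁻¹ * ((l i + δ) ^ (p / 2) * tr (e i)) := by
      intro i hi
      have hp := hpos i hi
      have e1 : (l i + δ) ^ (p / 2) = (l i + δ) * ((l i + δ) ^ (1 - p / 2))⁻¹ := by
        rw [← Real.rpow_neg hp.le]
        nth_rewrite 2 [← Real.rpow_one (l i + δ)]
        rw [← Real.rpow_add hp]; congr 1; ring
      rw [e1, mul_inv]
      have hA : 0 < (Θ ^ (p - 1))⁻¹ := inv_pos.mpr (Real.rpow_pos_of_pos hΘpos _)
      have hC : 0 < ((l i + δ) ^ (1 - p / 2))⁻¹ := inv_pos.mpr (Real.rpow_pos_of_pos hp _)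
      have ht := k.tr_nonneg hi
      have : l i * ((Θ ^ (p - 1))⁻¹ * ((l i + δ) ^ (1 - p / 2))⁻¹) * tr (e i) ≤
        (l i + δ) * ((Θ ^ (p - 1))⁻¹ * ((l i + δ) ^ (1 - p / 2))⁻¹) * tr (e i) := by
        apply mul_le_mul_of_nonneg_right _ ht
        apply mul_le_mul_of_nonneg_right (by linarith) (by positivity)
      linarith [this]
    refine (sum_le_sum h5).trans ?_
    rw [← mul_sum, ← hU, ← hΘp, ← Real.rpow_neg hΘpos.le, ← Real.rpow_add hΘpos]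
    have : -(p - 1) + p = 1 := by ring
    rw [this, Real.rpow_one]
  · have hp0 : p ≠ 0 := by linarith
    have hp2 : (2:ℝ) - p ≠ 0 := by linarith
    have e2 : ∑ i ∈ F, (Θ ^ (p - 1) * (l i + δ) ^ (1 - p / 2)) ^ (p / (2 - p)) * tr (e i) =
        Θ ^ ((p - 1) * (p / (2 - p))) * Θ ^ p := by
      rw [hΘp, hU, mul_sum]
      refine sum_congr rfl fun i hi => ?_
      have hp := hpos i hi
      rw [Real.mul_rpow (Real.rpow_nonneg hΘpos.le _) (Real.rpow_nonneg hp.le _), ← Real.rpow_mul hΘpos.le,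
        ← Real.rpow_mul hp.le]
      have : (1 - p / 2) * (p / (2 - p)) = p / 2 := by field_simp
      rw [this]; ring
    rw [e2, ← Real.rpow_add hΘpos, ← Real.rpow_mul hΘpos.le]
    have : ((p - 1) * (p / (2 - p)) + p) * (1 / (p / (2 - p))) = 1 := by field_simp; ring
    rw [this, Real.rpow_one]

theorem tri_lt_aux (p : ℝ) (h1 : 1 ≤ p) (h2 : p < 2) (a b a' b' : Alb ℝ) {F1 F2 : Finset ℝ} {l1 l2 : ℝ → ℝ}
    {e1 e2 : ℝ → Alb ℝ} (k1 : IsRes (msq a b) F1 l1 e1) (k2 : IsRes (msq a' b') F2 l2 e2)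
    (hl1 : ∀ i ∈ F1, 0 ≤ l1 i) (hl2 : ∀ i ∈ F2, 0 ≤ l2 i) (δ : ℝ) (hδ : 0 < δ) :
    Tp p (a + a') (b + b') ^ (1 / p) ≤ (∑ i ∈ F1, (l1 i + δ) ^ (p / 2) * tr (e1 i)) ^ (1 / p) +
      (∑ i ∈ F2, (l2 i + δ) ^ (p / 2) * tr (e2 i)) ^ (1 / p) := by
  set Θ1 := (∑ i ∈ F1, (l1 i + δ) ^ (p / 2) * tr (e1 i)) ^ (1 / p) with hΘ1
  set Θ2 := (∑ i ∈ F2, (l2 i + δ) ^ (p / 2) * tr (e2 i)) ^ (1 / p) with hΘ2
  obtain ⟨t1, g1, B1, N1⟩ := theta_data k1 hl1 h1 h2 hδ Θ1 hΘ1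
  obtain ⟨t2, g2, B2, N2⟩ := theta_data k2 hl2 h1 h2 hδ Θ2 hΘ2
  have r1 := k1.map (fun i => Θ1 ^ (p - 1) * (l1 i + δ) ^ (1 - p / 2))
  have r2 := k2.map (fun i => Θ2 ^ (p - 1) * (l2 i + δ) ^ (1 - p / 2))
  set w1 := ∑ i ∈ F1, (Θ1 ^ (p - 1) * (l1 i + δ) ^ (1 - p / 2)) • e1 i with hw1
  set w2 := ∑ i ∈ F2, (Θ2 ^ (p - 1) * (l2 i + δ) ^ (1 - p / 2)) • e2 i with hw2
  obtain ⟨G, m, c, hc, hc0⟩ := exists_res' (w1 + w2)
  have hm : ∀ j ∈ G, 0 < m j := by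
    intro j hj
    have hid := hc.idem hj
    have q1 := r1.B_pos g1 hid (hc0 j hj)
    have q2 := r2.B_pos g2 hid (hc0 j hj)
    have q3 := hc.B_e hj
    rw [add_B] at q3
    have q4 : 0 < m j * tr (c j) := by rw [← q3]; exact add_pos q1 q2
    exact (mul_pos_iff_of_pos_right (tr_pos_of_idem hid (hc0 j hj))).mp q4
  obtain ⟨F, l, e, h, h0, hl⟩ := exists_res_msq (a + a') (b + b')
  have c1 := conv_inv r1 r2 hc g1 g2 hm a a'
  have c2 := conv_inv r1 r2 hc g1 g2 hm b b'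
  have hBle : B (msq (a + a') (b + b')) (∑ j ∈ G, (m j)⁻¹ • c j) ≤ Θ1 + Θ2 := by
    rw [msq, add_B] at B1 B2 ⊢
    linarith
  have hB0 : 0 ≤ B (msq (a + a') (b + b')) (∑ j ∈ G, (m j)⁻¹ • c j) := by
    rw [B_sum]
    refine sum_nonneg fun j hj => ?_
    rw [B_smul]
    refine mul_nonneg (inv_nonneg.mpr (hm j hj).le) ?_
    have := msq_pos (a + a') (b + b') (c j)
    rwa [hc.idem hj] at this
  have hh := holder_inv h hc hl hm h1 h2
  rw [← Tp_eq h] at hh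
  have hq : 1 ≤ p / (2 - p) := by rw [le_div_iff₀ (by linarith)]; linarith
  have ht := tri_pos r1 r2 hc (fun i hi => (g1 i hi).le) (fun i hi => (g2 i hi).le) (fun i hi => (hm i hi).le) hq
  rw [N1, N2] at ht
  set V := ∑ i ∈ G, m i ^ (p / (2 - p)) * tr (c i) with hV
  have hV0 : 0 ≤ V := sum_nonneg fun i hi => mul_nonneg (Real.rpow_nonneg (hm i hi).le _) (hc.tr_nonneg hi)
  have hp0 : p ≠ 0 := by linarith
  have hp2 : (2:ℝ) - p ≠ 0 := by linarith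
  have hVe : V ^ ((2 - p) / 2) = (V ^ (1 / (p / (2 - p)))) ^ (p / 2) := by
    rw [← Real.rpow_mul hV0]; congr 1; field_simp
  have hVle : V ^ ((2 - p) / 2) ≤ (Θ1 + Θ2) ^ (p / 2) := by
    rw [hVe]; exact Real.rpow_le_rpow (Real.rpow_nonneg hV0 _) ht (by linarith)
  have hBp : B (msq (a + a') (b + b')) (∑ j ∈ G, (m j)⁻¹ • c j) ^ (p / 2) ≤ (Θ1 + Θ2) ^ (p / 2) :=
    Real.rpow_le_rpow hB0 hBle (by linarith)
  have hΘ : 0 < Θ1 + Θ2 := add_pos t1 t2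
  have hfin : Tp p (a + a') (b + b') ≤ (Θ1 + Θ2) ^ p := by
    refine hh.trans ((mul_le_mul hBp hVle (Real.rpow_nonneg hV0 _) (Real.rpow_nonneg hΘ.le _)).trans ?_)
    rw [← Real.rpow_add hΘ, add_halves]
  calc Tp p (a + a') (b + b') ^ (1 / p) ≤ ((Θ1 + Θ2) ^ p) ^ (1 / p) :=
        Real.rpow_le_rpow (Tp_nonneg _ _ _) hfin (by positivity)
    _ = Θ1 + Θ2 := by rw [← Real.rpow_mul hΘ.le, mul_one_div_cancel hp0, Real.rpow_one]

theorem tri_lt (p : ℝ) (h1 : 1 ≤ p) (h2 : p < 2) (a b a' b' : Alb ℝ) :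
    Tp p (a + a') (b + b') ^ (1 / p) ≤ Tp p a b ^ (1 / p) + Tp p a' b' ^ (1 / p) := by
  obtain ⟨F1, l1, e1, k1, k10, hl1⟩ := exists_res_msq a b
  obtain ⟨F2, l2, e2, k2, k20, hl2⟩ := exists_res_msq a' b'
  have hcont (F : Finset ℝ) (l : ℝ → ℝ) (e : ℝ → Alb ℝ) :
      Continuous (fun δ : ℝ => (∑ i ∈ F, (l i + δ) ^ (p / 2) * tr (e i)) ^ (1 / p)) := by
    refine Continuous.rpow_const ?_ (fun _ => Or.inr (by positivity))
    refine continuous_finsetSum _ fun i _ => Continuous.mul ?_ continuous_const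
    exact Continuous.rpow_const (by fun_prop) (fun _ => Or.inr (by linarith))
  have hc : Continuous (fun δ : ℝ => (∑ i ∈ F1, (l1 i + δ) ^ (p / 2) * tr (e1 i)) ^ (1 / p) +
      (∑ i ∈ F2, (l2 i + δ) ^ (p / 2) * tr (e2 i)) ^ (1 / p)) := (hcont F1 l1 e1).add (hcont F2 l2 e2)
  have ht : Tendsto (fun δ : ℝ => (∑ i ∈ F1, (l1 i + δ) ^ (p / 2) * tr (e1 i)) ^ (1 / p) +
      (∑ i ∈ F2, (l2 i + δ) ^ (p / 2) * tr (e2 i)) ^ (1 / p)) (𝓝[>] 0)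
      (𝓝 (Tp p a b ^ (1 / p) + Tp p a' b' ^ (1 / p))) := by
    have := hc.tendsto 0
    simp only [add_zero] at this
    rw [Tp_eq k1, Tp_eq k2]
    exact this.mono_left nhdsWithin_le_nhds
  refine ge_of_tendsto ht ?_
  filter_upwards [self_mem_nhdsWithin] with δ hδ
  exact tri_lt_aux p h1 h2 a b a' b' k1 k2 hl1 hl2 δ hδ

/-- **The triangle inequality on the Albert algebra**, all `p ≥ 1`. -/
theorem tri_all (p : ℝ) (hp : 1 ≤ p) (a b a' b' : Alb ℝ) :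
    Tp p (a + a') (b + b') ^ (1 / p) ≤ Tp p a b ^ (1 / p) + Tp p a' b' ^ (1 / p) := by
  rcases lt_or_ge p 2 with h | h
  · exact tri_lt p hp h a b a' b'
  · exact tri_ge p h a b a' b'

end Pool.Agent.R969.AL
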