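import Pool.Agent.R969.AL.Def
set_option autoImplicit false
set_option linter.unusedSimpArgs false

/-! Octonions over a commutative ring (Cayley–Dickson double of the quaternions), as `Fin 8 → K`. -/

namespace Pool.Agent.R969.AL

section
variable {K : Type*} [CommRing K]

theorem omul_0 (x y : Oct K) : omul x y 0 =
  x 0*y 0 - x 1*y 1 - x 2*y 2 - x 3*y 3 - x 4*y 4 - x 5*y 5 - x 6*y 6 - x 7*y 7 := rfl
theorem omul_1 (x y : Oct K) : omul x y 1 =
   x 0*y 1 + x 1*y 0 + x 2*y 3 - x 3*y 2 - (y 4*x 5 - y 5*x 4 - y 6*x 7 + y 7*x 6) := rfl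
theorem omul_2 (x y : Oct K) : omul x y 2 =
   x 0*y 2 - x 1*y 3 + x 2*y 0 + x 3*y 1 - (y 4*x 6 + y 5*x 7 - y 6*x 4 - y 7*x 5) := rfl
theorem omul_3 (x y : Oct K) : omul x y 3 =
   x 0*y 3 + x 1*y 2 - x 2*y 1 + x 3*y 0 - (y 4*x 7 - y 5*x 6 + y 6*x 5 - y 7*x 4) := rfl
theorem omul_4 (x y : Oct K) : omul x y 4 =
   y 4*x 0 - y 5*x 1 - y 6*x 2 - y 7*x 3 + (x 4*y 0 + x 5*y 1 + x 6*y 2 + x 7*y 3) := rfl
theorem omul_5 (x y : Oct K) : omul x y 5 =
   y 4*x 1 + y 5*x 0 + y 6*x 3 - y 7*x 2 + (-x 4*y 1 + x 5*y 0 - x 6*y 3 + x 7*y 2) := rfl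
theorem omul_6 (x y : Oct K) : omul x y 6 =
   y 4*x 2 - y 5*x 3 + y 6*x 0 + y 7*x 1 + (-x 4*y 2 + x 5*y 3 + x 6*y 0 - x 7*y 1) := rfl
theorem omul_7 (x y : Oct K) : omul x y 7 =
   y 4*x 3 + y 5*x 2 - y 6*x 1 + y 7*x 0 + (-x 4*y 3 - x 5*y 2 + x 6*y 1 + x 7*y 0) := rfl
theorem cj_0 (x : Oct K) : cj x 0 = x 0 := rfl
theorem cj_1 (x : Oct K) : cj x 1 = -x 1 := rfl
theorem cj_2 (x : Oct K) : cj x 2 = -x 2 := rfl
theorem cj_3 (x : Oct K) : cj x 3 = -x 3 := rfl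
theorem cj_4 (x : Oct K) : cj x 4 = -x 4 := rfl
theorem cj_5 (x : Oct K) : cj x 5 = -x 5 := rfl
theorem cj_6 (x : Oct K) : cj x 6 = -x 6 := rfl
theorem cj_7 (x : Oct K) : cj x 7 = -x 7 := rfl

omit [CommRing K] in
theorem oext {x y : Oct K} (h0 : x 0 = y 0) (h1 : x 1 = y 1) (h2 : x 2 = y 2) (h3 : x 3 = y 3)
    (h4 : x 4 = y 4) (h5 : x 5 = y 5) (h6 : x 6 = y 6) (h7 : x 7 = y 7) : x = y := by
  funext i; fin_cases i <;> assumption

theorem cj_cj (x : Oct K) : cj (cj x) = x := by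
  apply oext <;>
  simp only [omul_0, omul_1, omul_2, omul_3, omul_4, omul_5, omul_6, omul_7, cj_0, cj_1, cj_2, cj_3, cj_4,
    cj_5, cj_6, cj_7, dt, Pi.add_apply, Pi.sub_apply, Pi.neg_apply, Pi.smul_apply, Pi.zero_apply, smul_eq_mul] <;>
  ring
theorem cj_mul (x y : Oct K) : cj (omul x y) = omul (cj y) (cj x) := by
  apply oext <;>
  simp only [omul_0, omul_1, omul_2, omul_3, omul_4, omul_5, omul_6, omul_7, cj_0, cj_1, cj_2, cj_3, cj_4,
    cj_5, cj_6, cj_7, dt, Pi.add_apply, Pi.sub_apply, Pi.neg_apply, Pi.smul_apply, Pi.zero_apply, smul_eq_mul] <;>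
  ring
theorem cj_add (x y : Oct K) : cj (x + y) = cj x + cj y := by
  apply oext <;>
  simp only [omul_0, omul_1, omul_2, omul_3, omul_4, omul_5, omul_6, omul_7, cj_0, cj_1, cj_2, cj_3, cj_4,
    cj_5, cj_6, cj_7, dt, Pi.add_apply, Pi.sub_apply, Pi.neg_apply, Pi.smul_apply, Pi.zero_apply, smul_eq_mul] <;>
  ring
theorem cj_sub (x y : Oct K) : cj (x - y) = cj x - cj y := by
  apply oext <;>
  simp only [omul_0, omul_1, omul_2, omul_3, omul_4, omul_5, omul_6, omul_7, cj_0, cj_1, cj_2, cj_3, cj_4,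
    cj_5, cj_6, cj_7, dt, Pi.add_apply, Pi.sub_apply, Pi.neg_apply, Pi.smul_apply, Pi.zero_apply, smul_eq_mul] <;>
  ring
theorem cj_neg (x : Oct K) : cj (-x) = -cj x := by
  apply oext <;>
  simp only [omul_0, omul_1, omul_2, omul_3, omul_4, omul_5, omul_6, omul_7, cj_0, cj_1, cj_2, cj_3, cj_4,
    cj_5, cj_6, cj_7, dt, Pi.add_apply, Pi.sub_apply, Pi.neg_apply, Pi.smul_apply, Pi.zero_apply, smul_eq_mul] <;>
  ring
theorem cj_smul (c : K) (x : Oct K) : cj (c • x) = c • cj x := by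
  apply oext <;>
  simp only [omul_0, omul_1, omul_2, omul_3, omul_4, omul_5, omul_6, omul_7, cj_0, cj_1, cj_2, cj_3, cj_4,
    cj_5, cj_6, cj_7, dt, Pi.add_apply, Pi.sub_apply, Pi.neg_apply, Pi.smul_apply, Pi.zero_apply, smul_eq_mul] <;>
  ring
theorem cj_zero : cj (0 : Oct K) = 0 := by
  apply oext <;>
  simp only [omul_0, omul_1, omul_2, omul_3, omul_4, omul_5, omul_6, omul_7, cj_0, cj_1, cj_2, cj_3, cj_4,
    cj_5, cj_6, cj_7, dt, Pi.add_apply, Pi.sub_apply, Pi.neg_apply, Pi.smul_apply, Pi.zero_apply, smul_eq_mul] <;>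
  ring
theorem omul_add (x y z : Oct K) : omul x (y + z) = omul x y + omul x z := by
  apply oext <;>
  simp only [omul_0, omul_1, omul_2, omul_3, omul_4, omul_5, omul_6, omul_7, cj_0, cj_1, cj_2, cj_3, cj_4,
    cj_5, cj_6, cj_7, dt, Pi.add_apply, Pi.sub_apply, Pi.neg_apply, Pi.smul_apply, Pi.zero_apply, smul_eq_mul] <;>
  ring
theorem add_omul (x y z : Oct K) : omul (x + y) z = omul x z + omul y z := by
  apply oext <;>
  simp only [omul_0, omul_1, omul_2, omul_3, omul_4, omul_5, omul_6, omul_7, cj_0, cj_1, cj_2, cj_3, cj_4,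
    cj_5, cj_6, cj_7, dt, Pi.add_apply, Pi.sub_apply, Pi.neg_apply, Pi.smul_apply, Pi.zero_apply, smul_eq_mul] <;>
  ring
theorem omul_sub (x y z : Oct K) : omul x (y - z) = omul x y - omul x z := by
  apply oext <;>
  simp only [omul_0, omul_1, omul_2, omul_3, omul_4, omul_5, omul_6, omul_7, cj_0, cj_1, cj_2, cj_3, cj_4,
    cj_5, cj_6, cj_7, dt, Pi.add_apply, Pi.sub_apply, Pi.neg_apply, Pi.smul_apply, Pi.zero_apply, smul_eq_mul] <;>
  ring
theorem sub_omul (x y z : Oct K) : omul (x - y) z = omul x z - omul y z := by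
  apply oext <;>
  simp only [omul_0, omul_1, omul_2, omul_3, omul_4, omul_5, omul_6, omul_7, cj_0, cj_1, cj_2, cj_3, cj_4,
    cj_5, cj_6, cj_7, dt, Pi.add_apply, Pi.sub_apply, Pi.neg_apply, Pi.smul_apply, Pi.zero_apply, smul_eq_mul] <;>
  ring
theorem omul_smul (c : K) (x y : Oct K) : omul x (c • y) = c • omul x y := by
  apply oext <;>
  simp only [omul_0, omul_1, omul_2, omul_3, omul_4, omul_5, omul_6, omul_7, cj_0, cj_1, cj_2, cj_3, cj_4,
    cj_5, cj_6, cj_7, dt, Pi.add_apply, Pi.sub_apply, Pi.neg_apply, Pi.smul_apply, Pi.zero_apply, smul_eq_mul] <;>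
  ring
theorem smul_omul (c : K) (x y : Oct K) : omul (c • x) y = c • omul x y := by
  apply oext <;>
  simp only [omul_0, omul_1, omul_2, omul_3, omul_4, omul_5, omul_6, omul_7, cj_0, cj_1, cj_2, cj_3, cj_4,
    cj_5, cj_6, cj_7, dt, Pi.add_apply, Pi.sub_apply, Pi.neg_apply, Pi.smul_apply, Pi.zero_apply, smul_eq_mul] <;>
  ring
theorem omul_neg (x y : Oct K) : omul x (-y) = -omul x y := by
  apply oext <;>
  simp only [omul_0, omul_1, omul_2, omul_3, omul_4, omul_5, omul_6, omul_7, cj_0, cj_1, cj_2, cj_3, cj_4,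
    cj_5, cj_6, cj_7, dt, Pi.add_apply, Pi.sub_apply, Pi.neg_apply, Pi.smul_apply, Pi.zero_apply, smul_eq_mul] <;>
  ring
theorem neg_omul (x y : Oct K) : omul (-x) y = -omul x y := by
  apply oext <;>
  simp only [omul_0, omul_1, omul_2, omul_3, omul_4, omul_5, omul_6, omul_7, cj_0, cj_1, cj_2, cj_3, cj_4,
    cj_5, cj_6, cj_7, dt, Pi.add_apply, Pi.sub_apply, Pi.neg_apply, Pi.smul_apply, Pi.zero_apply, smul_eq_mul] <;>
  ring
theorem zero_omul (x : Oct K) : omul 0 x = 0 := by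
  apply oext <;>
  simp only [omul_0, omul_1, omul_2, omul_3, omul_4, omul_5, omul_6, omul_7, cj_0, cj_1, cj_2, cj_3, cj_4,
    cj_5, cj_6, cj_7, dt, Pi.add_apply, Pi.sub_apply, Pi.neg_apply, Pi.smul_apply, Pi.zero_apply, smul_eq_mul] <;>
  ring
theorem omul_zero (x : Oct K) : omul x 0 = 0 := by
  apply oext <;>
  simp only [omul_0, omul_1, omul_2, omul_3, omul_4, omul_5, omul_6, omul_7, cj_0, cj_1, cj_2, cj_3, cj_4,
    cj_5, cj_6, cj_7, dt, Pi.add_apply, Pi.sub_apply, Pi.neg_apply, Pi.smul_apply, Pi.zero_apply, smul_eq_mul] <;>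
  ring

theorem dt_comm (x y : Oct K) : dt x y = dt y x := by
  simp only [omul_0, omul_1, omul_2, omul_3, omul_4, omul_5, omul_6, omul_7, cj_0, cj_1, cj_2, cj_3, cj_4,
    cj_5, cj_6, cj_7, dt, Pi.add_apply, Pi.sub_apply, Pi.neg_apply, Pi.smul_apply, Pi.zero_apply, smul_eq_mul]
  ring
theorem dt_add (x y z : Oct K) : dt x (y + z) = dt x y + dt x z := by
  simp only [omul_0, omul_1, omul_2, omul_3, omul_4, omul_5, omul_6, omul_7, cj_0, cj_1, cj_2, cj_3, cj_4,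
    cj_5, cj_6, cj_7, dt, Pi.add_apply, Pi.sub_apply, Pi.neg_apply, Pi.smul_apply, Pi.zero_apply, smul_eq_mul]
  ring
theorem add_dt (x y z : Oct K) : dt (x + y) z = dt x z + dt y z := by
  simp only [omul_0, omul_1, omul_2, omul_3, omul_4, omul_5, omul_6, omul_7, cj_0, cj_1, cj_2, cj_3, cj_4,
    cj_5, cj_6, cj_7, dt, Pi.add_apply, Pi.sub_apply, Pi.neg_apply, Pi.smul_apply, Pi.zero_apply, smul_eq_mul]
  ring
theorem dt_sub (x y z : Oct K) : dt x (y - z) = dt x y - dt x z := by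
  simp only [omul_0, omul_1, omul_2, omul_3, omul_4, omul_5, omul_6, omul_7, cj_0, cj_1, cj_2, cj_3, cj_4,
    cj_5, cj_6, cj_7, dt, Pi.add_apply, Pi.sub_apply, Pi.neg_apply, Pi.smul_apply, Pi.zero_apply, smul_eq_mul]
  ring
theorem sub_dt (x y z : Oct K) : dt (x - y) z = dt x z - dt y z := by
  simp only [omul_0, omul_1, omul_2, omul_3, omul_4, omul_5, omul_6, omul_7, cj_0, cj_1, cj_2, cj_3, cj_4,
    cj_5, cj_6, cj_7, dt, Pi.add_apply, Pi.sub_apply, Pi.neg_apply, Pi.smul_apply, Pi.zero_apply, smul_eq_mul]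
  ring
theorem dt_smul (c : K) (x y : Oct K) : dt x (c • y) = c * dt x y := by
  simp only [omul_0, omul_1, omul_2, omul_3, omul_4, omul_5, omul_6, omul_7, cj_0, cj_1, cj_2, cj_3, cj_4,
    cj_5, cj_6, cj_7, dt, Pi.add_apply, Pi.sub_apply, Pi.neg_apply, Pi.smul_apply, Pi.zero_apply, smul_eq_mul]
  ring
theorem smul_dt (c : K) (x y : Oct K) : dt (c • x) y = c * dt x y := by
  simp only [omul_0, omul_1, omul_2, omul_3, omul_4, omul_5, omul_6, omul_7, cj_0, cj_1, cj_2, cj_3, cj_4,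
    cj_5, cj_6, cj_7, dt, Pi.add_apply, Pi.sub_apply, Pi.neg_apply, Pi.smul_apply, Pi.zero_apply, smul_eq_mul]
  ring
theorem dt_neg (x y : Oct K) : dt x (-y) = -dt x y := by
  simp only [omul_0, omul_1, omul_2, omul_3, omul_4, omul_5, omul_6, omul_7, cj_0, cj_1, cj_2, cj_3, cj_4,
    cj_5, cj_6, cj_7, dt, Pi.add_apply, Pi.sub_apply, Pi.neg_apply, Pi.smul_apply, Pi.zero_apply, smul_eq_mul]
  ring
theorem neg_dt (x y : Oct K) : dt (-x) y = -dt x y := by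
  simp only [omul_0, omul_1, omul_2, omul_3, omul_4, omul_5, omul_6, omul_7, cj_0, cj_1, cj_2, cj_3, cj_4,
    cj_5, cj_6, cj_7, dt, Pi.add_apply, Pi.sub_apply, Pi.neg_apply, Pi.smul_apply, Pi.zero_apply, smul_eq_mul]
  ring
theorem dt_zero (x : Oct K) : dt x 0 = 0 := by
  simp only [omul_0, omul_1, omul_2, omul_3, omul_4, omul_5, omul_6, omul_7, cj_0, cj_1, cj_2, cj_3, cj_4,
    cj_5, cj_6, cj_7, dt, Pi.add_apply, Pi.sub_apply, Pi.neg_apply, Pi.smul_apply, Pi.zero_apply, smul_eq_mul]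
  ring
theorem zero_dt (x : Oct K) : dt 0 x = 0 := by
  simp only [omul_0, omul_1, omul_2, omul_3, omul_4, omul_5, omul_6, omul_7, cj_0, cj_1, cj_2, cj_3, cj_4,
    cj_5, cj_6, cj_7, dt, Pi.add_apply, Pi.sub_apply, Pi.neg_apply, Pi.smul_apply, Pi.zero_apply, smul_eq_mul]
  ring
theorem dt_cj (x y : Oct K) : dt (cj x) (cj y) = dt x y := by
  simp only [omul_0, omul_1, omul_2, omul_3, omul_4, omul_5, omul_6, omul_7, cj_0, cj_1, cj_2, cj_3, cj_4,
    cj_5, cj_6, cj_7, dt, Pi.add_apply, Pi.sub_apply, Pi.neg_apply, Pi.smul_apply, Pi.zero_apply, smul_eq_mul]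
  ring
/-- `⟨x y, z⟩ = ⟨x, z ȳ⟩` -/
theorem dt_mul_left (x y z : Oct K) : dt (omul x y) z = dt x (omul z (cj y)) := by
  simp only [omul_0, omul_1, omul_2, omul_3, omul_4, omul_5, omul_6, omul_7, cj_0, cj_1, cj_2, cj_3, cj_4,
    cj_5, cj_6, cj_7, dt, Pi.add_apply, Pi.sub_apply, Pi.neg_apply, Pi.smul_apply, Pi.zero_apply, smul_eq_mul]
  ring
/-- `⟨x y, z⟩ = ⟨y, x̄ z⟩` -/
theorem dt_mul_right (x y z : Oct K) : dt (omul x y) z = dt y (omul (cj x) z) := by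
  simp only [omul_0, omul_1, omul_2, omul_3, omul_4, omul_5, omul_6, omul_7, cj_0, cj_1, cj_2, cj_3, cj_4,
    cj_5, cj_6, cj_7, dt, Pi.add_apply, Pi.sub_apply, Pi.neg_apply, Pi.smul_apply, Pi.zero_apply, smul_eq_mul]
  ring
/-- the composition law -/
theorem dt_mul_mul (x y : Oct K) : dt (omul x y) (omul x y) = dt x x * dt y y := by
  simp only [omul_0, omul_1, omul_2, omul_3, omul_4, omul_5, omul_6, omul_7, cj_0, cj_1, cj_2, cj_3, cj_4,
    cj_5, cj_6, cj_7, dt, Pi.add_apply, Pi.sub_apply, Pi.neg_apply, Pi.smul_apply, Pi.zero_apply, smul_eq_mul]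
  ring
/-- alternativity -/
theorem alt1 (x y : Oct K) : omul x (omul (cj x) y) = dt x x • y := by
  apply oext <;>
  simp only [omul_0, omul_1, omul_2, omul_3, omul_4, omul_5, omul_6, omul_7, cj_0, cj_1, cj_2, cj_3, cj_4,
    cj_5, cj_6, cj_7, dt, Pi.add_apply, Pi.sub_apply, Pi.neg_apply, Pi.smul_apply, Pi.zero_apply, smul_eq_mul] <;>
  ring
theorem alt2 (x y : Oct K) : omul (cj x) (omul x y) = dt x x • y := by
  apply oext <;>
  simp only [omul_0, omul_1, omul_2, omul_3, omul_4, omul_5, omul_6, omul_7, cj_0, cj_1, cj_2, cj_3, cj_4,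
    cj_5, cj_6, cj_7, dt, Pi.add_apply, Pi.sub_apply, Pi.neg_apply, Pi.smul_apply, Pi.zero_apply, smul_eq_mul] <;>
  ring
theorem alt3 (x y : Oct K) : omul (omul x y) (cj y) = dt y y • x := by
  apply oext <;>
  simp only [omul_0, omul_1, omul_2, omul_3, omul_4, omul_5, omul_6, omul_7, cj_0, cj_1, cj_2, cj_3, cj_4,
    cj_5, cj_6, cj_7, dt, Pi.add_apply, Pi.sub_apply, Pi.neg_apply, Pi.smul_apply, Pi.zero_apply, smul_eq_mul] <;>
  ring
theorem alt4 (x y : Oct K) : omul (omul x (cj y)) y = dt y y • x := by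
  apply oext <;>
  simp only [omul_0, omul_1, omul_2, omul_3, omul_4, omul_5, omul_6, omul_7, cj_0, cj_1, cj_2, cj_3, cj_4,
    cj_5, cj_6, cj_7, dt, Pi.add_apply, Pi.sub_apply, Pi.neg_apply, Pi.smul_apply, Pi.zero_apply, smul_eq_mul] <;>
  ring

/-- `Re (x y z)` is cyclic -/
theorem tri (x y z : Oct K) : dt (cj (omul x y)) z = dt (cj (omul y z)) x := by
  simp only [omul_0, omul_1, omul_2, omul_3, omul_4, omul_5, omul_6, omul_7, cj_0, cj_1, cj_2, cj_3, cj_4,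
    cj_5, cj_6, cj_7, dt, Pi.add_apply, Pi.sub_apply, Pi.neg_apply, Pi.smul_apply, Pi.zero_apply, smul_eq_mul]
  ring
/-- polarised composition law -/
theorem dt_pol (a b x y : Oct K) : dt (omul a (cj b)) (omul x (cj y)) + dt (omul x (cj b)) (omul a (cj y)) =
    2 * (dt a x * dt b y) := by
  simp only [omul_0, omul_1, omul_2, omul_3, omul_4, omul_5, omul_6, omul_7, cj_0, cj_1, cj_2, cj_3, cj_4,
    cj_5, cj_6, cj_7, dt, Pi.add_apply, Pi.sub_apply, Pi.neg_apply, Pi.smul_apply, Pi.zero_apply, smul_eq_mul]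
  ring
/-- a Moufang identity, in the form `(x a)(b x) = x (a b) x = 2 Re((a b) x) x - |x|² (a b)‾` -/
theorem mouf (x a b : Oct K) : omul (omul x a) (omul b x) =
    (2 * dt (omul a b) (cj x)) • x - dt x x • cj (omul a b) := by
  apply oext <;>
  simp only [omul_0, omul_1, omul_2, omul_3, omul_4, omul_5, omul_6, omul_7, cj_0, cj_1, cj_2, cj_3, cj_4,
    cj_5, cj_6, cj_7, dt, Pi.add_apply, Pi.sub_apply, Pi.neg_apply, Pi.smul_apply, Pi.zero_apply, smul_eq_mul] <;>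
  ring

end

end Pool.Agent.R969.AL
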