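import Pool.Agent.R969.AL.Spec
set_option autoImplicit false

/-! Positivity in the real Albert algebra: `⟨x², y²⟩ ≥ 0`. -/

namespace Pool.Agent.R969.AL

/-- the rank one element `v v*` for `v = (r, a, b)`, `r` real, `a, b` octonions -/
def R1 (r : ℝ) (a b : Oct ℝ) : Alb ℝ := (r * r, dt a a, dt b b, omul a (cj b), r • b, r • cj a)

theorem sq_decomp (a1 a2 a3 : ℝ) (x1 x2 x3 : Oct ℝ) :
    jm (a1, a2, a3, x1, x2, x3) (a1, a2, a3, x1, x2, x3) =
    R1 a1 (cj x3) x2 + sh (sh (R1 a2 (cj x1) x3)) + sh (R1 a3 (cj x2) x1) := by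
  simp only [jm_mk, R1, sh_mk, Prod.mk_add_mk, ← cj_mul, dt_cj, cj_cj]
  refine aext ?_ ?_ ?_ ?_ ?_ ?_
  · ring
  · ring
  · ring
  all_goals (
    funext i
    simp only [Pi.smul_apply, Pi.add_apply, smul_eq_mul]; ring)

theorem pos12 (r s : ℝ) (a b c d : Oct ℝ) : B (R1 r a b) (sh (sh (R1 s c d))) =
    dt (r • d + s • cj a + omul (cj b) c) (r • d + s • cj a + omul (cj b) c) := by
  simp only [R1, sh_mk, B_mk, dt_add, add_dt, dt_smul, smul_dt, dt_cj, dt_mul_mul]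
  have e1 : dt b (omul c (cj d)) = dt d (omul (cj b) c) := by
    rw [← dt_mul_left b d c, dt_mul_right b d c]
  have e2 : dt (omul a (cj b)) (cj c) = dt (cj a) (omul (cj b) c) := by
    rw [← dt_cj, cj_mul, cj_cj, cj_cj, dt_mul_right]
  rw [e1, e2, dt_comm (cj a) d, dt_comm (omul (cj b) c) d, dt_comm (omul (cj b) c) (cj a)]
  ring

theorem pos13 (r s : ℝ) (a b c d : Oct ℝ) : B (R1 r a b) (sh (R1 s c d)) =
    dt (r • c + omul (cj a) d + s • cj b) (r • c + omul (cj a) d + s • cj b) := by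
  simp only [R1, sh_mk, B_mk, dt_add, add_dt, dt_smul, smul_dt, dt_cj, dt_mul_mul]
  have e1 : dt (cj a) (omul c (cj d)) = dt c (omul (cj a) d) := by
    rw [dt_comm c, dt_mul_left]
  have e2 : dt (omul a (cj b)) d = dt (omul (cj a) d) (cj b) := by
    rw [dt_mul_right, dt_comm]
  have e3 : dt b (cj c) = dt c (cj b) := by rw [← dt_cj, cj_cj, dt_comm]
  rw [e1, e2, e3, dt_comm (cj b) c, dt_comm (omul (cj a) d) c, dt_comm (cj b) (omul (cj a) d)]
  ring

theorem cs_dt (x y : Oct ℝ) : dt x y ^ 2 ≤ dt x x * dt y y := by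
  by_cases hy : dt y y = 0
  · rw [dt_self_zero hy, dt_zero, dt_zero]; simp
  · have h := dt_self_nonneg (dt y y • x - dt x y • y)
    have hp : 0 < dt y y := lt_of_le_of_ne (dt_self_nonneg y) (Ne.symm hy)
    simp only [sub_dt, dt_sub, smul_dt, dt_smul, dt_comm y x] at h
    have : 0 ≤ dt y y * (dt x x * dt y y - dt x y ^ 2) := by nlinarith
    nlinarith [(mul_nonneg_iff_of_pos_left hp).mp this]

/-- the key estimate behind positivity -/
theorem gram_le (a b x y : Oct ℝ) : (dt (omul a (cj b)) (omul x (cj y)) - dt a x * dt b y) ^ 2 ≤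
    (dt a a * dt x x - dt a x ^ 2) * (dt b b * dt y y - dt b y ^ 2) := by
  by_cases hx : dt x x = 0
  · rw [dt_self_zero hx]; simp [zero_omul, dt_zero]
  by_cases hy : dt y y = 0
  · rw [dt_self_zero hy]; simp [cj_zero, omul_zero, dt_zero]
  have hxp : 0 < dt x x := lt_of_le_of_ne (dt_self_nonneg x) (Ne.symm hx)
  have hyp : 0 < dt y y := lt_of_le_of_ne (dt_self_nonneg y) (Ne.symm hy)
  set a' := dt x x • a - dt a x • x with ha'
  set b' := dt y y • b - dt b y • y with hb'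
  have e0 (u v w : Oct ℝ) : dt (omul u w) (omul v w) = dt w w * dt u v := by
    rw [dt_mul_left, alt3, dt_smul]
  have e0' (u v w : Oct ℝ) : dt (omul w u) (omul w v) = dt w w * dt u v := by
    rw [dt_mul_right, alt2, dt_smul]
  have e1 : dt (omul a' (cj b')) (omul x (cj y)) =
      dt x x * dt y y * (dt (omul a (cj b)) (omul x (cj y)) - dt a x * dt b y) := by
    simp only [ha', hb', cj_sub, cj_smul, omul_sub, sub_omul, omul_smul, smul_omul, sub_dt, smul_dt, e0, e0', dt_cj]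
    ring
  have e2 : dt a' a' = dt x x * (dt a a * dt x x - dt a x ^ 2) := by
    simp only [ha', sub_dt, dt_sub, smul_dt, dt_smul, dt_comm x a]; ring
  have e3 : dt b' b' = dt y y * (dt b b * dt y y - dt b y ^ 2) := by
    simp only [hb', sub_dt, dt_sub, smul_dt, dt_smul, dt_comm y b]; ring
  have h := cs_dt (omul a' (cj b')) (omul x (cj y))
  rw [dt_mul_mul, dt_mul_mul, dt_cj, dt_cj, e1, e2, e3] at h
  have hp : 0 < dt x x * dt y y := mul_pos hxp hyp
  have hq : 0 < (dt x x * dt y y) ^ 2 := by positivity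
  have : (dt x x * dt y y) ^ 2 * (dt (omul a (cj b)) (omul x (cj y)) - dt a x * dt b y) ^ 2 ≤
      (dt x x * dt y y) ^ 2 * ((dt a a * dt x x - dt a x ^ 2) * (dt b b * dt y y - dt b y ^ 2)) := by
    nlinarith [h]
  exact le_of_mul_le_mul_left this hq

theorem pos11 (r s : ℝ) (a b c d : Oct ℝ) : 0 ≤ B (R1 r a b) (R1 s c d) := by
  simp only [R1, B_mk, dt_smul, smul_dt, dt_cj]
  have h := gram_le a b c d
  have h1 := cs_dt a c
  have h2 := cs_dt b d
  set T := dt (omul a (cj b)) (omul c (cj d)) with hT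
  set u := dt a a * dt c c - dt a c ^ 2 with hu
  set v := dt b b * dt d d - dt b d ^ 2 with hv
  have hu0 : 0 ≤ u := by rw [hu]; linarith
  have hv0 : 0 ≤ v := by rw [hv]; linarith
  have hw : -(u + v) ≤ 2 * (T - dt a c * dt b d) := by
    have h4 : (2 * (T - dt a c * dt b d)) ^ 2 ≤ (u + v) ^ 2 := by nlinarith [sq_nonneg (u - v)]
    exact (abs_le.mp (abs_le_of_sq_le_sq' h4 (by linarith) |> fun h => abs_le.mpr h)).1
  have hk := sq_nonneg (r * s + dt a c + dt b d)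
  nlinarith [hk, hw, hu, hv]

theorem B_R1_sq (r : ℝ) (a b : Oct ℝ) (y : Alb ℝ) : 0 ≤ B (R1 r a b) (jm y y) := by
  obtain ⟨a1, a2, a3, x1, x2, x3⟩ := y
  rw [sq_decomp, B_add, B_add]
  have h1 := pos11 r a1 a b (cj x3) x2
  have h2 := dt_self_nonneg (r • x3 + a2 • cj a + omul (cj b) (cj x1))
  have h3 := dt_self_nonneg (r • cj x2 + omul (cj a) x1 + a3 • cj b)
  rw [← pos12] at h2
  rw [← pos13] at h3
  linarith

theorem B_sq_sq (x y : Alb ℝ) : 0 ≤ B (jm x x) (jm y y) := by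
  obtain ⟨a1, a2, a3, x1, x2, x3⟩ := x
  rw [sq_decomp, add_B, add_B]
  have h1 := B_R1_sq a1 (cj x3) x2 y
  have h2 := B_R1_sq a2 (cj x1) x3 (sh y)
  have h3 := B_R1_sq a3 (cj x2) x1 (sh (sh y))
  have e2 : B (sh (sh (R1 a2 (cj x1) x3))) (jm y y) = B (R1 a2 (cj x1) x3) (jm (sh y) (sh y)) := by
    rw [← B_sh (R1 a2 (cj x1) x3), ← B_sh (sh (R1 a2 (cj x1) x3)), ← sh_jm, sh_sh_sh]
  have e3 : B (sh (R1 a3 (cj x2) x1)) (jm y y) = B (R1 a3 (cj x2) x1) (jm (sh (sh y)) (sh (sh y))) := by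
    rw [← B_sh (R1 a3 (cj x2) x1), ← sh_jm, ← sh_jm, sh_sh_sh]
  rw [e2, e3]
  linarith

/-- traces of products of idempotents from resolutions are nonnegative -/
theorem B_idem {x y : Alb ℝ} (hx : jm x x = x) (hy : jm y y = y) : 0 ≤ B x y := by
  rw [← hx, ← hy]; exact B_sq_sq x y

theorem B_R1_idem (r : ℝ) (a b : Oct ℝ) {y : Alb ℝ} (hy : jm y y = y) : 0 ≤ B (R1 r a b) y := by
  rw [← hy]; exact B_R1_sq r a b y

end Pool.Agent.R969.AL
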