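import Pool.Agent.R969.AL.Linf
set_option autoImplicit false
set_option linter.unusedSimpArgs false

/-! Real powers in `L^∞(Ω, H₃(𝕆_ℂ))` by functional calculus. -/

namespace Pool.Agent.R969.AL

open MeasureTheory Filter Topology Polynomial

section
variable {Ω : Type*} [MeasurableSpace Ω] {μ : Measure Ω}

/-- the unit of `L^∞(Ω, H₃(𝕆_ℂ))` -/
noncomputable def oneM (μ : Measure Ω) : LI μ := (memLp_cst one).toLp _

/-- Jordan powers `a^0 = 1`, `a^{n+1} = a ∘ a^n` -/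
noncomputable def npowM (a : LI μ) : ℕ → LI μ
  | 0 => oneM μ
  | n + 1 => mulM a (npowM a n)

/-- `P(a)` for a real polynomial `P` -/
noncomputable def polM (P : ℝ[X]) (a : LI μ) : LI μ := P.sum fun n c => (c : ℂ) • npowM a n

/-- `c = a^s` in the sense of the functional calculus in the closed subalgebra generated by the positive element
`a`: for all sequences `P_n` of real polynomials that converge to `t ↦ t^s` uniformly on `[0, R]` for each `R`,
the elements `P_n(a)` converge to `c` in norm. -/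
def IsPow (s : ℝ) (a c : LI μ) : Prop :=
  ∀ P : ℕ → ℝ[X], (∀ R : ℝ, TendstoUniformlyOn (fun n t => (P n).eval t) (fun t => t ^ s) atTop (Set.Icc 0 R)) →
    Tendsto (fun n => polM (P n) a) atTop (𝓝 c)

theorem npow_toLp {k : Ω → Alb ℝ} (hk : MemLp (fun ω => ofR (k ω)) ⊤ μ) (n : ℕ) :
    ∃ h : MemLp (fun ω => ofR (((Lm (k ω)) ^ n) one)) ⊤ μ, npowM (hk.toLp _) n = h.toLp _ := by
  induction n with
  | zero =>
    have e : (fun ω => ofR (((Lm (k ω)) ^ 0) one)) = fun _ => (one : Alb ℂ) := by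
      funext ω; simp [ofR_one]
    rw [e]
    exact ⟨memLp_cst one, rfl⟩
  | succ n ih =>
    obtain ⟨h, hn⟩ := ih
    have e : (fun ω => ofR (((Lm (k ω)) ^ (n + 1)) one)) = fun ω => jm (ofR (k ω)) (ofR (((Lm (k ω)) ^ n) one)) := by
      funext ω; rw [jm_ofR, pow_succ', Module.End.mul_apply, Lm_apply]
    rw [e]
    refine ⟨memLp_jm hk h, ?_⟩
    rw [npowM, hn, mulM_toLp]

theorem pol_toLp {k : Ω → Alb ℝ} (hk : MemLp (fun ω => ofR (k ω)) ⊤ μ) (P : ℝ[X]) :
    ∃ h : MemLp (fun ω => ofR (pol P (k ω))) ⊤ μ, polM P (hk.toLp _) = h.toLp _ := by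
  induction P using Polynomial.induction_on' with
  | add P Q hP hQ =>
    obtain ⟨h1, e1⟩ := hP
    obtain ⟨h2, e2⟩ := hQ
    have e : (fun ω => ofR (pol (P + Q) (k ω))) = fun ω => ofR (pol P (k ω)) + ofR (pol Q (k ω)) := by
      funext ω; rw [← ofR_add]; simp [pol]
    rw [e]
    refine ⟨mAdd h1 h2, ?_⟩
    have : polM (P + Q) (hk.toLp _) = polM P (hk.toLp _) + polM Q (hk.toLp _) := by
      unfold polM
      rw [Polynomial.sum_add_index]
      · intro i; simp
      · intro i b c; push_cast; rw [add_smul]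
    rw [this, e1, e2]; rfl
  | monomial n r =>
    obtain ⟨h, e1⟩ := npow_toLp hk n
    have e : (fun ω => ofR (pol (monomial n r) (k ω))) = fun ω => (r : ℂ) • ofR (((Lm (k ω)) ^ n) one) := by
      funext ω; rw [← ofR_smul]; simp [pol, aeval_monomial, Module.End.mul_apply, Module.algebraMap_end_apply]
    rw [e]
    refine ⟨mSmul _ h, ?_⟩
    unfold polM
    rw [Polynomial.sum_monomial_index _ _ (by simp), e1]; rfl

theorem fc_sub_pol {S : Alb ℝ} {F : Finset ℝ} {l : ℝ → ℝ} {e : ℝ → Alb ℝ} (h : IsRes S F l e) (f : ℝ → ℝ)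
    (P : ℝ[X]) {δ : ℝ} (hδ : 0 ≤ δ) (hP : ∀ i ∈ F, |f (l i) - P.eval (l i)| ≤ δ) :
    ‖fc f S - pol P S‖ ≤ 2 * δ := by
  have e1 : fc f S - pol P S = ∑ i ∈ F, (f (l i) - P.eval (l i)) • e i := by
    rw [fc_eq h, h.pol_eq, ← Finset.sum_sub_distrib]
    exact Finset.sum_congr rfl fun i _ => (sub_smul _ _ _).symm
  have hb : B (fc f S - pol P S) (fc f S - pol P S) ≤ (2 * δ) ^ 2 := by
    rw [e1, B_fun_self h]
    calc ∑ i ∈ F, (f (l i) - P.eval (l i)) * (f (l i) - P.eval (l i)) * tr (e i)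
        ≤ ∑ i ∈ F, δ ^ 2 * tr (e i) := by
          refine Finset.sum_le_sum fun i hi => mul_le_mul_of_nonneg_right ?_ (h.tr_nonneg hi)
          have h3 := abs_le.mp (hP i hi)
          nlinarith [h3.1, h3.2]
      _ = δ ^ 2 * 3 := by
          rw [← Finset.mul_sum, ← tr_one, ← h.sum_one]
          congr 1
          have := tr_fun (F := F) (e := e) (fun _ => (1:ℝ))
          simpa using this.symm
      _ ≤ _ := by nlinarith [sq_nonneg δ]
  exact norm_le_B (by positivity) hb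

theorem norm_toLp_le {f : Ω → Alb ℂ} (hf : MemLp f ⊤ μ) {δ : ℝ} (hδ : 0 ≤ δ) (h : ∀ᵐ ω ∂μ, ‖f ω‖ ≤ δ) :
    ‖hf.toLp f‖ ≤ δ := by
  rw [Lp.norm_toLp, eLpNorm_exponent_top]
  exact ENNReal.toReal_le_of_le_ofReal hδ (eLpNormEssSup_le_of_ae_bound h)

theorem memLp_msq {f : Ω → Alb ℂ} (hf : MemLp f ⊤ μ) : MemLp (fun ω => ofR (msq (reA (f ω)) (imA (f ω)))) ⊤ μ := by
  have := memLp_jm (memLp_star hf) hf
  simpa only [star_jm_self] using this

theorem absq_eq (x : LI μ) : mulM (starM x) x = (memLp_msq (Lp.memLp x)).toLp _ := by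
  unfold starM
  conv_lhs => rw [← Lp.toLp_coeFn x (Lp.memLp x)]
  rw [mulM_toLp, MemLp.toLp_eq_toLp_iff]
  filter_upwards [(Lp.memLp x).coeFn_toLp] with ω h1
  rw [h1, star_jm_self]

theorem isPow_powM {s : ℝ} (hs : 0 < s) (x : LI μ) : IsPow s (mulM (starM x) x) (powM s hs (mulM (starM x) x)) := by
  intro P hP
  have hk := memLp_msq (Lp.memLp x)
  rw [absq_eq, powM_toLp]
  obtain ⟨C, hC⟩ := bdd_of_top hk
  rw [Metric.tendsto_atTop]
  intro ε hε
  have hu := Metric.tendstoUniformlyOn_iff.mp (hP (‖LmC ℝ‖ * C)) (ε / 3) (by positivity)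
  obtain ⟨N, hN⟩ := eventually_atTop.mp hu
  refine ⟨N, fun n hn => ?_⟩
  obtain ⟨h1, e1⟩ := pol_toLp hk (P n)
  rw [e1, dist_eq_norm, ← MemLp.toLp_sub]
  refine lt_of_le_of_lt (norm_toLp_le _ (δ := 2 * (ε / 3)) (by positivity) ?_) (by linarith)
  filter_upwards [hC] with ω hω
  rw [norm_ofR] at hω
  obtain ⟨F, l, e, h, h0, hl⟩ := exists_res_msq (reA (x ω)) (imA (x ω))
  have k := fc_sub_pol h (fun t => t ^ s) (P n) (δ := ε / 3) (by positivity) (by
    intro i hi
    have b1 := eig_le h hi (h0 i hi)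
    have b2 := hl i hi
    rw [abs_of_nonneg b2] at b1
    have b3 : l i ≤ ‖LmC ℝ‖ * C := b1.trans (mul_le_mul_of_nonneg_left hω (ContinuousLinearMap.opNorm_nonneg _))
    have := hN n hn (l i) ⟨b2, b3⟩
    rw [Real.dist_eq] at this
    exact this.le)
  have e2 : ((fun ω => ofR (pol (P n) (msq (reA (x ω)) (imA (x ω))))) -
      fun ω => powA s (ofR (msq (reA (x ω)) (imA (x ω))))) ω =
      ofR (pol (P n) (msq (reA (x ω)) (imA (x ω))) - fc (fun t => t ^ s) (msq (reA (x ω)) (imA (x ω)))) := by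
    have (u v : Alb ℝ) : ofR (u - v) = ofR u - ofR v := by
      have h := ofR_add (u - v) v
      rw [sub_add_cancel] at h
      rw [h]; abel
    rw [this]; rfl
  rw [e2, norm_ofR, norm_sub_rev]
  exact k

theorem exists_pols {s : ℝ} (hs : 0 < s) : ∃ P : ℕ → ℝ[X],
    ∀ R : ℝ, TendstoUniformlyOn (fun n t => (P n).eval t) (fun t => t ^ s) atTop (Set.Icc 0 R) := by
  have h (n : ℕ) : ∃ P : ℝ[X], ∀ t ∈ Set.Icc (0:ℝ) n, |P.eval t - t ^ s| < 1 / ((n:ℝ) + 1) :=
    exists_polynomial_near_of_continuousOn 0 n (fun t => t ^ s) (Real.continuous_rpow_const hs.le).continuousOn _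
      (by positivity)
  choose P hP using h
  refine ⟨P, fun R => ?_⟩
  rw [Metric.tendstoUniformlyOn_iff]
  intro ε hε
  obtain ⟨N, hN⟩ := exists_nat_gt (max R (1 / ε))
  refine eventually_atTop.mpr ⟨N, fun n hn t ht => ?_⟩
  have hnN : (N : ℝ) ≤ n := by exact_mod_cast hn
  have hR : R ≤ n := ((le_max_left _ _).trans hN.le).trans hnN
  have h1 := hP n t ⟨ht.1, ht.2.trans hR⟩
  have hε' : 1 / ε < n := (((le_max_right _ _).trans_lt hN)).trans_le hnN
  rw [dist_comm, Real.dist_eq]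
  refine h1.trans ?_
  rw [div_lt_iff₀ (by positivity)]
  rw [div_lt_iff₀ hε] at hε'
  nlinarith

theorem IsPow.unique {s : ℝ} (hs : 0 < s) {a c d : LI μ} (h1 : IsPow s a c) (h2 : IsPow s a d) : c = d := by
  obtain ⟨P, hP⟩ := exists_pols hs
  exact tendsto_nhds_unique (h1 P hP) (h2 P hP)

end

end Pool.Agent.R969.AL
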