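import Pool.Agent.R969.AL.Idn
set_option autoImplicit false

/-! Spectral theorem and functional calculus in the real Albert algebra. -/

namespace Pool.Agent.R969.AL

open Polynomial

theorem dt_self_nonneg (x : Oct ℝ) : 0 ≤ dt x x := by
  simp only [dt]
  linarith [mul_self_nonneg (x 0), mul_self_nonneg (x 1), mul_self_nonneg (x 2), mul_self_nonneg (x 3),
    mul_self_nonneg (x 4), mul_self_nonneg (x 5), mul_self_nonneg (x 6), mul_self_nonneg (x 7)]

theorem dt_self_zero {x : Oct ℝ} (h : dt x x = 0) : x = 0 := by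
  simp only [dt] at h
  apply oext <;> simp only [Pi.zero_apply] <;> nlinarith [sq_nonneg (x 0), sq_nonneg (x 1), sq_nonneg (x 2), sq_nonneg (x 3),
    sq_nonneg (x 4), sq_nonneg (x 5), sq_nonneg (x 6), sq_nonneg (x 7)]

theorem B_self_nonneg (x : Alb ℝ) : 0 ≤ B x x := by
  obtain ⟨a1, a2, a3, x1, x2, x3⟩ := x
  simp only [B_mk]
  linarith [dt_self_nonneg x1, dt_self_nonneg x2, dt_self_nonneg x3, mul_self_nonneg a1, mul_self_nonneg a2,
    mul_self_nonneg a3]

theorem B_self_zero {x : Alb ℝ} (h : B x x = 0) : x = 0 := by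
  obtain ⟨a1, a2, a3, x1, x2, x3⟩ := x
  simp only [B_mk] at h
  have h1 := dt_self_nonneg x1
  have h2 := dt_self_nonneg x2
  have h3 := dt_self_nonneg x3
  have k1 : dt x1 x1 = 0 := by nlinarith [mul_self_nonneg a1, mul_self_nonneg a2, mul_self_nonneg a3]
  have k2 : dt x2 x2 = 0 := by nlinarith [mul_self_nonneg a1, mul_self_nonneg a2, mul_self_nonneg a3]
  have k3 : dt x3 x3 = 0 := by nlinarith [mul_self_nonneg a1, mul_self_nonneg a2, mul_self_nonneg a3]
  have l1 : a1 = 0 := by
    apply mul_self_eq_zero.mp; nlinarith [mul_self_nonneg a1, mul_self_nonneg a2, mul_self_nonneg a3]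
  have l2 : a2 = 0 := by
    apply mul_self_eq_zero.mp; nlinarith [mul_self_nonneg a1, mul_self_nonneg a2, mul_self_nonneg a3]
  have l3 : a3 = 0 := by
    apply mul_self_eq_zero.mp; nlinarith [mul_self_nonneg a1, mul_self_nonneg a2, mul_self_nonneg a3]
  rw [dt_self_zero k1, dt_self_zero k2, dt_self_zero k3, l1, l2, l3]; rfl

/-- a symmetric operator on a finite-dimensional real space with a positive definite form is diagonalisable -/
theorem diag_of_symm {V : Type} [AddCommGroup V] [Module ℝ V] [FiniteDimensional ℝ V]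
    (b : V →ₗ[ℝ] V →ₗ[ℝ] ℝ) (hs : ∀ x y, b x y = b y x) (hn : ∀ x, 0 ≤ b x x)
    (hd : ∀ x, b x x = 0 → x = 0) (L : Module.End ℝ V) (hL : ∀ x y, b (L x) y = b x (L y)) :
    ⨆ μ, Module.End.eigenspace L μ = ⊤ := by
  let core : InnerProductSpace.Core ℝ V :=
    { inner := fun x y => b x y
      conj_inner_symm := fun x y => by simpa using hs y x
      re_inner_nonneg := fun x => by simpa using hn x
      add_left := fun x y z => by simp
      smul_left := fun x y r => by simp
      definite := fun x h => hd x h }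
  let _ : NormedAddCommGroup V := core.toNormedAddCommGroup
  let _ : InnerProductSpace ℝ V := InnerProductSpace.ofCore core.toCore
  have hsym : LinearMap.IsSymmetric L := fun x y => hL x y
  have := hsym.orthogonalComplement_iSup_eigenspaces_eq_bot
  rwa [Submodule.orthogonal_eq_bot_iff] at this

theorem eig_top (S : Alb ℝ) : ⨆ μ, Module.End.eigenspace (Lm S) μ = ⊤ :=
  diag_of_symm Bm (fun x y => B_comm x y) B_self_nonneg (fun _ h => B_self_zero h) (Lm S)
    (fun x y => by
      show B (jm S x) y = B x (jm S y)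
      rw [jm_comm S x, B_assoc])

/-- `P(S)` -/
noncomputable def pol (P : ℝ[X]) (S : Alb ℝ) : Alb ℝ := (aeval (Lm S) P) one

theorem pol_mul' (P Q : ℝ[X]) (S : Alb ℝ) : pol (P * Q) S = aeval (Lm S) P (pol Q S) := by
  simp [pol, Module.End.mul_apply]

theorem jm3 (S : Alb ℝ) : jm S (jm S S) = det S • one + tr S • jm S S - tr (sharp S) • S := by
  have h := sharp_eq S
  have hs (x y z : Alb ℝ) : jm x (y - z) = jm x y - jm x z := (Lm x).map_sub y z
  conv_lhs => rw [h]
  rw [hs, jm_add, jm_sharp, jm_smul, jm_smul, jm_one]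

theorem polW (S : Alb ℝ) (Q : ℝ[X]) : ∃ a b c : ℝ, pol Q S = a • one + b • S + c • jm S S := by
  have hp : ∀ n : ℕ, ∃ a b c : ℝ, ((Lm S) ^ n) one = a • one + b • S + c • jm S S := by
    intro n
    induction n with
    | zero => exact ⟨1, 0, 0, by simp⟩
    | succ n ih =>
      obtain ⟨a, b, c, h⟩ := ih
      refine ⟨c * det S, a - c * tr (sharp S), b + c * tr S, ?_⟩
      rw [pow_succ', Module.End.mul_apply, h]
      simp only [map_add, map_smul, Lm_apply, jm_one, jm3]
      module
  induction Q using Polynomial.induction_on' with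
  | add p q hp hq =>
    obtain ⟨a, b, c, h⟩ := hp
    obtain ⟨a', b', c', h'⟩ := hq
    refine ⟨a + a', b + b', c + c', ?_⟩
    have : pol (p + q) S = pol p S + pol q S := by simp [pol]
    rw [this, h, h']; module
  | monomial n r =>
    obtain ⟨a, b, c, h⟩ := hp n
    refine ⟨r * a, r * b, r * c, ?_⟩
    have : pol (monomial n r) S = r • ((Lm S) ^ n) one := by
      simp [pol, aeval_monomial, Module.End.mul_apply, Module.algebraMap_end_apply]
    rw [this, h]; module

theorem jm_sq_pol (S : Alb ℝ) (Q : ℝ[X]) : jm (jm S S) (pol Q S) = jm S (jm S (pol Q S)) := by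
  obtain ⟨a, b, c, h⟩ := polW S Q
  rw [h]
  simp only [jm_add, jm_smul, jm_one, pow4, jm_comm (jm S S) S]

theorem pol_mul (P Q : ℝ[X]) (S : Alb ℝ) : jm (pol P S) (pol Q S) = pol (P * Q) S := by
  obtain ⟨a, b, c, h⟩ := polW S P
  have h1 : jm (pol P S) (pol Q S) = a • pol Q S + b • jm S (pol Q S) + c • jm S (jm S (pol Q S)) := by
    rw [h, add_jm, add_jm, smul_jm, smul_jm, smul_jm, jm_sq_pol, jm_comm one, jm_one]
  have h2 : pol (P * Q) S = aeval (Lm S) Q (pol P S) := by rw [mul_comm, pol_mul']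
  have hX (R : ℝ[X]) : jm S (pol R S) = pol (X * R) S := by rw [pol_mul']; simp [Lm_apply]
  have hX1 : S = pol X S := by simp [pol, Lm_apply, jm_one]
  have hX2 : jm S S = pol (X * X) S := by
    have := hX X
    rwa [← hX1] at this
  rw [h1, h2, h]
  simp only [map_add, map_smul]
  have e0 : aeval (Lm S) Q one = pol Q S := rfl
  have e1 : aeval (Lm S) Q S = jm S (pol Q S) := by
    rw [hX, mul_comm, pol_mul', ← hX1]
  have e2 : aeval (Lm S) Q (jm S S) = jm S (jm S (pol Q S)) := by
    rw [hX, hX, ← mul_assoc, mul_comm, pol_mul', ← hX2]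
  rw [e0, e1, e2]

/-- A resolution `S = ∑ λ_i e_i` with orthogonal idempotents `e_i` of sum `1`. -/
structure IsRes {ι : Type} [DecidableEq ι] (S : Alb ℝ) (F : Finset ι) (l : ι → ℝ) (e : ι → Alb ℝ) : Prop where
  orth : ∀ i ∈ F, ∀ j ∈ F, jm (e i) (e j) = if i = j then e i else 0
  sum_one : ∑ i ∈ F, e i = one
  sum_eq : ∑ i ∈ F, l i • e i = S

theorem jm_sum {ι : Type} (x : Alb ℝ) (F : Finset ι) (f : ι → Alb ℝ) :
    jm x (∑ i ∈ F, f i) = ∑ i ∈ F, jm x (f i) := map_sum (Lm x) f F

theorem sum_jm {ι : Type} (x : Alb ℝ) (F : Finset ι) (f : ι → Alb ℝ) :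
    jm (∑ i ∈ F, f i) x = ∑ i ∈ F, jm (f i) x := by
  rw [jm_comm, jm_sum]; exact Finset.sum_congr rfl fun i _ => jm_comm _ _

theorem B_sum {ι : Type} (x : Alb ℝ) (F : Finset ι) (f : ι → Alb ℝ) :
    B x (∑ i ∈ F, f i) = ∑ i ∈ F, B x (f i) := map_sum (Bm x) f F

theorem sum_B {ι : Type} (x : Alb ℝ) (F : Finset ι) (f : ι → Alb ℝ) :
    B (∑ i ∈ F, f i) x = ∑ i ∈ F, B (f i) x := by
  rw [B_comm, B_sum]; exact Finset.sum_congr rfl fun i _ => B_comm _ _

section
variable {ι : Type} [DecidableEq ι] {S : Alb ℝ} {F : Finset ι} {l : ι → ℝ} {e : ι → Alb ℝ}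

theorem IsRes.jm_e (h : IsRes S F l e) {j : ι} (hj : j ∈ F) : jm S (e j) = l j • e j := by
  rw [← h.sum_eq, sum_jm]
  rw [Finset.sum_eq_single j]
  · rw [smul_jm, h.orth j hj j hj, if_pos rfl]
  · intro i hi hij
    rw [smul_jm, h.orth i hi j hj, if_neg hij, smul_zero]
  · intro hn; exact absurd hj hn

theorem aeval_eig (L : Module.End ℝ (Alb ℝ)) (P : ℝ[X]) (c : ℝ) (x : Alb ℝ) (h : L x = c • x) :
    aeval L P x = P.eval c • x := by
  have hp : ∀ n : ℕ, (L ^ n) x = c ^ n • x := by
    intro n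
    induction n with
    | zero => simp
    | succ n ih => rw [pow_succ, Module.End.mul_apply, h, map_smul, ih, smul_smul, pow_succ']
  induction P using Polynomial.induction_on' with
  | add p q hp hq => simp [hp, hq, add_smul]
  | monomial n r =>
    simp [aeval_monomial, Module.End.mul_apply, Module.algebraMap_end_apply, hp, smul_smul, mul_comm]

theorem IsRes.pol_eq (h : IsRes S F l e) (P : ℝ[X]) : pol P S = ∑ i ∈ F, P.eval (l i) • e i := by
  unfold pol
  rw [← h.sum_one, map_sum]
  exact Finset.sum_congr rfl fun i hi => aeval_eig _ _ _ _ (by rw [Lm_apply, h.jm_e hi])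

theorem IsRes.jm_fun (h : IsRes S F l e) (f g : ι → ℝ) :
    jm (∑ i ∈ F, f i • e i) (∑ i ∈ F, g i • e i) = ∑ i ∈ F, (f i * g i) • e i := by
  rw [sum_jm]
  refine Finset.sum_congr rfl fun i hi => ?_
  rw [jm_sum, Finset.sum_eq_single i]
  · rw [smul_jm, jm_smul, h.orth i hi i hi, if_pos rfl, smul_smul]
  · intro j hj hji
    rw [smul_jm, jm_smul, h.orth i hi j hj, if_neg (Ne.symm hji), smul_zero, smul_zero]
  · intro hn; exact absurd hi hn

/-- the same idempotents resolve any combination -/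
theorem IsRes.map (h : IsRes S F l e) (f : ι → ℝ) : IsRes (∑ i ∈ F, f i • e i) F f e :=
  ⟨h.orth, h.sum_one, rfl⟩

theorem IsRes.tr_nonneg (h : IsRes S F l e) {i : ι} (hi : i ∈ F) : 0 ≤ tr (e i) := by
  have : tr (e i) = B (e i) (e i) := by
    rw [← tr_jm, h.orth i hi i hi, if_pos rfl]
  rw [this]; exact B_self_nonneg _

theorem tr_fun (f : ι → ℝ) : tr (∑ i ∈ F, f i • e i) = ∑ i ∈ F, f i * tr (e i) := by
  rw [← B_one, sum_B]; exact Finset.sum_congr rfl fun i _ => by rw [smul_B, B_one]

end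

theorem exists_res (S : Alb ℝ) : ∃ (F : Finset ℝ) (e : ℝ → Alb ℝ), IsRes S F id e := by
  have h : (one : Alb ℝ) ∈ ⨆ μ, Module.End.eigenspace (Lm S) μ := by rw [eig_top]; trivial
  rw [Submodule.mem_iSup_iff_exists_finsupp] at h
  obtain ⟨f, hf, hsum⟩ := h
  have he (μ : ℝ) : Lm S (f μ) = μ • f μ := Module.End.mem_eigenspace_iff.mp (hf μ)
  have hone : ∑ μ ∈ f.support, f μ = one := hsum
  have hpol (P : ℝ[X]) : pol P S = ∑ μ ∈ f.support, P.eval μ • f μ := by
    unfold pol
    rw [← hone, map_sum]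
    exact Finset.sum_congr rfl fun i _ => aeval_eig _ _ _ _ (he i)
  have hb (μ : ℝ) (hμ : μ ∈ f.support) : f μ = pol (Lagrange.basis f.support id μ) S := by
    rw [hpol, Finset.sum_eq_single μ]
    · have := Lagrange.eval_basis_self (s := f.support) (v := (id : ℝ → ℝ)) (i := μ) (fun _ _ _ _ h => h) hμ
      simp only [id] at this
      rw [this, one_smul]
    · intro ν hν hne
      have := Lagrange.eval_basis_of_ne (s := f.support) (v := (id : ℝ → ℝ)) (i := μ) (j := ν) (Ne.symm hne) hν
      simp only [id] at this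
      rw [this, zero_smul]
    · intro hn; exact absurd hμ hn
  refine ⟨f.support, f, ⟨?_, hone, ?_⟩⟩
  · intro μ hμ ν hν
    rw [hb μ hμ, hb ν hν, pol_mul, hpol]
    split_ifs with hmn
    · subst hmn
      rw [hpol]
      refine Finset.sum_congr rfl fun κ hκ => ?_
      rw [eval_mul]
      by_cases hk : κ = μ
      · subst hk
        have := Lagrange.eval_basis_self (s := f.support) (v := (id : ℝ → ℝ)) (i := κ) (fun _ _ _ _ h => h) hμ
        simp only [id] at this
        rw [this, one_mul]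
      · have := Lagrange.eval_basis_of_ne (s := f.support) (v := (id : ℝ → ℝ)) (i := μ) (j := κ) (Ne.symm hk) hκ
        simp only [id] at this
        rw [this, zero_mul]
    · refine Finset.sum_eq_zero fun κ hκ => ?_
      rw [eval_mul]
      by_cases hk : κ = μ
      · subst hk
        have := Lagrange.eval_basis_of_ne (s := f.support) (v := (id : ℝ → ℝ)) (i := ν) (j := κ) (Ne.symm hmn) hκ
        simp only [id] at this
        rw [this, mul_zero, zero_smul]
      · have := Lagrange.eval_basis_of_ne (s := f.support) (v := (id : ℝ → ℝ)) (i := μ) (j := κ) (Ne.symm hk) hκ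
        simp only [id] at this
        rw [this, zero_mul, zero_smul]
  · have h1 := hpol X
    simp only [eval_X] at h1
    have h2 : pol X S = S := by simp [pol, Lm_apply, jm_one]
    rw [h2] at h1
    exact h1.symm

/-- functional calculus `f(S) = ∑ f(λ_i) e_i` -/
noncomputable def fc (f : ℝ → ℝ) (S : Alb ℝ) : Alb ℝ :=
  ∑ μ ∈ (exists_res S).choose, f μ • (exists_res S).choose_spec.choose μ

/-- the functional calculus does not depend on the resolution -/
theorem fc_eq {ι : Type} [DecidableEq ι] {S : Alb ℝ} {F : Finset ι} {l : ι → ℝ} {e : ι → Alb ℝ}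
    (h : IsRes S F l e) (f : ℝ → ℝ) : fc f S = ∑ i ∈ F, f (l i) • e i := by
  set G := (exists_res S).choose with hG
  set c := (exists_res S).choose_spec.choose with hc
  have hr : IsRes S G id c := (exists_res S).choose_spec.choose_spec
  set T : Finset ℝ := G ∪ F.image l with hT
  set P := Lagrange.interpolate T id f with hP
  have hev (t : ℝ) (ht : t ∈ T) : P.eval t = f t := by
    have := Lagrange.eval_interpolate_at_node (s := T) (v := (id : ℝ → ℝ)) f (i := t) (fun _ _ _ _ h => h) ht
    exact this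
  have h1 := hr.pol_eq P
  have h2 := h.pol_eq P
  have e1 : fc f S = pol P S := by
    rw [h1]; unfold fc
    refine Finset.sum_congr rfl fun μ hμ => ?_
    have : P.eval (id μ) = f μ := hev μ (Finset.mem_union_left _ hμ)
    rw [this]
  rw [e1, h2]
  refine Finset.sum_congr rfl fun i hi => ?_
  rw [hev _ (Finset.mem_union_right _ (Finset.mem_image_of_mem l hi))]

end Pool.Agent.R969.AL
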