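import Pool.Agent.R969.AL.Pow
set_option autoImplicit false
set_option linter.flexible false

/-! The algebra `L^∞(Ω, H₃(𝕆_ℂ))`, its traces and its real powers: the definitions used by the statement. -/

namespace Pool.Agent.R969.AL

open MeasureTheory Filter Topology Polynomial

/-- `omul` is the Cayley–Dickson product `(a, b) (c, d) = (a c - d̄ b, d a + b c̄)` of quaternions -/
theorem omul_cayley_dickson {K : Type*} [CommRing K] (a b c d : Quaternion K) :
    omul ![a.re, a.imI, a.imJ, a.imK, b.re, b.imI, b.imJ, b.imK] ![c.re, c.imI, c.imJ, c.imK, d.re, d.imI, d.imJ, d.imK] =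
    ![(a * c - star d * b).re, (a * c - star d * b).imI, (a * c - star d * b).imJ, (a * c - star d * b).imK,
      (d * a + b * star c).re, (d * a + b * star c).imI, (d * a + b * star c).imJ, (d * a + b * star c).imK] := by
  apply oext
  · simp [omul_0, Quaternion.re_mul]; ring
  · simp [omul_1, Quaternion.imI_mul]; ring
  · simp [omul_2, Quaternion.imJ_mul]; ring
  · simp [omul_3, Quaternion.imK_mul]; ring
  · simp [omul_4, Quaternion.re_mul]
  · simp [omul_5, Quaternion.imI_mul]; ring
  · simp [omul_6, Quaternion.imJ_mul]; ring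
  · simp [omul_7, Quaternion.imK_mul]; ring

section
variable {K : Type*} [Field K]

theorem o1_0 : (o1 : Oct K) 0 = 1 := rfl
theorem o1_1 : (o1 : Oct K) 1 = 0 := rfl
theorem o1_2 : (o1 : Oct K) 2 = 0 := rfl
theorem o1_3 : (o1 : Oct K) 3 = 0 := rfl
theorem o1_4 : (o1 : Oct K) 4 = 0 := rfl
theorem o1_5 : (o1 : Oct K) 5 = 0 := rfl
theorem o1_6 : (o1 : Oct K) 6 = 0 := rfl
theorem o1_7 : (o1 : Oct K) 7 = 0 := rfl

theorem o1_mul (x : Oct K) : omul o1 x = x := by
  apply oext <;> simp only [omul_0, omul_1, omul_2, omul_3, omul_4, omul_5, omul_6, omul_7, o1_0, o1_1, o1_2, o1_3, o1_4, o1_5, o1_6, o1_7] <;> ring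
theorem mul_o1 (x : Oct K) : omul x o1 = x := by
  apply oext <;> simp only [omul_0, omul_1, omul_2, omul_3, omul_4, omul_5, omul_6, omul_7, o1_0, o1_1, o1_2, o1_3, o1_4, o1_5, o1_6, o1_7] <;> ring
theorem mul_cj_add (x y : Oct K) : omul x (cj y) + omul y (cj x) = (2 * dt x y) • o1 := by
  apply oext <;> simp only [omul_0, omul_1, omul_2, omul_3, omul_4, omul_5, omul_6, omul_7, cj_0, cj_1, cj_2, cj_3, cj_4,
    cj_5, cj_6, cj_7, dt, Pi.add_apply, Pi.smul_apply, smul_eq_mul, o1_0, o1_1, o1_2, o1_3, o1_4, o1_5, o1_6, o1_7] <;> ring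
theorem cj_mul_add (x y : Oct K) : omul (cj x) y + omul (cj y) x = (2 * dt x y) • o1 := by
  apply oext <;> simp only [omul_0, omul_1, omul_2, omul_3, omul_4, omul_5, omul_6, omul_7, cj_0, cj_1, cj_2, cj_3, cj_4,
    cj_5, cj_6, cj_7, dt, Pi.add_apply, Pi.smul_apply, smul_eq_mul, o1_0, o1_1, o1_2, o1_3, o1_4, o1_5, o1_6, o1_7] <;> ring

/-- `jm` is the Jordan product `(X Y + Y X) / 2` of Hermitian octonion matrices -/
theorem toMat_jm [NeZero (2 : K)] (x y : Alb K) :
    (2 : K) • toMat (jm x y) = matMul (toMat x) (toMat y) + matMul (toMat y) (toMat x) := by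
  have h2 : (2 : K) ≠ 0 := NeZero.ne 2
  obtain ⟨a1, a2, a3, x1, x2, x3⟩ := x
  obtain ⟨b1, b2, b3, y1, y2, y3⟩ := y
  have e (u : Oct K) : (2 : K) • (2⁻¹ : K) • u = u := by rw [smul_smul, mul_inv_cancel₀ h2, one_smul]
  have d1 := mul_cj_add x3 y3
  have d2 := cj_mul_add x2 y2
  have d3 := cj_mul_add x3 y3
  have d4 := mul_cj_add x1 y1
  have d5 := mul_cj_add x2 y2
  have d6 := cj_mul_add x1 y1
  funext i j
  fin_cases i <;> fin_cases j <;>
  simp [toMat, matMul, jm_mk, smul_omul, omul_smul, o1_mul, mul_o1, cj_smul, cj_add, cj_cj, cj_mul, e]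
  · linear_combination (norm := module) -d1 - d2
  · module
  · module
  · module
  · linear_combination (norm := module) -d3 - d4
  · module
  · module
  · module
  · linear_combination (norm := module) -d5 - d6

end

/-- The complex Albert algebra `H₃(𝕆_ℂ)`, with the sup norm of the entries (equivalent to its JB*-norm). -/
def AC : Type := Alb ℂ

/-- the sup norm of the entries -/
noncomputable instance instNormAC : NormedAddCommGroup AC := Prod.normedAddCommGroup
noncomputable instance instSpaceAC : NormedSpace ℂ AC := Prod.normedSpace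

/-- the Jordan product of `H₃(𝕆_ℂ)` -/
noncomputable def jC (x y : AC) : AC := jm (K := ℂ) x y
/-- the involution `(a + i b)* = a - i b` of `H₃(𝕆_ℂ)` -/
def sC (x : AC) : AC := starA x
/-- the unit of `H₃(𝕆_ℂ)` -/
noncomputable def oC : AC := (one : Alb ℂ)

section
variable {Ω : Type*} [MeasurableSpace Ω]

/-- `L^∞(Ω, H₃(𝕆_ℂ))`: essentially bounded (strongly) measurable functions modulo null functions. -/
def LInf (μ : Measure Ω) : Type _ := Lp AC ⊤ μ

/-- the essential supremum norm -/
noncomputable instance instNormL (μ : Measure Ω) : NormedAddCommGroup (LInf μ) :=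
  Lp.instNormedAddCommGroup (E := AC) (p := ⊤) (μ := μ)
noncomputable instance instSpaceL (μ : Measure Ω) : NormedSpace ℂ (LInf μ) :=
  Lp.instNormedSpace (𝕜 := ℂ) (E := AC) (p := ⊤) (μ := μ)

variable {μ : Measure Ω}

/-- the class of an essentially bounded measurable function -/
noncomputable def cls (f : Ω → AC) (hf : MemLp f ⊤ μ) : LInf μ := hf.toLp f

/-- a representative of a class -/
noncomputable def rep (f : LInf μ) : Ω → AC := AEEqFun.cast f.1

theorem memLp_rep (f : LInf μ) : MemLp (rep f) ⊤ μ := Lp.memLp (E := AC) (p := ⊤) (μ := μ) f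

theorem memLp_jC {f g : Ω → AC} (hf : MemLp f ⊤ μ) (hg : MemLp g ⊤ μ) : MemLp (fun ω => jC (f ω) (g ω)) ⊤ μ :=
  memLp_jm hf hg

theorem memLp_sC {f : Ω → AC} (hf : MemLp f ⊤ μ) : MemLp (fun ω => sC (f ω)) ⊤ μ := memLp_star hf

theorem memLp_oC : MemLp (fun _ : Ω => oC) ⊤ μ := memLp_top_const oC

/-- the pointwise Jordan product -/
noncomputable def mul (f g : LInf μ) : LInf μ :=
  cls (fun ω => jC (rep f ω) (rep g ω)) (memLp_jC (memLp_rep f) (memLp_rep g))

/-- the pointwise involution -/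
noncomputable def inv (f : LInf μ) : LInf μ := cls (fun ω => sC (rep f ω)) (memLp_sC (memLp_rep f))

/-- the unit -/
noncomputable def unit (μ : Measure Ω) : LInf μ := cls (fun _ => oC) memLp_oC

/-- Jordan powers `a^0 = 1`, `a^{n+1} = a ∘ a^n` -/
noncomputable def npow (a : LInf μ) : ℕ → LInf μ
  | 0 => unit μ
  | n + 1 => mul a (npow a n)

/-- `P(a)` for a real polynomial `P` -/
noncomputable def evalPol (P : ℝ[X]) (a : LInf μ) : LInf μ := P.sum fun n c => (c : ℂ) • npow a n

/-- `c = a^s` in the sense of the functional calculus in the closed subalgebra generated by the positive element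
`a`: for all sequences `P_n` of real polynomials that converge to `t ↦ t^s` uniformly on `[0, R]` for each `R`,
the elements `P_n(a)` converge to `c` in norm. -/
def IsPower (s : ℝ) (a c : LInf μ) : Prop :=
  ∀ P : ℕ → ℝ[X], (∀ R : ℝ, TendstoUniformlyOn (fun n t => (P n).eval t) (fun t => t ^ s) atTop (Set.Icc 0 R)) →
    Tendsto (fun n => evalPol (P n) a) atTop (𝓝 c)

/-- A positive trace on `L^∞(Ω, H₃(𝕆_ℂ))`: a linear functional with `τ(a ∘ a) ≥ 0` for self-adjoint `a` and
`τ(x ∘ (y ∘ z)) = τ((x ∘ y) ∘ z)` for all `x, y, z`. -/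
structure IsPosTrace (τ : LInf μ →ₗ[ℂ] ℂ) : Prop where
  pos : ∀ a : LInf μ, inv a = a → 0 ≤ (τ (mul a a)).re ∧ (τ (mul a a)).im = 0
  assoc : ∀ x y z : LInf μ, τ (mul x (mul y z)) = τ (mul (mul x y) z)

open Classical in
/-- the real power `a^s` (`s > 0`) of a positive element `a`, by functional calculus: the element `c` with
`IsPower s a c` -/
noncomputable def power (s : ℝ) (a : LInf μ) : LInf μ := if h : ∃ c, IsPower s a c then h.choose else 0

/-- `‖x‖_p = (τ[(x* ∘ x)^{p/2}])^{1/p}` -/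
noncomputable def pnorm (τ : LInf μ →ₗ[ℂ] ℂ) (p : ℝ) (x : LInf μ) : ℝ :=
  (τ (power (p / 2) (mul (inv x) x))).re ^ (1 / p)

end

end Pool.Agent.R969.AL
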